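import Pool.Agent.Helper21.UV.Defs2

/-!
Affine forms as functions of the variables.
-/

set_option autoImplicit false
set_option linter.unusedSectionVars false

open Finset
open scoped BigOperators

namespace Pool.Agent.Helper21.UV

open Pool.Agent.Helper22.ETModel Pool.Agent.Helper8.VT Pool.Agent.Helper8.UV

section
variable {n m q P : ℕ}

/-- The constant part of the weight in a cell. -/
def cst (m q : ℕ) (u v : Fin n) : ℤ :=
  match key m u v with
  | none => 10 * q
  | some _ => - cpy m q u v

/-- The value of a variable. -/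
def tot (q P : ℕ) (μ : Key m → Fin (10 * P)) (X Y Z : Cfg m q) (e : Key m) : ℝ :=
  (mac q P μ e : ℝ) + ((val3 X Y Z e).val : ℝ)

theorem WM_none (μ : Key m → Fin (10 * P)) (X Y Z : Cfg m q) (u v : Fin n)
    (h : key m u v = none) : WM n P μ X Y Z u v = 10 * q := by
  unfold WM WtH
  rw [h]

theorem WM_some (μ : Key m → Fin (10 * P)) (X Y Z : Cfg m q) (u v : Fin n) (e : Key m) (c : ℕ)
    (h : key m u v = some (e, c)) :
    WM n P μ X Y Z u v = mac q P μ e + (val3 X Y Z e).val - cpy m q u v := by
  unfold WM WtH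
  rw [h]
  simp only
  unfold hM
  rw [h]

theorem WM_cell (μ : Key m → Fin (10 * P)) (X Y Z : Cfg m q) (u v : Fin n) :
    (WM n P μ X Y Z u v : ℝ) = (cst m q u v : ℝ) +
      ∑ e, if (key m u v).map Prod.fst = some e then tot q P μ X Y Z e else 0 := by
  have hcst : cst m q u v = match key m u v with
    | none => (10 * q : ℤ)
    | some _ => - cpy m q u v := rfl
  rcases hc : key m u v with _ | ⟨e, c⟩
  · rw [WM_none μ X Y Z u v hc, hcst, hc]
    simp
  · rw [WM_some μ X Y Z u v e c hc, hcst, hc]
    simp only [Option.map_some, Option.some.injEq, Finset.sum_ite_eq, Finset.mem_univ, if_true]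
    unfold tot
    push_cast
    ring

/-- The constant term of a form. -/
def cst0 (m q : ℕ) (c₀ : ℝ) (c : Fin n → Fin n → ℝ) : ℝ :=
  c₀ + ∑ u, ∑ v, c u v * (cst m q u v : ℝ)

theorem aff_eq (c₀ : ℝ) (c : Fin n → Fin n → ℝ) (μ : Key m → Fin (10 * P)) (X Y Z : Cfg m q) :
    aff c₀ c (WM n P μ X Y Z) = cst0 m q c₀ c + ∑ e, coef m c e * tot q P μ X Y Z e := by
  unfold aff cst0 coef
  simp only [WM_cell, mul_add, Finset.sum_add_distrib, Finset.mul_sum, Finset.sum_mul]
  rw [add_assoc]
  congr 2
  have e1 : ∀ u : Fin n, ∑ v : Fin n, ∑ e : Key m, c u v *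
      (if (key m u v).map Prod.fst = some e then tot q P μ X Y Z e else 0) =
      ∑ e : Key m, ∑ v : Fin n, c u v *
      (if (key m u v).map Prod.fst = some e then tot q P μ X Y Z e else 0) := fun u =>
    Finset.sum_comm
  simp only [e1]
  rw [Finset.sum_comm]
  refine Finset.sum_congr rfl fun e _ => Finset.sum_congr rfl fun u _ =>
    Finset.sum_congr rfl fun v _ => ?_
  split_ifs <;> simp

end

end Pool.Agent.Helper21.UV
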