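import Pool.Agent.Helper21.UV.Main2
import Pool.Agent.Helper8.UV.Placed

/-!
# The capacity of the voters for general placements
-/

set_option autoImplicit false
set_option linter.unusedSectionVars false

open Finset
open scoped BigOperators

namespace Pool.Agent.Helper21.UV

open Pool.Agent.Helper22.ETModel Pool.Agent.Helper8.VT Pool.Agent.Helper8.UV
open Pool.Agent.Helper8.VS (ind ind_nonneg ind_le_one ind_true ind_false)

section
variable {n m q : ℕ} [NeZero q]

theorem val3_eq_wk (X Y Z : Cfg m q) (e : Key m) : val3 X Y Z e = wk X Y Z e := by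
  obtain ⟨c, p⟩ := e
  fin_cases c <;> rfl

/-- The contribution of the cell `p` to the variable `v`. -/
def ctrH (h : Fin n → Fin n → ZMod q → ℤ) (g : Fin n × Fin n → ℤ → ℝ) (p : Fin n × Fin n)
    (v : Key m) (u : ZMod q) : ℝ :=
  match key m p.1 p.2 with
  | none => 0
  | some (v', _) => if v' = v then g p (h p.1 p.2 u) else 0

/-- The contribution of the cells without a variable. -/
def cstH (m : ℕ) (h0 : Fin n → Fin n → ℤ) (g : Fin n × Fin n → ℤ → ℝ) (p : Fin n × Fin n) : ℝ :=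
  match key m p.1 p.2 with
  | none => g p (h0 p.1 p.2)
  | some _ => 0

theorem g_splitH (h0 : Fin n → Fin n → ℤ) (h : Fin n → Fin n → ZMod q → ℤ)
    (g : Fin n × Fin n → ℤ → ℝ) (p : Fin n × Fin n) (X Y Z : Cfg m q) :
    g p (WtH m q h0 h X Y Z p.1 p.2) = cstH m h0 g p + ∑ v, ctrH h g p v (wk X Y Z v) := by
  unfold WtH cstH ctrH
  rcases key m p.1 p.2 with _ | ⟨v, s⟩
  · simp
  · simp [val3_eq_wk]

theorem sum_cellsH (h0 : Fin n → Fin n → ℤ) (h : Fin n → Fin n → ZMod q → ℤ)
    (g : Fin n × Fin n → ℤ → ℝ) (K : Finset (Fin n × Fin n)) (X Y Z : Cfg m q) :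
    ∑ p ∈ K, g p (WtH m q h0 h X Y Z p.1 p.2) =
      (∑ p ∈ K, cstH m h0 g p) + ∑ v, (∑ p ∈ K, ctrH h g p v (wk X Y Z v)) := by
  rw [Finset.sum_comm, ← Finset.sum_add_distrib]
  exact Finset.sum_congr rfl fun p _ => g_splitH h0 h g p X Y Z

open Classical in
theorem card_nonconstH (h : Fin n → Fin n → ZMod q → ℤ) (g : Fin n × Fin n → ℤ → ℝ)
    (K : Finset (Fin n × Fin n)) :
    (univ.filter fun e : Key m => ∃ u u' : ZMod q, (∑ p ∈ K, ctrH h g p e u) ≠
      ∑ p ∈ K, ctrH h g p e u').card ≤ K.card := by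
  have h1 : (univ.filter fun e : Key m => ∃ u u' : ZMod q, (∑ p ∈ K, ctrH h g p e u) ≠
      ∑ p ∈ K, ctrH h g p e u') ⊆ K.biUnion fun p =>
        (match key m p.1 p.2 with
          | none => (∅ : Finset (Key m))
          | some (v, _) => {v}) := by
    intro e he
    rw [mem_filter] at he
    obtain ⟨_, u, u', hne⟩ := he
    rw [mem_biUnion]
    by_contra hcon
    push Not at hcon
    apply hne
    refine Finset.sum_congr rfl fun p hp => ?_
    have h2 := hcon p hp
    unfold ctrH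
    rcases hk : key m p.1 p.2 with _ | ⟨v, s⟩
    · rfl
    · rw [hk] at h2
      simp only [mem_singleton] at h2
      simp only
      rw [if_neg (fun h => h2 h.symm), if_neg (fun h => h2 h.symm)]
  refine (Finset.card_le_card h1).trans (Finset.card_biUnion_le.trans ?_)
  calc _ ≤ ∑ p ∈ K, 1 := by
        apply Finset.sum_le_sum
        intro p _
        rcases key m p.1 p.2 with _ | ⟨v, s⟩
        · simp
        · simp
    _ = K.card := by simp

/-- The capacity of a junta of gates. -/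
theorem junta_capH (h0 : Fin n → Fin n → ℤ) (h : Fin n → Fin n → ZMod q → ℤ)
    (hval : ∀ X Y Z : Cfg m q, (mkH h0 h X Y Z).Valid) (H : Inst n → ℝ) (d W : ℕ)
    (hJ : IsJunta d W H) :
    cap (GM (mkH (m := m) h0 h) H) ≤ 80 * m * (Real.sqrt d * W) := by
  classical
  obtain ⟨K, g, θ, F, hK, hH⟩ := hJ
  have h1 : ∀ X Y Z : Cfg m q, GM (mkH (m := m) h0 h) H X Y Z =
      F (fl n) (fun s => decide (θ (fl n) s - (∑ p ∈ K (fl n) s, cstH m h0 (g (fl n) s) p) ≤
        ∑ v, (fun v u => ∑ p ∈ K (fl n) s, ctrH h (g (fl n) s) p v u) v (wk X Y Z v))) := by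
    intro X Y Z
    unfold GM
    rw [hH _ (hval X Y Z)]
    show F (fl n) _ = _
    congr 1
    funext s
    have h2 := sum_cellsH (m := m) h0 h (g (fl n) s) (K (fl n) s) X Y Z
    apply decide_eq_decide.2
    show θ (fl n) s ≤ ∑ p ∈ K (fl n) s, g (fl n) s p (WtH m q h0 h X Y Z p.1 p.2) ↔ _
    rw [h2]
    constructor
    · intro h; linarith
    · intro h; linarith
  have h3 := Pool.Agent.Helper50.UV.gates_cap d
    (fun s v u => ∑ p ∈ K (fl n) s, ctrH h (g (fl n) s) p v u)
    (fun s => θ (fl n) s - (∑ p ∈ K (fl n) s, cstH m h0 (g (fl n) s) p)) (F (fl n))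
    (GM (mkH (m := m) h0 h) H) h1 (fun s => (K (fl n) s).card) (fun s => by
      exact (card_nonconstH (m := m) (q := q) h (g (fl n) s) (K (fl n) s)))
  refine h3.trans ?_
  have h4 : (∑ s, (((K (fl n) s).card : ℕ) : ℝ)) ≤ W := by
    exact_mod_cast hK (fl n)
  have h5 : 0 ≤ Real.sqrt d := Real.sqrt_nonneg _
  have h6 : (0 : ℝ) ≤ m := Nat.cast_nonneg m
  apply mul_le_mul_of_nonneg_left _ (by positivity)
  exact mul_le_mul_of_nonneg_left h4 h5

/-- The capacity of a voter that does not depend on the weights. -/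
theorem const_capH (h0 : Fin n → Fin n → ℤ) (h : Fin n → Fin n → ZMod q → ℤ)
    (hval : ∀ X Y Z : Cfg m q, (mkH h0 h X Y Z).Valid) (H : Inst n → ℝ)
    (hF : ∃ F : Flags n → ℝ, ∀ I : Inst n, I.Valid → H I = F I.flag) :
    cap (GM (mkH (m := m) h0 h) H) = 0 := by
  obtain ⟨F, hF⟩ := hF
  have h1 : GM (mkH (m := m) h0 h) H = fun _ _ _ : Cfg m q => F (fl n) := by
    funext X Y Z
    exact hF _ (hval X Y Z)
  rw [h1, cap_const]

/-- `ev` depends only on the values at the vertices. -/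
theorem ev_congr (G G' : Cfg m q → Cfg m q → Cfg m q → ℝ) (i j k k' : Fin m) (X Y Z : Cfg m q)
    (x a a' : Bool → ZMod q)
    (h : ∀ p c r s t, G (upX i j X (x p)) (upY j k k' Y (a c) (a' s))
        (upZ i k k' Z (vb x a r) (vb' x a' t)) =
      G' (upX i j X (x p)) (upY j k k' Y (a c) (a' s)) (upZ i k k' Z (vb x a r) (vb' x a' t)))
    (he : ev G i j k k' X Y Z x a a') : ev G' i j k k' X Y Z x a a' := by
  obtain ⟨s, t, hD⟩ := he
  refine ⟨s, t, ?_⟩
  have e : D3 (fun u v w => F5 G' i j k k' X Y Z u v w (a' s) (vb' x a' t)) x a (vb x a) =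
      D3 (fun u v w => F5 G i j k k' X Y Z u v w (a' s) (vb' x a' t)) x a (vb x a) := by
    unfold D3
    refine Finset.sum_congr rfl fun p _ => Finset.sum_congr rfl fun c _ =>
      Finset.sum_congr rfl fun r _ => ?_
    beta_reduce
    rw [F5_eq, F5_eq, h p c r s t]
  rw [e]
  exact hD

/-- The exceptional indicator at the vertices of a structure. -/
noncomputable def excSum (E : Cfg m q → Cfg m q → Cfg m q → Prop) (i j k k' : Fin m)
    (X Y Z : Cfg m q) (x a a' : Bool → ZMod q) : ℝ :=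
  ∑ v : Bool × Bool × Bool × Bool × Bool, ind (E (upX i j X (x v.1))
    (upY j k k' Y (a v.2.1) (a' v.2.2.2.1)) (upZ i k k' Z (vb x a v.2.2.1)
      (vb' x a' v.2.2.2.2)))

theorem ind_ev_le (G G' : Cfg m q → Cfg m q → Cfg m q → ℝ)
    (E : Cfg m q → Cfg m q → Cfg m q → Prop) (hE : ∀ X Y Z, ¬ E X Y Z → G' X Y Z = G X Y Z)
    (i j k k' : Fin m) (X Y Z : Cfg m q) (x a a' : Bool → ZMod q) :
    ind (ev G i j k k' X Y Z x a a') ≤ ind (ev G' i j k k' X Y Z x a a') +
      excSum E i j k k' X Y Z x a a' := by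
  have h0 : 0 ≤ excSum E i j k k' X Y Z x a a' := Finset.sum_nonneg fun _ _ => ind_nonneg _
  by_cases hb : ∃ v : Bool × Bool × Bool × Bool × Bool, E (upX i j X (x v.1))
    (upY j k k' Y (a v.2.1) (a' v.2.2.2.1)) (upZ i k k' Z (vb x a v.2.2.1)
      (vb' x a' v.2.2.2.2))
  · obtain ⟨v, hv⟩ := hb
    have h1 : (1 : ℝ) ≤ excSum E i j k k' X Y Z x a a' := by
      unfold excSum
      refine le_trans (le_of_eq ?_) (Finset.single_le_sum (f := fun
        v : Bool × Bool × Bool × Bool × Bool => ind (E (upX i j X (x v.1))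
        (upY j k k' Y (a v.2.1) (a' v.2.2.2.1)) (upZ i k k' Z (vb x a v.2.2.1)
        (vb' x a' v.2.2.2.2)))) (fun _ _ => ind_nonneg _) (Finset.mem_univ v))
      exact (ind_true hv).symm
    linarith [ind_le_one (ev G i j k k' X Y Z x a a'), ind_nonneg (ev G' i j k k' X Y Z x a a')]
  · push Not at hb
    by_cases hev : ev G i j k k' X Y Z x a a'
    · have h2 : ev G' i j k k' X Y Z x a a' := ev_congr G G' i j k k' X Y Z x a a'
        (fun p c r s t => (hE _ _ _ (hb (p, c, r, s, t))).symm) hev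
      rw [ind_true hev, ind_true h2]
      linarith
    · rw [ind_false hev]
      linarith [ind_nonneg (ev G' i j k k' X Y Z x a a')]

theorem card_fin_erase_le : (∑ _i : Fin m, ∑ _j : Fin m, ∑ k : Fin m,
    ∑ _k' ∈ univ.erase k, (1 : ℝ)) ≤ (m : ℝ) ^ 4 := by
  calc (∑ _i : Fin m, ∑ _j : Fin m, ∑ k : Fin m, ∑ _k' ∈ univ.erase k, (1 : ℝ))
      ≤ ∑ _i : Fin m, ∑ _j : Fin m, ∑ k : Fin m, ∑ _k' : Fin m, (1 : ℝ) := by
        refine Finset.sum_le_sum fun i _ => Finset.sum_le_sum fun j _ =>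
          Finset.sum_le_sum fun k _ => ?_
        exact Finset.sum_le_sum_of_subset_of_nonneg (Finset.erase_subset _ _)
          fun _ _ _ => zero_le_one
    _ = (m : ℝ) ^ 4 := by
        simp only [Finset.sum_const, Finset.card_univ, Fintype.card_fin, nsmul_eq_mul, mul_one]
        ring

/-- The capacity of voters which agree with functions of small capacity outside of exceptional
sets. -/
theorem approx_cap {M : Type} [Fintype M] (G G' : M → Cfg m q → Cfg m q → Cfg m q → ℝ)
    (E : M → Cfg m q → Cfg m q → Cfg m q → Prop)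
    (hE : ∀ μ X Y Z, ¬ E μ X Y Z → G' μ X Y Z = G μ X Y Z) (ε : ℝ) (hε : 0 ≤ ε)
    (hex : ∀ X Y Z, ∑ μ, ind (E μ X Y Z) ≤ ε * Fintype.card M) :
    ∑ μ, cap (G μ) ≤ ∑ μ, cap (G' μ) + 32 * (m : ℝ) ^ 4 * ε * Fintype.card M := by
  have h1 : ∀ μ, cap (G μ) ≤ cap (G' μ) + ∑ i, ∑ j, ∑ k, ∑ k' ∈ univ.erase k,
      av univ (fun X Y Z x a a' => excSum (E μ) i j k k' X Y Z x a a') := by
    intro μ
    rw [cap_eq, cap_eq]
    unfold capS
    simp only [← Finset.sum_add_distrib]
    refine Finset.sum_le_sum fun i _ => Finset.sum_le_sum fun j _ => Finset.sum_le_sum fun k _ =>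
      Finset.sum_le_sum fun k' _ => ?_
    rw [← av_add]
    refine av_mono univ _ _ fun X Y Z x _ a _ a' _ => ?_
    exact ind_ev_le (G μ) (G' μ) (E μ) (hE μ) i j k k' X Y Z x a a'
  have h2 : ∀ i j k k' : Fin m, ∑ μ, av univ (fun X Y Z x a a' =>
      excSum (E μ) i j k k' X Y Z x a a') ≤ 32 * ε * Fintype.card M := by
    intro i j k k'
    rw [← av_sum]
    refine le_trans (av_mono univ _ (fun _ _ _ _ _ _ => 32 * ε * Fintype.card M)
      fun X Y Z x _ a _ a' _ => ?_) (le_of_eq (av_const univ Finset.univ_nonempty _))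
    unfold excSum
    rw [Finset.sum_comm]
    refine le_trans (Finset.sum_le_sum fun v _ => hex _ _ _) ?_
    rw [Finset.sum_const, Finset.card_univ]
    simp only [Fintype.card_prod, Fintype.card_bool, nsmul_eq_mul]
    refine le_of_eq ?_
    push_cast
    ring
  have h3 : ∑ μ, ∑ i : Fin m, ∑ j : Fin m, ∑ k : Fin m, ∑ k' ∈ univ.erase k,
      av univ (fun X Y Z x a a' => excSum (E μ) i j k k' X Y Z x a a') ≤
      32 * ε * Fintype.card M * (m : ℝ) ^ 4 := by
    have e : ∑ μ, ∑ i : Fin m, ∑ j : Fin m, ∑ k : Fin m, ∑ k' ∈ univ.erase k,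
        av univ (fun X Y Z x a a' => excSum (E μ) i j k k' X Y Z x a a') =
        ∑ i : Fin m, ∑ j : Fin m, ∑ k : Fin m, ∑ k' ∈ univ.erase k, ∑ μ,
        av univ (fun X Y Z x a a' => excSum (E μ) i j k k' X Y Z x a a') := by
      rw [Finset.sum_comm]
      refine Finset.sum_congr rfl fun i _ => ?_
      rw [Finset.sum_comm]
      refine Finset.sum_congr rfl fun j _ => ?_
      rw [Finset.sum_comm]
      refine Finset.sum_congr rfl fun k _ => ?_
      rw [Finset.sum_comm]
    rw [e]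
    calc ∑ i : Fin m, ∑ j : Fin m, ∑ k : Fin m, ∑ k' ∈ univ.erase k, ∑ μ,
        av univ (fun X Y Z x a a' => excSum (E μ) i j k k' X Y Z x a a')
        ≤ ∑ i : Fin m, ∑ j : Fin m, ∑ k : Fin m, ∑ k' ∈ univ.erase k,
          32 * ε * Fintype.card M * 1 := by
          refine Finset.sum_le_sum fun i _ => Finset.sum_le_sum fun j _ =>
            Finset.sum_le_sum fun k _ => Finset.sum_le_sum fun k' _ => ?_
          rw [mul_one]
          exact h2 i j k k'
      _ = 32 * ε * Fintype.card M * ∑ i : Fin m, ∑ j : Fin m, ∑ k : Fin m,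
          ∑ k' ∈ univ.erase k, (1 : ℝ) := by
          simp only [Finset.mul_sum]
      _ ≤ 32 * ε * Fintype.card M * (m : ℝ) ^ 4 :=
          mul_le_mul_of_nonneg_left card_fin_erase_le (by positivity)
  have h4 := Finset.sum_le_sum fun μ (_ : μ ∈ (univ : Finset M)) => h1 μ
  rw [Finset.sum_add_distrib] at h4
  linarith

end

end Pool.Agent.Helper21.UV
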