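import Pool.Agent.Helper8.UV.Defs

/-!
# Threshold circuits with unbounded weights and unbounded fan-in: the voters

`LTree n B D`: decision trees with at most `B` probes and at most `D` sign queries of affine forms
with real coefficients in all the weights. `Price2`: the price of a voter. The functions of a few
additive threshold gates (`IsJunta`) are defined in `Helper8/UV/Defs.lean`.
-/

set_option autoImplicit false

open Finset
open scoped BigOperators

namespace Pool.Agent.Helper21.UV

open Pool.Agent.Helper22.ETModel Pool.Agent.Helper8.VT Pool.Agent.Helper8.UV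

/-- Decision trees with at most `B` probes and at most `D` sign queries. A probe reads the weight
in one cell. A sign query asks whether `c₀ + ∑ c i j * w i j ≥ 0`; the coefficients are arbitrary
real numbers. The further course depends in an arbitrary way on the answers. A leaf carries the
output. -/
inductive LTree (n : ℕ) : ℕ → ℕ → Type
  | leaf {B D : ℕ} (v : ℝ) : LTree n B D
  | probe {B D : ℕ} (i j : Fin n) (next : ℤ → LTree n B D) : LTree n (B + 1) D
  | sign {B D : ℕ} (c₀ : ℝ) (c : Fin n → Fin n → ℝ) (next : Bool → LTree n B D) :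
      LTree n B (D + 1)

/-- The value of an affine form. -/
def aff {n : ℕ} (c₀ : ℝ) (c : Fin n → Fin n → ℝ) (w : Wts n) : ℝ :=
  c₀ + ∑ i, ∑ j, c i j * (w i j : ℝ)

open Classical in
/-- The output of a tree on the weights `w`. -/
noncomputable def LTree.eval {n : ℕ} : {B D : ℕ} → LTree n B D → Wts n → ℝ
  | _, _, .leaf v, _ => v
  | _, _, .probe i j next, w => (next (w i j)).eval w
  | _, _, .sign c₀ c next, w => (next (decide (0 ≤ aff c₀ c w))).eval w

/-- `H` is computed by trees with at most `B` probes and at most `D` sign queries, which know the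
flags. -/
def IsReader {n : ℕ} (B D : ℕ) (H : Inst n → ℝ) : Prop :=
  ∃ t : Flags n → LTree n B D, ∀ I : Inst n, I.Valid → H I = (t I.flag).eval I.wt

/-- `κ` is the price of the voter `H`: `0` for a voter that does not depend on the weights,
`(B + D) ^ (3/2)` for a decision tree with `B` probes and `D` sign queries and arbitrary real
outputs, `√d * W` for a function of `d` additive threshold gates with `W` wires. -/
def Price2 {n : ℕ} (H : Inst n → ℝ) (κ : ℝ) : Prop :=
  (κ = 0 ∧ ∃ F : Flags n → ℝ, ∀ I : Inst n, I.Valid → H I = F I.flag) ∨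
    (∃ B D : ℕ, 1 ≤ B + D ∧ D ≤ 200 * (Nat.log 2 n + 1) ∧ IsReader B D H ∧
      κ = ((B + D : ℕ) : ℝ) ^ (3 / 2 : ℝ)) ∨
    ∃ d W : ℕ, 1 ≤ d ∧ 1 ≤ W ∧ IsJunta d W H ∧ κ = Real.sqrt d * W

end Pool.Agent.Helper21.UV
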