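import Pool.Agent.Helper21.UV.Map
import Pool.Agent.Helper21.UV.Model

/-!
# Readers with sign queries: the random weights and the reading phases

The random weights have a macroscopic and a microscopic part: every variable is big with
probability `1/10`.
-/

set_option autoImplicit false
set_option linter.unusedSectionVars false

open Finset
open scoped BigOperators

namespace Pool.Agent.Helper21.UV

open Pool.Agent.Helper22.ETModel Pool.Agent.Helper8.VT Pool.Agent.Helper8.UV

section
variable {n m q P : ℕ}

/-- The macroscopic part. The variable `e` is big if `μ e < P`. -/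
def mac (q P : ℕ) (μ : Key m → Fin (10 * P)) (e : Key m) : ℤ :=
  if (μ e : ℕ) < P then 10 * q + (μ e : ℕ) else 0

/-- The weight as a function of the microscopic part. -/
def hM (P : ℕ) (μ : Key m → Fin (10 * P)) (u v : Fin n) (z : ZMod q) : ℤ :=
  match key m u v with
  | none => 0
  | some (e, _) => mac q P μ e + z.val - cpy m q u v

/-- The instances. -/
def mkM (n : ℕ) (P : ℕ) (μ : Key m → Fin (10 * P)) (X Y Z : Cfg m q) : Inst n :=
  mkH (fun _ _ => 10 * q) (hM P μ) X Y Z

/-- The weights. -/
def WM (n : ℕ) (P : ℕ) (μ : Key m → Fin (10 * P)) (X Y Z : Cfg m q) : Wts n :=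
  WtH m q (fun _ _ => 10 * q) (hM P μ) X Y Z

theorem mkM_wt (μ : Key m → Fin (10 * P)) (X Y Z : Cfg m q) :
    (mkM n P μ X Y Z).wt = WM n P μ X Y Z := rfl

/-- The coefficient of a variable in a linear form. -/
noncomputable def coef (m : ℕ) (c : Fin n → Fin n → ℝ) (e : Key m) : ℝ :=
  ∑ u, ∑ v, if (key m u v).map Prod.fst = some e then c u v else 0

open Classical in
/-- The unread variable with the largest coefficient. -/
noncomputable def top (C : Key m → ℝ) (A : Finset (Key m)) : Option (Key m) :=
  if h : ∃ e, e ∉ A ∧ C e ≠ 0 ∧ ∀ e', e' ∉ A → |C e'| ≤ |C e| then some h.choose else none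

theorem top_some {C : Key m → ℝ} {A : Finset (Key m)} {e : Key m} (h : top C A = some e) :
    e ∉ A ∧ C e ≠ 0 ∧ ∀ e', e' ∉ A → |C e'| ≤ |C e| := by
  unfold top at h
  split_ifs at h with h'
  simp only [Option.some.injEq] at h
  rw [← h]
  exact h'.choose_spec

theorem top_none {C : Key m → ℝ} {A : Finset (Key m)} (h : top C A = none) :
    ∀ e, e ∉ A → C e = 0 := by
  classical
  unfold top at h
  split_ifs at h with h'
  by_contra hcon
  push Not at hcon
  obtain ⟨e, he, hC⟩ := hcon
  set U : Finset (Key m) := univ \ A with hU
  have hne : U.Nonempty := ⟨e, by simp [hU, he]⟩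
  obtain ⟨e1, he1, hmax⟩ := Finset.exists_max_image U (fun e => |C e|) hne
  refine h' ⟨e1, by simpa [hU] using he1, ?_, fun e' he' => hmax e' (by simp [hU, he'])⟩
  intro h0
  have := hmax e (by simp [hU, he])
  rw [h0, abs_zero] at this
  exact hC (abs_nonpos_iff.1 this)

/-- The reading phase of a sign query with the coefficients `C` and the value `L`: the unread
variables are read in the order of decreasing coefficients until a big one is met. The predicate
holds if this takes too long, or the value of the form is too small, or `nxt` holds for the new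
set of read variables. -/
noncomputable def phase (q P : ℕ) (μ : Key m → Fin (10 * P)) (C : Key m → ℝ) (L : ℝ)
    (nxt : Finset (Key m) → Prop) : ℕ → Finset (Key m) → Prop
  | 0, _ => True
  | f + 1, A =>
    match top C A with
    | none => nxt A
    | some e =>
      if (μ e : ℕ) < P then
        |L| ≤ Fintype.card (Key m) * |C e| * q ∨ nxt (insert e A)
      else phase q P μ C L nxt f (insert e A)

/-- The set of read variables after a probe. -/
def addKey (m : ℕ) (i j : Fin n) (A : Finset (Key m)) : Finset (Key m) :=
  match key m i j with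
  | none => A
  | some (e, _) => insert e A

open Classical in
/-- The run from the set `A` of read variables is exceptional. -/
noncomputable def LTree.exc (c1 q P : ℕ) (μ : Key m → Fin (10 * P)) (w : Wts n) :
    {B D : ℕ} → LTree n B D → Finset (Key m) → Prop
  | _, _, .leaf _, _ => False
  | _, _, .probe i j next, A => (next (w i j)).exc c1 q P μ w (addKey m i j A)
  | _, _, .sign c₀ c next, A =>
    phase q P μ (coef m c) (aff c₀ c w)
      (fun A' => (next (decide (0 ≤ aff c₀ c w))).exc c1 q P μ w A') c1 A

/-- The same with both answers allowed at the sign queries. -/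
noncomputable def LTree.excN (c1 q P : ℕ) (μ : Key m → Fin (10 * P)) (w : Wts n) :
    {B D : ℕ} → LTree n B D → Finset (Key m) → Prop
  | _, _, .leaf _, _ => False
  | _, _, .probe i j next, A => (next (w i j)).excN c1 q P μ w (addKey m i j A)
  | _, _, .sign c₀ c next, A =>
    phase q P μ (coef m c) (aff c₀ c w)
      (fun A' => ∃ b : Bool, (next b).excN c1 q P μ w A') c1 A

theorem phase_mono {μ : Key m → Fin (10 * P)} {C : Key m → ℝ} {L : ℝ}
    {nxt nxt' : Finset (Key m) → Prop} (h : ∀ A, nxt A → nxt' A) :
    ∀ (f : ℕ) (A : Finset (Key m)), phase q P μ C L nxt f A → phase q P μ C L nxt' f A := by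
  intro f
  induction f with
  | zero => intro A h; trivial
  | succ f ih =>
    intro A hA
    unfold phase at hA ⊢
    rcases htop : top C A with _ | e
    · rw [htop] at hA
      exact h _ hA
    · rw [htop] at hA
      simp only at hA ⊢
      by_cases h2 : (μ e : ℕ) < P
      · rw [if_pos h2] at hA ⊢
        exact hA.imp id (h _)
      · rw [if_neg h2] at hA ⊢
        exact ih _ hA

theorem LTree.excN_of_exc {c1 : ℕ} {μ : Key m → Fin (10 * P)} {w : Wts n} {B D : ℕ}
    (t : LTree n B D) : ∀ A, t.exc c1 q P μ w A → t.excN c1 q P μ w A := by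
  induction t with
  | leaf v => intro A h; exact h
  | probe i j next ih => intro A h; exact ih _ _ h
  | sign c₀ c next ih =>
    intro A h
    exact phase_mono (fun A' hA' => ⟨_, ih _ A' hA'⟩) _ _ h

end

end Pool.Agent.Helper21.UV
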