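import Pool.Agent.Helper21.UV.Aff

/-!
# The instances with a macroscopic part
-/

set_option autoImplicit false
set_option linter.unusedSectionVars false

open Finset
open scoped BigOperators

namespace Pool.Agent.Helper21.UV

open Pool.Agent.Helper22.ETModel Pool.Agent.Helper8.VT Pool.Agent.Helper8.UV

section
variable {n m q P : ℕ}

theorem key01 (a b : Fin n) (ha : (a : ℕ) % 3 = 0) (hb : (b : ℕ) % 3 = 1)
    (h1 : (a : ℕ) / 3 < m) (h2 : (b : ℕ) / 3 < m) :
    key m a b = some ((0, (⟨(a : ℕ) / 3, h1⟩, ⟨(b : ℕ) / 3, h2⟩)), 0) := by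
  unfold key okey
  rw [dif_pos ⟨ha, hb, h1, h2⟩]

theorem key12 (a b : Fin n) (ha : (a : ℕ) % 3 = 1) (hb : (b : ℕ) % 3 = 2)
    (h1 : (a : ℕ) / 3 < m) (h2 : (b : ℕ) / 9 < m) :
    key m a b = some ((1, (⟨(a : ℕ) / 3, h1⟩, ⟨(b : ℕ) / 9, h2⟩)), 0) := by
  unfold key okey
  rw [dif_neg (by omega), dif_pos ⟨ha, hb, h1, h2⟩]

theorem key20 (a b : Fin n) (ha : (a : ℕ) % 3 = 2) (hb : (b : ℕ) % 3 = 0)
    (h1 : (a : ℕ) / 9 < m) (h2 : (b : ℕ) / 3 < m) :
    key m a b = some ((2, (⟨(a : ℕ) / 9, h1⟩, ⟨(b : ℕ) / 3, h2⟩)), (a : ℕ) / 3 % 3) := by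
  unfold key okey
  rw [dif_neg (by omega), dif_neg (by omega), dif_pos ⟨ha, hb, h1, h2⟩]

theorem key_unused (a b : Fin n)
    (h : (¬ ((a : ℕ) % 3 = 2) ∧ ¬ (a : ℕ) / 3 < m) ∨ ((a : ℕ) % 3 = 2 ∧ ¬ (a : ℕ) / 9 < m)) :
    key m a b = none := by
  unfold key okey
  rw [dif_neg (by omega), dif_neg (by omega), dif_neg (by omega),
    dif_neg (by omega), dif_neg (by omega), dif_neg (by omega)]

theorem cpy_of (u v : Fin n) {e : Key m} {c : ℕ} (h : key m u v = some (e, c)) :
    cpy m q u v = if e.1 = 2 then (c : ℤ) * q else 0 := by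
  have hcp : cpy m q u v = match key m u v with
    | none => 0
    | some ((2, _), c) => (c : ℤ) * q
    | some (_, _) => 0 := rfl
  rw [h] at hcp
  obtain ⟨k, p⟩ := e
  fin_cases k
  · simpa using hcp
  · simpa using hcp
  · simpa using hcp

theorem cpy_bounds (u v : Fin n) {e : Key m} {c : ℕ} (h : key m u v = some (e, c)) :
    0 ≤ cpy m q u v ∧ cpy m q u v ≤ 2 * q := by
  rw [cpy_of u v h]
  have hc := key_copy h
  split_ifs
  · refine ⟨by positivity, ?_⟩
    have : (c : ℤ) ≤ 2 := by exact_mod_cast hc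
    have hq : (0 : ℤ) ≤ q := by positivity
    nlinarith
  · refine ⟨le_rfl, by positivity⟩

theorem mac_nonneg (μ : Key m → Fin (10 * P)) (e : Key m) : 0 ≤ mac q P μ e := by
  unfold mac
  split_ifs
  · positivity
  · exact le_rfl

theorem mac_le (μ : Key m → Fin (10 * P)) (e : Key m) : mac q P μ e ≤ 10 * q + P := by
  unfold mac
  split_ifs with h
  · have : ((μ e : ℕ) : ℤ) ≤ P := by exact_mod_cast h.le
    linarith
  · positivity

theorem WM_comm (μ : Key m → Fin (10 * P)) (X Y Z : Cfg m q) (u v : Fin n) :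
    WM n P μ X Y Z u v = WM n P μ X Y Z v u := by
  rcases h : key m u v with _ | ⟨e, c⟩
  · rw [WM_none μ X Y Z u v h, WM_none μ X Y Z v u (by rw [key_comm]; exact h)]
  · have h' : key m v u = some (e, c) := by rw [key_comm]; exact h
    rw [WM_some μ X Y Z u v e c h, WM_some μ X Y Z v u e c h', cpy_of u v h, cpy_of v u h']

variable [NeZero q]

theorem WM_bounds (μ : Key m → Fin (10 * P)) (X Y Z : Cfg m q) (u v : Fin n) :
    -(2 * q : ℤ) ≤ WM n P μ X Y Z u v ∧ WM n P μ X Y Z u v ≤ 11 * q + P := by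
  have hq0 : (0 : ℤ) ≤ q := by positivity
  have hP0 : (0 : ℤ) ≤ P := by positivity
  rcases h : key m u v with _ | ⟨e, c⟩
  · rw [WM_none μ X Y Z u v h]
    constructor <;> linarith
  · rw [WM_some μ X Y Z u v e c h]
    have h1 := cpy_bounds (q := q) u v h
    have h2 := mac_nonneg (q := q) μ e
    have h3 := mac_le (q := q) μ e
    have h4 : ((val3 X Y Z e).val : ℤ) < q := by exact_mod_cast ZMod.val_lt (val3 X Y Z e)
    have h5 : (0 : ℤ) ≤ ((val3 X Y Z e).val : ℤ) := by positivity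
    constructor <;> linarith [h1.1, h1.2]

theorem mkM_valid (hn : 20 * q + P ≤ n ^ 300) (μ : Key m → Fin (10 * P)) (X Y Z : Cfg m q) :
    (mkM n P μ X Y Z).Valid := by
  have hn' : (20 * q + P : ℤ) ≤ (n : ℤ) ^ 300 := by exact_mod_cast hn
  have hq0 : (0 : ℤ) ≤ q := by positivity
  have hP0 : (0 : ℤ) ≤ P := by positivity
  refine ⟨?_, ?_, fun u v => WM_comm μ X Y Z u v, fun u v => ?_⟩
  · intro u v
    simp only [mkM, mkH, fl, ne_eq, eq_comm]
  · intro u
    simp [mkM, mkH, fl]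
  · rw [mkM_wt, abs_le]
    have h := WM_bounds μ X Y Z u v
    constructor <;> linarith [h.1, h.2]

theorem mac_of_small (μ : Key m → Fin (10 * P)) (e : Key m) (h : P ≤ (μ e : ℕ)) :
    mac q P μ e = 0 := by
  unfold mac
  rw [if_neg (by omega)]

theorem mac_of_pos (μ : Key m → Fin (10 * P)) (e : Key m) (h : mac q P μ e ≠ 0) :
    10 * (q : ℤ) ≤ mac q P μ e := by
  unfold mac at h ⊢
  split_ifs at h ⊢ with h1
  · have : (0 : ℤ) ≤ (μ e : ℕ) := by positivity
    linarith
  · exact absurd rfl h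

theorem zero_sortedM (μ : Key m → Fin (10 * P)) (X Y Z : Cfg m q) (a b c : Fin n)
    (ha : (a : ℕ) % 3 = 0) (hb : (b : ℕ) % 3 = 1) (hc : (c : ℕ) % 3 = 2)
    (hs : WM n P μ X Y Z a b + WM n P μ X Y Z b c + WM n P μ X Y Z c a = 0) : Zero X Y Z := by
  have hq : (0 : ℤ) < q := by exact_mod_cast NeZero.pos q
  have b1 := (WM_bounds μ X Y Z a b).1
  have b2 := (WM_bounds μ X Y Z b c).1
  have b3 := (WM_bounds μ X Y Z c a).1
  by_cases h1 : (a : ℕ) / 3 < m
  · by_cases h2 : (b : ℕ) / 3 < m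
    · by_cases h3 : (c : ℕ) / 9 < m
      · have k1 := key01 (m := m) a b ha hb h1 h2
        have k2 := key12 (m := m) b c hb hc h2 h3
        have k3 := key20 (m := m) c a hc ha h3 h1
        have w1 := WM_some μ X Y Z a b _ _ k1
        have w2 := WM_some μ X Y Z b c _ _ k2
        have w3 := WM_some μ X Y Z c a _ _ k3
        have c1 := cpy_of (q := q) a b k1
        have c2 := cpy_of (q := q) b c k2
        have c3 := cpy_of (q := q) c a k3
        simp only [show ((0 : Fin 3) = 2) = False by decide, show ((1 : Fin 3) = 2) = False by decide,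
          if_false, if_true] at c1 c2 c3
        set e1 : Key m := (0, (⟨(a : ℕ) / 3, h1⟩, ⟨(b : ℕ) / 3, h2⟩)) with he1
        set e2 : Key m := (1, (⟨(b : ℕ) / 3, h2⟩, ⟨(c : ℕ) / 9, h3⟩)) with he2
        set e3 : Key m := (2, (⟨(c : ℕ) / 9, h3⟩, ⟨(a : ℕ) / 3, h1⟩)) with he3
        have v1 : (0 : ℤ) ≤ ((val3 X Y Z e1).val : ℤ) := by positivity
        have v2 : (0 : ℤ) ≤ ((val3 X Y Z e2).val : ℤ) := by positivity
        have v3 : (0 : ℤ) ≤ ((val3 X Y Z e3).val : ℤ) := by positivity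
        have n1 := mac_nonneg (q := q) μ e1
        have n2 := mac_nonneg (q := q) μ e2
        have n3 := mac_nonneg (q := q) μ e3
        have cb := (cpy_bounds (q := q) c a k3).2
        have m1 : mac q P μ e1 = 0 := by
          by_contra h
          have := mac_of_pos μ e1 h
          rw [w1, w2, w3, c1, c2] at hs
          linarith
        have m2 : mac q P μ e2 = 0 := by
          by_contra h
          have := mac_of_pos μ e2 h
          rw [w1, w2, w3, c1, c2] at hs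
          linarith
        have m3 : mac q P μ e3 = 0 := by
          by_contra h
          have := mac_of_pos μ e3 h
          rw [w1, w2, w3, c1, c2] at hs
          linarith
        rw [w1, w2, w3, c1, c2, c3, m1, m2, m3] at hs
        refine ⟨⟨(a : ℕ) / 3, h1⟩, ⟨(b : ℕ) / 3, h2⟩, ⟨(c : ℕ) / 9, h3⟩, ?_⟩
        have h4 := congrArg (fun z : ℤ => (z : ZMod q)) hs
        push_cast at h4
        rw [ZMod.natCast_zmod_val, ZMod.natCast_zmod_val, ZMod.natCast_zmod_val,
          ZMod.natCast_self] at h4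
        have d1 : val3 X Y Z e1 = X (⟨(a : ℕ) / 3, h1⟩, ⟨(b : ℕ) / 3, h2⟩) := rfl
        have d2 : val3 X Y Z e2 = Y (⟨(b : ℕ) / 3, h2⟩, ⟨(c : ℕ) / 9, h3⟩) := rfl
        have d3 : val3 X Y Z e3 = Z (⟨(c : ℕ) / 9, h3⟩, ⟨(a : ℕ) / 3, h1⟩) := rfl
        rw [d1, d2, d3] at h4
        linear_combination h4
      · exfalso
        have e1 := WM_none μ X Y Z c a (key_unused (m := m) c a (Or.inr ⟨hc, h3⟩))
        linarith
    · exfalso
      have e1 := WM_none μ X Y Z b c (key_unused (m := m) b c (Or.inl ⟨by omega, h2⟩))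
      linarith
  · exfalso
    have e1 := WM_none μ X Y Z a b (key_unused (m := m) a b (Or.inl ⟨by omega, h1⟩))
    linarith

theorem zero_of_yesM (μ : Key m → Fin (10 * P)) (X Y Z : Cfg m q)
    (hy : (mkM n P μ X Y Z).Yes) : Zero X Y Z := by
  obtain ⟨u, v, w, _, _, _, huv, hvw, huw, hs⟩ := hy
  have huv' : (u : ℕ) % 3 ≠ (v : ℕ) % 3 := by simpa [mkM, mkH, fl] using huv
  have hvw' : (v : ℕ) % 3 ≠ (w : ℕ) % 3 := by simpa [mkM, mkH, fl] using hvw
  have huw' : (u : ℕ) % 3 ≠ (w : ℕ) % 3 := by simpa [mkM, mkH, fl] using huw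
  rw [mkM_wt] at hs
  have c1 := WM_comm μ X Y Z u v
  have c2 := WM_comm μ X Y Z v w
  have c3 := WM_comm μ X Y Z u w
  have tri : ∀ x : ℕ, x % 3 = 0 ∨ x % 3 = 1 ∨ x % 3 = 2 := fun x => by omega
  rcases tri u with hu | hu | hu <;> rcases tri v with hv | hv | hv <;>
    rcases tri w with hw | hw | hw <;> try (first | (exfalso; omega))
  · exact zero_sortedM μ X Y Z u v w hu hv hw (by linarith)
  · exact zero_sortedM μ X Y Z u w v hu hw hv (by linarith)
  · exact zero_sortedM μ X Y Z v u w hv hu hw (by linarith)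
  · exact zero_sortedM μ X Y Z w u v hw hu hv (by linarith)
  · exact zero_sortedM μ X Y Z v w u hv hw hu (by linarith)
  · exact zero_sortedM μ X Y Z w v u hw hv hu (by linarith)

theorem yesM (h9 : 9 * m ≤ n) (μ : Key m → Fin (10 * P)) (X Y Z : Cfg m q) (i j k : Fin m)
    (g0 : P ≤ (μ (0, (i, j)) : ℕ)) (g1 : P ≤ (μ (1, (j, k)) : ℕ))
    (g2 : P ≤ (μ (2, (k, i)) : ℕ)) (hz : X (i, j) + Y (j, k) + Z (k, i) = 0) :
    (mkM n P μ X Y Z).Yes := by
  have hi := i.2
  have hj := j.2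
  have hk := k.2
  set s := (X (i, j)).val + (Y (j, k)).val + (Z (k, i)).val with hs
  have h1 := ZMod.val_lt (X (i, j))
  have h2 := ZMod.val_lt (Y (j, k))
  have h3 := ZMod.val_lt (Z (k, i))
  have hdvd : q ∣ s := by
    rw [← ZMod.natCast_eq_zero_iff, hs]
    push_cast
    rw [ZMod.natCast_zmod_val, ZMod.natCast_zmod_val, ZMod.natCast_zmod_val]
    exact hz
  obtain ⟨c, hc⟩ := hdvd
  have hc3 : c < 3 := by
    by_contra hcon
    push Not at hcon
    have : q * 3 ≤ q * c := Nat.mul_le_mul_left q hcon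
    omega
  set va : Fin n := ⟨3 * i, by omega⟩ with hva
  set vb : Fin n := ⟨3 * j + 1, by omega⟩ with hvb
  set vc : Fin n := ⟨9 * k + 3 * c + 2, by omega⟩ with hvc
  have ea : (va : ℕ) = 3 * i := rfl
  have eb : (vb : ℕ) = 3 * j + 1 := rfl
  have ec : (vc : ℕ) = 9 * k + 3 * c + 2 := rfl
  have k1 := key01 (m := m) va vb (by omega) (by omega) (by omega) (by omega)
  have k2 := key12 (m := m) vb vc (by omega) (by omega) (by omega) (by omega)
  have k3 := key20 (m := m) vc va (by omega) (by omega) (by omega) (by omega)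
  have f1 : (⟨(va : ℕ) / 3, by omega⟩ : Fin m) = i := Fin.ext (by simp only; omega)
  have f2 : (⟨(vb : ℕ) / 3, by omega⟩ : Fin m) = j := Fin.ext (by simp only; omega)
  have f3 : (⟨(vc : ℕ) / 9, by omega⟩ : Fin m) = k := Fin.ext (by simp only; omega)
  have f4 : (vc : ℕ) / 3 % 3 = c := by omega
  rw [f1, f2] at k1
  rw [f2, f3] at k2
  rw [f3, f1, f4] at k3
  have w1 := WM_some μ X Y Z va vb _ _ k1
  have w2 := WM_some μ X Y Z vb vc _ _ k2
  have w3 := WM_some μ X Y Z vc va _ _ k3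
  rw [cpy_of va vb k1, mac_of_small μ _ g0] at w1
  rw [cpy_of vb vc k2, mac_of_small μ _ g1] at w2
  rw [cpy_of vc va k3, mac_of_small μ _ g2] at w3
  refine ⟨va, vb, vc, ?_, ?_, ?_, ?_, ?_, ?_, ?_⟩
  · intro h; have := congrArg Fin.val h; omega
  · intro h; have := congrArg Fin.val h; omega
  · intro h; have := congrArg Fin.val h; omega
  · simp only [mkM, mkH, fl, decide_eq_true_eq]; omega
  · simp only [mkM, mkH, fl, decide_eq_true_eq]; omega
  · simp only [mkM, mkH, fl, decide_eq_true_eq]; omega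
  · rw [mkM_wt, w1, w2, WM_comm μ X Y Z va vc, w3]
    simp only [show ((0 : Fin 3) = 2) = False by decide, show ((1 : Fin 3) = 2) = False by decide,
      if_false, if_true]
    have d1 : val3 X Y Z (0, (i, j)) = X (i, j) := rfl
    have d2 : val3 X Y Z (1, (j, k)) = Y (j, k) := rfl
    have d3 : val3 X Y Z (2, (k, i)) = Z (k, i) := rfl
    rw [d1, d2, d3]
    have : ((X (i, j)).val : ℤ) + (Y (j, k)).val + (Z (k, i)).val = q * c := by
      exact_mod_cast hc
    linarith

end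

end Pool.Agent.Helper21.UV
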