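import Pool.Agent.Helper21.UV.Ideal2
import Pool.Agent.Helper21.UV.CapM

/-!
# The capacity of readers with sign queries
-/

set_option autoImplicit false
set_option linter.unusedSectionVars false

open Finset
open scoped BigOperators

namespace Pool.Agent.Helper21.UV

open Pool.Agent.Helper22.ETModel Pool.Agent.Helper8.VT Pool.Agent.Helper8.UV
open Pool.Agent.Helper8.VS (ind ind_nonneg ind_le_one ind_true ind_false)

theorem sqrt_cube_le (x : ℝ) (hx : 0 ≤ x) : √((1 + x) ^ 3) ≤ 80 * (20 / 19 : ℝ) ^ x := by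
  have h1 : (1 / 20 : ℝ) ≤ Real.log (20 / 19) := by
    have h := Real.one_sub_inv_le_log_of_pos (x := (20 / 19 : ℝ)) (by norm_num)
    refine le_trans (le_of_eq ?_) h
    norm_num
  have h2 : Real.exp (x / 20) ≤ (20 / 19 : ℝ) ^ x := by
    rw [Real.rpow_def_of_pos (by norm_num)]
    apply Real.exp_le_exp.2
    nlinarith
  have h3 : 1 + x / 20 + (x / 20) ^ 2 / 2 ≤ Real.exp (x / 20) :=
    Real.quadratic_le_exp_of_nonneg (by positivity)
  have h4 : √((1 + x) ^ 3) ≤ (1 + x) ^ 2 / 10 + 5 * (1 + x) / 2 := by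
    apply Real.sqrt_le_iff.2
    refine ⟨by positivity, ?_⟩
    nlinarith [sq_nonneg ((1 + x) ^ 2 / 10 - 5 * (1 + x) / 2)]
  nlinarith

theorem inner_pow_le {M : Type} [Fintype M] [Nonempty M] {N0 : ℕ} (z : M → ℝ)
    (hz0 : ∀ μ, 0 ≤ z μ) :
    (∑ μ, (Fintype.card M : ℝ)⁻¹ * z μ) ^ N0 ≤ ∑ μ, (Fintype.card M : ℝ)⁻¹ * z μ ^ N0 := by
  have hM : (0 : ℝ) < Fintype.card M := by exact_mod_cast Fintype.card_pos
  refine Real.pow_arith_mean_le_arith_mean_pow univ (fun _ => (Fintype.card M : ℝ)⁻¹) z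
    (fun _ _ => (inv_pos.2 hM).le) ?_ (fun μ _ => hz0 μ) N0
  rw [Finset.sum_const, Finset.card_univ, nsmul_eq_mul, mul_inv_cancel₀ hM.ne']

/-- From the exponential moment to the moment of order `3/2`. -/
theorem moment_bound {M : Type} [Fintype M] [Nonempty M] (N0 B : ℕ) (hN : 1 ≤ N0) (hB : B ≤ N0)
    (L S : M → ℕ) (hL : ∀ μ, L μ ≤ B + S μ) (mom : M → ℝ)
    (hS : ∀ μ, (20 / 19 : ℝ) ^ (S μ) ≤ mom μ) (hm : ∑ μ, mom μ ≤ 4 ^ N0 * Fintype.card M) :
    ∑ μ, √((L μ : ℝ) ^ 3) ≤ 320 * √((N0 : ℝ) ^ 3) * Fintype.card M := by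
  have hN0 : (0 : ℝ) < N0 := by exact_mod_cast hN
  have hM : (0 : ℝ) < Fintype.card M := by exact_mod_cast Fintype.card_pos
  set z : M → ℝ := fun μ => (20 / 19 : ℝ) ^ ((S μ : ℝ) / N0) with hz
  have hz0 : ∀ μ, 0 ≤ z μ := fun μ => Real.rpow_nonneg (by norm_num) _
  have hzN : ∀ μ, z μ ^ N0 = (20 / 19 : ℝ) ^ (S μ) := by
    intro μ
    rw [hz]
    simp only
    rw [← Real.rpow_natCast, ← Real.rpow_mul (by norm_num), div_mul_cancel₀ _ hN0.ne',
      Real.rpow_natCast]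
  have h1 : ∑ μ, z μ ≤ 4 * Fintype.card M := by
    have h := inner_pow_le (N0 := N0) z hz0
    have h2 : ∑ μ, z μ ^ N0 ≤ 4 ^ N0 * Fintype.card M := by
      refine le_trans (Finset.sum_le_sum fun μ _ => ?_) hm
      rw [hzN]
      exact hS μ
    have h3 : (∑ μ, (Fintype.card M : ℝ)⁻¹ * z μ) ^ N0 ≤ 4 ^ N0 := by
      refine h.trans ?_
      rw [← Finset.mul_sum, inv_mul_le_iff₀ hM]
      linarith
    have h4 := le_of_pow_le_pow_left₀ (by omega) (by norm_num) h3
    rw [← Finset.mul_sum, inv_mul_le_iff₀ hM] at h4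
    linarith
  have h2 : ∀ μ, √((L μ : ℝ) ^ 3) ≤ √((N0 : ℝ) ^ 3) * (80 * z μ) := by
    intro μ
    have h3 : (L μ : ℝ) ≤ N0 * (1 + (S μ : ℝ) / N0) := by
      rw [mul_add, mul_one, mul_div_cancel₀ _ hN0.ne']
      have : L μ ≤ N0 + S μ := (hL μ).trans (by omega)
      exact_mod_cast this
    have h4 : √((L μ : ℝ) ^ 3) ≤ √((N0 : ℝ) ^ 3) * √((1 + (S μ : ℝ) / N0) ^ 3) := by
      rw [← Real.sqrt_mul (by positivity), ← mul_pow]
      exact Real.sqrt_le_sqrt (pow_le_pow_left₀ (Nat.cast_nonneg _) h3 3)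
    refine h4.trans (mul_le_mul_of_nonneg_left ?_ (Real.sqrt_nonneg _))
    exact sqrt_cube_le _ (by positivity)
  refine (Finset.sum_le_sum fun μ _ => h2 μ).trans ?_
  have h5 : ∑ μ, √((N0 : ℝ) ^ 3) * (80 * z μ) = √((N0 : ℝ) ^ 3) * 80 * ∑ μ, z μ := by
    rw [Finset.mul_sum]
    refine Finset.sum_congr rfl fun μ _ => ?_
    ring
  rw [h5]
  have h6 : 0 ≤ √((N0 : ℝ) ^ 3) * 80 := by positivity
  nlinarith

section
variable {n m q P : ℕ} [NeZero q]

theorem bas_fsum {M : Type} [Fintype M] (G : M → Cfg m q → Cfg m q → Cfg m q → ℝ) :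
    ∑ μ, bas (G μ) = bas (fun X Y Z => ∑ μ, G μ X Y Z) := by
  rw [bas_sum]

/-- The capacity of a reader. -/
theorem reader_capL (h9 : 9 * m ≤ n) (hP : 0 < P)
    (hval : ∀ (μ : Key m → Fin (10 * P)) (X Y Z : Cfg m q), (mkM n P μ X Y Z).Valid)
    (H : Inst n → ℝ) (B D c1 : ℕ) (hN : 1 ≤ B + D) (hR : IsReader B D H) :
    ∑ μ : Key m → Fin (10 * P), cap (GM (mkM (m := m) (q := q) n P μ) H) ≤
      Fintype.card (Key m → Fin (10 * P)) * (192 * m * (320 * √(((B + D : ℕ) : ℝ) ^ 3)) +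
        32 * (m : ℝ) ^ 4 * ((2 ^ D - 1) * ((9 / 10) ^ c1 +
          (2 * Fintype.card (Key m) * q + 1) / P))) := by
  classical
  have hP' : (0 : ℝ) < P := by exact_mod_cast hP
  obtain ⟨tr, htr⟩ := hR
  set t : LTree n B D := tr (fl n) with ht
  choose T hT using fun μ : Key m → Fin (10 * P) => idealL (q := q) h9 c1 μ t
  have hne : Nonempty (Key m → Fin (10 * P)) := ⟨fun _ => ⟨0, by omega⟩⟩
  set ε : ℝ := (2 ^ D - 1) * ((9 / 10) ^ c1 + (2 * Fintype.card (Key m) * q + 1) / P) with hε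
  have hε0 : 0 ≤ ε := by
    have : (1 : ℝ) ≤ 2 ^ D := one_le_pow₀ (by norm_num)
    exact mul_nonneg (by linarith) (by positivity)
  have h1 := approx_cap (M := Key m → Fin (10 * P)) (fun μ => GM (mkM (m := m) (q := q) n P μ) H)
    (fun μ X Y Z => (T μ).eval (WM n P μ X Y Z))
    (fun μ X Y Z => t.exc c1 q P μ (WM n P μ X Y Z) ∅)
    (by
      intro μ X Y Z h
      rw [(hT μ X Y Z).1 h]
      unfold GM
      rw [htr _ (hval μ X Y Z)]
      rfl) ε hε0
    (by
      intro X Y Z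
      have h := excN_card hP c1 t X Y Z
      have h2 : (∑ μ : Key m → Fin (10 * P), ind (t.exc c1 q P μ (WM n P μ X Y Z) ∅)) ≤
          ((univ.filter fun μ : Key m → Fin (10 * P) =>
            t.excN c1 q P μ (WM n P μ X Y Z) ∅).card : ℝ) := by
        rw [Finset.card_filter]
        push_cast
        refine Finset.sum_le_sum fun μ _ => ?_
        by_cases hex : t.exc c1 q P μ (WM n P μ X Y Z) ∅
        · rw [ind_true hex, if_pos (t.excN_of_exc ∅ hex)]
        · rw [ind_false hex]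
          split_ifs
          · exact zero_le_one
          · exact le_rfl
      refine h2.trans (h.trans (le_of_eq ?_))
      rw [hε]
      congr 1
      rw [Fintype.card_fun, Fintype.card_fin]
      push_cast
      ring)
  have h2 : ∑ μ : Key m → Fin (10 * P),
      cap (fun X Y Z : Cfg m q => (T μ).eval (WM n P μ X Y Z)) ≤
      192 * m * (320 * √(((B + D : ℕ) : ℝ) ^ 3)) * Fintype.card (Key m → Fin (10 * P)) := by
    have h3 : ∀ μ : Key m → Fin (10 * P),
        cap (fun X Y Z : Cfg m q => (T μ).eval (WM n P μ X Y Z)) ≤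
        192 * m * bas (fun X Y Z : Cfg m q => √((tlen (T μ) (WM n P μ X Y Z) : ℝ) ^ 3)) := fun μ =>
      tree_cap_len (placeH (fun _ _ => 10 * q) (hM P μ)) (T μ)
    refine (Finset.sum_le_sum fun μ _ => h3 μ).trans ?_
    rw [← Finset.mul_sum, bas_fsum]
    have h4 : bas (fun X Y Z : Cfg m q => ∑ μ : Key m → Fin (10 * P),
        √((tlen (T μ) (WM n P μ X Y Z) : ℝ) ^ 3)) ≤
        320 * √(((B + D : ℕ) : ℝ) ^ 3) * Fintype.card (Key m → Fin (10 * P)) := by
      refine (bas_mono _ (fun _ _ _ => 320 * √(((B + D : ℕ) : ℝ) ^ 3) *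
        Fintype.card (Key m → Fin (10 * P))) fun X Y Z => ?_).trans
        (le_of_eq (bas_const _))
      choose S hS1 hS2 using fun μ : Key m → Fin (10 * P) => (hT μ X Y Z).2
      refine moment_bound (B + D) B hN (by omega) _ S hS1
        (fun μ => t.mom c1 P μ (WM n P μ X Y Z) ∅) hS2 ?_
      refine (mom_avg hP c1 X Y Z t).trans ?_
      refine mul_le_mul_of_nonneg_right ?_ (Nat.cast_nonneg _)
      exact pow_le_pow_right₀ (by norm_num) (by omega)
    calc 192 * (m : ℝ) * bas (fun X Y Z : Cfg m q => ∑ μ : Key m → Fin (10 * P),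
        √((tlen (T μ) (WM n P μ X Y Z) : ℝ) ^ 3))
        ≤ 192 * m * (320 * √(((B + D : ℕ) : ℝ) ^ 3) * Fintype.card (Key m → Fin (10 * P))) :=
          mul_le_mul_of_nonneg_left h4 (by positivity)
      _ = _ := by ring
  refine h1.trans ?_
  linarith

end

end Pool.Agent.Helper21.UV
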