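import Pool.Agent.Helper21.UV.Model
import Pool.Agent.Helper21.UV.ReaderCap
import Pool.Agent.Helper21.UV.Macro
import Pool.Agent.Helper8.UV.Main

/-!
# Threshold circuits with unbounded weights and unbounded fan-in: the lower bound
-/

set_option autoImplicit false
set_option linter.unusedSectionVars false

open Finset
open scoped BigOperators

namespace Pool.Agent.Helper21.UV

open Pool.Agent.Helper22.ETModel Pool.Agent.Helper8.VT Pool.Agent.Helper8.UV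
open Pool.Agent.Helper8.VS (ind ind_nonneg ind_le_one ind_true ind_false)

theorem price2_nonneg {n : ℕ} (H : Inst n → ℝ) (κ : ℝ) (h : Price2 H κ) : 0 ≤ κ := by
  rcases h with ⟨rfl, _⟩ | ⟨B, D, _, _, _, rfl⟩ | ⟨d, W, _, _, _, rfl⟩
  · exact le_refl 0
  · positivity
  · positivity

theorem one_le_price2 {n : ℕ} (H : Inst n → ℝ) (κ : ℝ) (h : Price2 H κ) (I J : Inst n)
    (hI : I.Valid) (hJ : J.Valid) (hf : I.flag = J.flag) (hne : H I ≠ H J) : 1 ≤ κ := by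
  rcases h with ⟨rfl, F, hF⟩ | ⟨B, D, hB, _, _, rfl⟩ | ⟨d, W, hd, hW, _, rfl⟩
  · exact absurd (by rw [hF I hI, hF J hJ, hf]) hne
  · exact Real.one_le_rpow (by exact_mod_cast hB) (by norm_num)
  · have h1 : (1 : ℝ) ≤ Real.sqrt d := by
      rw [Real.one_le_sqrt]
      exact_mod_cast hd
    have h2 : (1 : ℝ) ≤ W := by exact_mod_cast hW
    nlinarith

theorem sqrt_cube (x : ℝ) (hx : 0 ≤ x) : √(x ^ 3) = x ^ (3 / 2 : ℝ) := by
  rw [show (3 / 2 : ℝ) = 3 * (1 / 2) by norm_num, Real.rpow_mul hx, ← Real.sqrt_eq_rpow]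
  norm_num

/-- The exceptional part is small. -/
theorem small_exc (n D : ℕ) (hn : 18 ≤ n) (hD : D ≤ 200 * (Nat.log 2 n + 1)) :
    32 * ((n / 9 : ℕ) : ℝ) ^ 3 * ((2 ^ D - 1) * ((9 / 10) ^ (1820 * (Nat.log 2 n + 1)) +
      (2 * Fintype.card (Key (n / 9)) * ((n ^ 3 : ℕ) : ℝ) + 1) / ((n ^ 299 : ℕ) : ℝ))) ≤ 1 := by
  set L := Nat.log 2 n + 1 with hL
  have hn1 : (18 : ℝ) ≤ n := by exact_mod_cast hn
  have hn0 : (0 : ℝ) < n := by linarith
  have hn1' : (1 : ℝ) ≤ n := by linarith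
  -- powers of two
  have hlow : (2 : ℝ) ^ (L - 1) ≤ n := by
    have := Nat.pow_log_le_self 2 (show n ≠ 0 by omega)
    rw [hL, Nat.add_sub_cancel]
    exact_mod_cast this
  have hup : (n : ℝ) ≤ 2 ^ L := by
    have := Nat.lt_pow_succ_log_self (show 1 < 2 by norm_num) n
    have h2 : n ≤ 2 ^ L := by
      rw [hL]
      exact this.le
    exact_mod_cast h2
  have h16 : (2 : ℝ) ^ 4 ≤ n := by linarith
  have hL1 : (2 : ℝ) ^ L = 2 * 2 ^ (L - 1) := by
    rw [← pow_succ']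
    congr 1
  have h2D : (2 : ℝ) ^ D ≤ (n : ℝ) ^ 250 := by
    have e0 : (2 : ℝ) ^ (200 * L) = (2 ^ L) ^ 200 := by
      rw [Nat.mul_comm]
      exact pow_mul _ _ _
    have e1 : ((2 : ℝ) * 2 ^ (L - 1)) ^ 200 = ((2 : ℝ) ^ 4) ^ 50 * (2 ^ (L - 1)) ^ 200 := by
      have e2 : (2 : ℝ) ^ 200 = ((2 : ℝ) ^ 4) ^ 50 := by
        rw [← pow_mul]
      rw [mul_pow, e2]
    calc (2 : ℝ) ^ D ≤ 2 ^ (200 * L) := pow_le_pow_right₀ (by norm_num) hD
      _ = (2 ^ L) ^ 200 := e0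
      _ = (2 * 2 ^ (L - 1)) ^ 200 := by rw [hL1]
      _ = ((2 : ℝ) ^ 4) ^ 50 * (2 ^ (L - 1)) ^ 200 := e1
      _ ≤ (n : ℝ) ^ 50 * (n : ℝ) ^ 200 := by
          refine mul_le_mul (pow_le_pow_left₀ (by positivity) h16 50)
            (pow_le_pow_left₀ (by positivity) hlow 200) (by positivity) (by positivity)
      _ = (n : ℝ) ^ 250 := by rw [← pow_add]
  have h9 : ((9 : ℝ) / 10) ^ (1820 * L) ≤ 1 / (n : ℝ) ^ 260 := by
    have e1 : ((9 : ℝ) / 10) ^ (1820 * L) = ((((9 : ℝ) / 10) ^ 7) ^ L) ^ 260 := by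
      rw [← pow_mul, ← pow_mul]
      congr 1
      ring
    have e2 : (((9 : ℝ) / 10) ^ 7) ^ L ≤ 1 / n := by
      calc (((9 : ℝ) / 10) ^ 7) ^ L ≤ (1 / 2) ^ L :=
            pow_le_pow_left₀ (by positivity) (by norm_num) L
        _ = 1 / 2 ^ L := by rw [one_div_pow]
        _ ≤ 1 / n := one_div_le_one_div_of_le hn0 hup
    rw [e1, ← one_div_pow]
    exact pow_le_pow_left₀ (by positivity) e2 260
  have hcard : (Fintype.card (Key (n / 9)) : ℝ) ≤ (n : ℝ) ^ 2 := by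
    have : Fintype.card (Key (n / 9)) = 3 * ((n / 9) * (n / 9)) := by
      simp [Key]
    rw [this]
    have h3 : 9 * (n / 9) ≤ n := Nat.mul_div_le n 9
    have h4 : 3 * ((n / 9) * (n / 9)) ≤ n ^ 2 := by
      have h5 := Nat.mul_le_mul h3 h3
      have h6 : 9 * (n / 9) * (9 * (n / 9)) = 81 * ((n / 9) * (n / 9)) := by ring
      rw [h6] at h5
      rw [pow_two]
      omega
    exact_mod_cast h4
  have hcp : (2 * Fintype.card (Key (n / 9)) * ((n ^ 3 : ℕ) : ℝ) + 1) / ((n ^ 299 : ℕ) : ℝ) ≤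
      3 / (n : ℝ) ^ 260 := by
    push_cast
    have e1 : (2 * Fintype.card (Key (n / 9)) * (n : ℝ) ^ 3 + 1) ≤ 3 * (n : ℝ) ^ 5 := by
      have : (Fintype.card (Key (n / 9)) : ℝ) * (n : ℝ) ^ 3 ≤ (n : ℝ) ^ 2 * (n : ℝ) ^ 3 :=
        mul_le_mul_of_nonneg_right hcard (by positivity)
      have h5 : (n : ℝ) ^ 2 * (n : ℝ) ^ 3 = (n : ℝ) ^ 5 := by rw [← pow_add]
      have h6 : (1 : ℝ) ≤ (n : ℝ) ^ 5 := one_le_pow₀ hn1'
      linarith
    have e2 : (n : ℝ) ^ 299 = (n : ℝ) ^ 39 * (n : ℝ) ^ 260 := by rw [← pow_add]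
    rw [div_le_div_iff₀ (by positivity) (by positivity), e2]
    have e3 : (n : ℝ) ^ 5 ≤ (n : ℝ) ^ 39 := pow_le_pow_right₀ hn1' (by norm_num)
    have e4 : (0 : ℝ) ≤ (n : ℝ) ^ 260 := by positivity
    calc (2 * Fintype.card (Key (n / 9)) * (n : ℝ) ^ 3 + 1) * (n : ℝ) ^ 260
        ≤ 3 * (n : ℝ) ^ 5 * (n : ℝ) ^ 260 := mul_le_mul_of_nonneg_right e1 e4
      _ ≤ 3 * (n : ℝ) ^ 39 * (n : ℝ) ^ 260 :=
          mul_le_mul_of_nonneg_right (by linarith) e4
      _ = 3 * ((n : ℝ) ^ 39 * (n : ℝ) ^ 260) := by ring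
  have hm : ((n / 9 : ℕ) : ℝ) ^ 3 ≤ (n : ℝ) ^ 3 := by
    refine pow_le_pow_left₀ (Nat.cast_nonneg _) ?_ 3
    exact_mod_cast Nat.div_le_self n 9
  set A : ℝ := (9 / 10) ^ (1820 * L) with hA
  set E : ℝ := (2 * Fintype.card (Key (n / 9)) * ((n ^ 3 : ℕ) : ℝ) + 1) / ((n ^ 299 : ℕ) : ℝ)
    with hE
  have hA0 : 0 ≤ A := by positivity
  have hE0 : 0 ≤ E := by positivity
  have hAE : A + E ≤ 4 / (n : ℝ) ^ 260 := by
    have : (1 : ℝ) / (n : ℝ) ^ 260 + 3 / (n : ℝ) ^ 260 = 4 / (n : ℝ) ^ 260 := by ring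
    linarith
  have h2D1 : (1 : ℝ) ≤ 2 ^ D := one_le_pow₀ (by norm_num)
  have h5 : (2 ^ D - 1) * (A + E) ≤ (n : ℝ) ^ 250 * (4 / (n : ℝ) ^ 260) :=
    mul_le_mul (by linarith) hAE (by positivity) (by positivity)
  have h6 : (n : ℝ) ^ 250 * (4 / (n : ℝ) ^ 260) = 4 / (n : ℝ) ^ 10 := by
    rw [show (n : ℝ) ^ 260 = (n : ℝ) ^ 250 * (n : ℝ) ^ 10 by rw [← pow_add]]
    field_simp
  rw [h6] at h5
  calc 32 * ((n / 9 : ℕ) : ℝ) ^ 3 * ((2 ^ D - 1) * (A + E))
      ≤ 32 * (n : ℝ) ^ 3 * (4 / (n : ℝ) ^ 10) := by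
        refine mul_le_mul (by linarith) h5 ?_ (by positivity)
        exact mul_nonneg (by linarith) (by linarith)
    _ = 128 / (n : ℝ) ^ 7 := by
        rw [show (n : ℝ) ^ 10 = (n : ℝ) ^ 3 * (n : ℝ) ^ 7 by rw [← pow_add]]
        field_simp
        norm_num
    _ ≤ 1 := by
        rw [div_le_one (by positivity)]
        calc (128 : ℝ) ≤ 18 ^ 7 := by norm_num
          _ ≤ (n : ℝ) ^ 7 := pow_le_pow_left₀ (by norm_num) hn1 7

section
variable {n : ℕ}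

/-- The capacity of a voter, averaged over the macroscopic parts. -/
theorem cap_price2 (hn : 18 ≤ n) [NeZero (n ^ 3)] (H : Inst n → ℝ) (κ : ℝ) (hκ : Price2 H κ) :
    ∑ μ : Key (n / 9) → Fin (10 * n ^ 299),
      cap (GM (mkM (m := n / 9) (q := n ^ 3) n (n ^ 299) μ) H) ≤
      (10 * (n ^ 299 : ℕ) : ℝ) ^ Fintype.card (Key (n / 9)) * (2 ^ 16 * (n / 9 : ℕ) * κ) := by
  have hv : 20 * n ^ 3 + n ^ 299 ≤ n ^ 300 := by
    have h1 : n ^ 3 ≤ n ^ 299 := Nat.pow_le_pow_right (by omega) (by norm_num)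
    calc 20 * n ^ 3 + n ^ 299 ≤ n ^ 299 + n ^ 299 := by
          have h2 : 20 * n ^ 3 ≤ n ^ 2 * n ^ 3 := Nat.mul_le_mul_right _ (by nlinarith)
          have h3 : n ^ 2 * n ^ 3 = n ^ 5 := by rw [← pow_add]
          have h4 : n ^ 5 ≤ n ^ 299 := Nat.pow_le_pow_right (by omega) (by norm_num)
          omega
      _ = 2 * n ^ 299 := by ring
      _ ≤ n * n ^ 299 := Nat.mul_le_mul_right _ (by omega)
      _ = n ^ 300 := by rw [← pow_succ']
  have hval : ∀ (μ : Key (n / 9) → Fin (10 * n ^ 299)) (X Y Z : Cfg (n / 9) (n ^ 3)),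
      (mkM n (n ^ 299) μ X Y Z).Valid := fun μ X Y Z => mkM_valid hv μ X Y Z
  have hcard : (Fintype.card (Key (n / 9) → Fin (10 * n ^ 299)) : ℝ) =
      (10 * (n ^ 299 : ℕ) : ℝ) ^ Fintype.card (Key (n / 9)) := by
    rw [Fintype.card_fun, Fintype.card_fin, Nat.cast_pow, Nat.cast_mul]
    norm_num
  have h9 : 9 * (n / 9) ≤ n := Nat.mul_div_le n 9
  have hm0 : (0 : ℝ) ≤ ((n / 9 : ℕ) : ℝ) := Nat.cast_nonneg _
  have hT0 : (0 : ℝ) ≤ (Fintype.card (Key (n / 9) → Fin (10 * n ^ 299)) : ℝ) :=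
    Nat.cast_nonneg _
  rw [← hcard]
  rcases hκ with ⟨rfl, hF⟩ | ⟨B, D, hBD, hD, hR, rfl⟩ | ⟨d, W, hd, hW, hJ, rfl⟩
  · have h1 : ∀ μ : Key (n / 9) → Fin (10 * n ^ 299),
        cap (GM (mkM (m := n / 9) (q := n ^ 3) n (n ^ 299) μ) H) = 0 := fun μ =>
      const_capH _ _ (hval μ) H hF
    simp only [h1, Finset.sum_const_zero, mul_zero, le_refl]
  · have hP : 0 < n ^ 299 := Nat.pow_pos (by omega)
    have h1 := reader_capL (m := n / 9) (q := n ^ 3) h9 hP hval H B D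
      (1820 * (Nat.log 2 n + 1)) hBD hR
    refine h1.trans (mul_le_mul_of_nonneg_left ?_ hT0)
    have h2 := small_exc n D hn hD
    rw [sqrt_cube _ (Nat.cast_nonneg _)]
    have h3 : (1 : ℝ) ≤ ((B + D : ℕ) : ℝ) ^ (3 / 2 : ℝ) :=
      Real.one_le_rpow (by exact_mod_cast hBD) (by norm_num)
    set κ := ((B + D : ℕ) : ℝ) ^ (3 / 2 : ℝ) with hκ
    set ε := ((2 ^ D - 1) * ((9 / 10) ^ (1820 * (Nat.log 2 n + 1)) +
      (2 * Fintype.card (Key (n / 9)) * ((n ^ 3 : ℕ) : ℝ) + 1) / ((n ^ 299 : ℕ) : ℝ)) : ℝ) with hε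
    set m : ℝ := ((n / 9 : ℕ) : ℝ) with hm
    have h4 : 32 * m ^ 4 * ε ≤ m := by
      calc 32 * m ^ 4 * ε = m * (32 * m ^ 3 * ε) := by ring
        _ ≤ m * 1 := mul_le_mul_of_nonneg_left h2 hm0
        _ = m := mul_one m
    nlinarith [mul_le_mul_of_nonneg_left h3 hm0]
  · have h1 : ∀ μ : Key (n / 9) → Fin (10 * n ^ 299),
        cap (GM (mkM (m := n / 9) (q := n ^ 3) n (n ^ 299) μ) H) ≤
          80 * ((n / 9 : ℕ) : ℝ) * (Real.sqrt d * W) := fun μ =>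
      junta_capH _ _ (hval μ) H d W hJ
    refine (Finset.sum_le_sum fun μ _ => h1 μ).trans ?_
    rw [Finset.sum_const, Finset.card_univ, nsmul_eq_mul]
    refine mul_le_mul_of_nonneg_left ?_ hT0
    have h2 : 0 ≤ Real.sqrt d * W := by positivity
    nlinarith [mul_nonneg hm0 h2]

end

/-- The lower bound. -/
theorem lower2 (n : ℕ) (hn : 3 ≤ n) (Ω ι : Type) [Fintype Ω] [Nonempty Ω] [Fintype ι]
    (H : Ω → ι → Inst n → ℝ) (κ : Ω → ι → ℝ) (hκ : ∀ ω s, Price2 (H ω s) (κ ω s))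
    (hdec : ∀ I : Inst n, I.Valid → Tripartite I → Decides H I) :
    (n : ℝ) ^ 3 ≤ 2 ^ 35 * ((∑ ω, ∑ s, κ ω s) / Fintype.card Ω) := by
  classical
  have hΩ : (0 : ℝ) < Fintype.card Ω := by exact_mod_cast Fintype.card_pos
  by_cases hm : n < 18
  · set A := (univ.filter fun ω : Ω => (0 < ∑ s, H ω s (constInst n 0) ↔ (constInst n 0).Yes))
      with hA
    set B := (univ.filter fun ω : Ω => (0 < ∑ s, H ω s (constInst n 1) ↔ (constInst n 1).Yes))
      with hB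
    have h1 : 19 * Fintype.card Ω ≤ 20 * A.card := by
      have := hdec _ (constInst_valid n (by omega) 0 (by simp)) (constInst_tripartite n 0)
      unfold Decides at this
      rw [hA]
      convert this
    have h2 : 19 * Fintype.card Ω ≤ 20 * B.card := by
      have := hdec _ (constInst_valid n (by omega) 1 (by simp)) (constInst_tripartite n 1)
      unfold Decides at this
      rw [hB]
      convert this
    have h3 : (A ∪ B).card + (A ∩ B).card = A.card + B.card := Finset.card_union_add_card_inter A B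
    have h4 : (A ∪ B).card ≤ Fintype.card Ω := Finset.card_le_univ _
    have h5 : 9 * Fintype.card Ω ≤ 10 * (A ∩ B).card := by omega
    have h6 : ((A ∩ B).card : ℝ) ≤ ∑ ω, ∑ s, κ ω s := by
      calc ((A ∩ B).card : ℝ) = ∑ ω ∈ A ∩ B, (1 : ℝ) := by simp
        _ ≤ ∑ ω ∈ A ∩ B, ∑ s, κ ω s := by
            refine Finset.sum_le_sum fun ω hω => ?_
            rw [mem_inter, hA, hB, mem_filter, mem_filter] at hω
            have g1 : 0 < ∑ s, H ω s (constInst n 0) := hω.1.2.2 (constInst_yes n hn)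
            have g2 : ¬ 0 < ∑ s, H ω s (constInst n 1) := fun h => constInst_no n (hω.2.2.1 h)
            have g3 : ∃ s, H ω s (constInst n 0) ≠ H ω s (constInst n 1) := by
              by_contra hcon
              push Not at hcon
              apply g2
              rw [← Finset.sum_congr rfl fun s _ => hcon s]
              exact g1
            obtain ⟨s, hs⟩ := g3
            refine (one_le_price2 (H ω s) (κ ω s) (hκ ω s) _ _ (constInst_valid n (by omega) 0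
              (by simp)) (constInst_valid n (by omega) 1 (by simp)) rfl hs).trans ?_
            exact Finset.single_le_sum (f := fun s => κ ω s)
              (fun s _ => price2_nonneg _ _ (hκ ω s)) (Finset.mem_univ s)
        _ ≤ ∑ ω, ∑ s, κ ω s := Finset.sum_le_sum_of_subset_of_nonneg (Finset.subset_univ _)
            fun ω _ _ => Finset.sum_nonneg fun s _ => price2_nonneg _ _ (hκ ω s)
    have h5' : (9 : ℝ) * Fintype.card Ω ≤ 10 * (A ∩ B).card := by exact_mod_cast h5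
    have h7 : (9 / 10 : ℝ) ≤ (∑ ω, ∑ s, κ ω s) / Fintype.card Ω := by
      rw [le_div_iff₀ hΩ]
      linarith
    have h8 : n ≤ 17 := by omega
    have h9 : (n : ℝ) ≤ 17 := by exact_mod_cast h8
    have h10 : (n : ℝ) ^ 3 ≤ 17 ^ 3 := pow_le_pow_left₀ (Nat.cast_nonneg n) h9 3
    norm_num at h10 ⊢
    linarith
  · push Not at hm
    have hq0 : (n ^ 3 : ℕ) ≠ 0 := pow_ne_zero _ (by omega)
    have : NeZero (n ^ 3) := ⟨hq0⟩
    have h9 : 9 * (n / 9) ≤ n := Nat.mul_div_le n 9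
    have hv : 20 * n ^ 3 + n ^ 299 ≤ n ^ 300 := by
      calc 20 * n ^ 3 + n ^ 299 ≤ n ^ 299 + n ^ 299 := by
            have h2 : 20 * n ^ 3 ≤ n ^ 2 * n ^ 3 := Nat.mul_le_mul_right _ (by nlinarith)
            have h3 : n ^ 2 * n ^ 3 = n ^ 5 := by rw [← pow_add]
            have h4 : n ^ 5 ≤ n ^ 299 := Nat.pow_le_pow_right (by omega) (by norm_num)
            omega
        _ = 2 * n ^ 299 := by ring
        _ ≤ n * n ^ 299 := Nat.mul_le_mul_right _ (by omega)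
        _ = n ^ 300 := by rw [← pow_succ']
    have h := final2 hm (2 ^ 16) (n ^ 3) (n ^ 299) (Nat.pow_pos (by omega))
      (fun μ X Y Z => mkM_valid hv μ X Y Z) (fun μ X Y Z h => zero_of_yesM μ X Y Z h)
      (fun μ X Y Z i j k g0 g1 g2 hz => yesM h9 μ X Y Z i j k g0 g1 g2 hz) le_rfl H κ hdec
      (fun ω σ => cap_price2 hm (H ω σ) (κ ω σ) (hκ ω σ))
    refine h.trans (le_of_eq ?_)
    norm_num

end Pool.Agent.Helper21.UV
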