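import Pool.Agent.Helper5.UV.Upper
import Pool.Agent.Helper21.UV.Model

/-!
# Upper bounds with readers
-/

set_option autoImplicit false

open Finset
open scoped BigOperators

namespace Pool.Agent.Helper21.UV

open Pool.Agent.Helper22.ETModel Pool.Agent.Helper8.VT Pool.Agent.Helper8.UV
open Pool.Agent.Helper5.UV

/-- A probe tree as a reader without sign queries. -/
def ofTree {n : ℕ} : {B : ℕ} → Tree n B → LTree n B 0
  | _, .leaf v => .leaf v
  | _, .node i j next => .probe i j fun z => ofTree (next z)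

theorem ofTree_eval {n : ℕ} {B : ℕ} (t : Tree n B) (w : Wts n) :
    (ofTree t).eval w = t.eval w := by
  induction t with
  | leaf v => rfl
  | node i j next ih => exact ih (w i j)

/-- A probe reader is a reader without sign queries. -/
theorem isReader_of_isProbe {n B : ℕ} {H : Inst n → ℝ} (h : IsProbe B H) : IsReader B 0 H := by
  obtain ⟨t, ht⟩ := h
  exact ⟨fun f => ofTree (t f), fun I hI => by rw [ht I hI, ofTree_eval]⟩

theorem aff_tri {n : ℕ} (i j k : Fin n) (a : ℝ) (w : Wts n) :
    aff a (fun u v => (if (u, v) = (i, j) then 1 else 0) + (if (u, v) = (j, k) then 1 else 0) +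
      (if (u, v) = (i, k) then 1 else 0)) w = a + (w i j + w j k + w i k : ℤ) := by
  have h : ∀ p : Fin n × Fin n, ∑ u : Fin n, ∑ v : Fin n,
      (if (u, v) = p then (1 : ℝ) else 0) * (w u v : ℝ) = w p.1 p.2 := by
    intro p
    rw [← Fintype.sum_prod_type' (f := fun u v : Fin n =>
      (if (u, v) = p then (1 : ℝ) else 0) * (w u v : ℝ))]
    simp
  unfold aff
  simp only [add_mul, Finset.sum_add_distrib, h]
  push_cast
  ring

/-- The gates of a triple of vertices are linear threshold gates. -/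
theorem isReader_triGate {n : ℕ} (i j k : Fin n) (c : Bool) : IsReader 0 1 (triGate i j k c) := by
  classical
  refine ⟨fun f => .sign (if c = true then -1 else 0)
    (fun u v => (if (u, v) = (i, j) then 1 else 0) + (if (u, v) = (j, k) then 1 else 0) +
      (if (u, v) = (i, k) then 1 else 0))
    (fun b => .leaf (if TriOK f i j k then
      (if b = true then (if c = true then -1 else 1) else 0) else 0)), fun I _ => ?_⟩
  simp only [LTree.eval, aff_tri]
  unfold triGate
  by_cases hT : TriOK I.flag i j k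
  · simp only [hT, if_true, decide_eq_true_eq]
    cases c
    · simp only [Bool.false_eq_true, if_false, zero_add]
      by_cases h : (0 : ℤ) ≤ I.wt i j + I.wt j k + I.wt i k
      · rw [if_pos h, if_pos (by exact_mod_cast h)]
      · rw [if_neg h, if_neg (by exact_mod_cast h)]
    · simp only [if_true]
      by_cases h : (1 : ℤ) ≤ I.wt i j + I.wt j k + I.wt i k
      · have h' : (1 : ℝ) ≤ ((I.wt i j + I.wt j k + I.wt i k : ℤ) : ℝ) := by exact_mod_cast h
        rw [if_pos h, if_pos (by linarith)]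
      · have h' : ¬ (1 : ℝ) ≤ ((I.wt i j + I.wt j k + I.wt i k : ℤ) : ℝ) := by exact_mod_cast h
        rw [if_neg h, if_neg (fun h2 => h' (by linarith))]
  · simp only [hT, if_false]

/-- Two linear threshold gates of fan-in three per triple of vertices decide Exact Triangle. -/
theorem upper_gates2 (n : ℕ) :
    ∃ H : Fin (2 * n ^ 3) → Inst n → ℝ, (∀ r, IsReader 0 1 (H r) ∧ IsJunta 1 3 (H r)) ∧
      ∀ I : Inst n, 0 < ∑ r, H r I ↔ I.Yes := by
  classical
  have hcard : Fintype.card ((Fin n × Fin n × Fin n) × Bool) = 2 * n ^ 3 := by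
    simp only [Fintype.card_prod, Fintype.card_fin, Fintype.card_bool]; ring
  let e : (Fin n × Fin n × Fin n) × Bool ≃ Fin (2 * n ^ 3) := Fintype.equivFinOfCardEq hcard
  refine ⟨fun r => triGate (e.symm r).1.1 (e.symm r).1.2.1 (e.symm r).1.2.2 (e.symm r).2,
    fun r => ⟨isReader_triGate _ _ _ _, isJunta_triGate _ _ _ _⟩, fun I => ?_⟩
  have hsum : ∑ r : Fin (2 * n ^ 3),
      triGate (e.symm r).1.1 (e.symm r).1.2.1 (e.symm r).1.2.2 (e.symm r).2 I =
      ∑ t : Fin n × Fin n × Fin n,
        (triGate t.1 t.2.1 t.2.2 true I + triGate t.1 t.2.1 t.2.2 false I) := by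
    rw [Equiv.sum_comp e.symm (fun p => triGate p.1.1 p.1.2.1 p.1.2.2 p.2 I),
      Fintype.sum_prod_type]
    refine sum_congr rfl fun t _ => ?_
    rw [Fintype.sum_bool]
  rw [hsum]
  have hnn : ∀ t ∈ (univ : Finset (Fin n × Fin n × Fin n)),
      0 ≤ triGate t.1 t.2.1 t.2.2 true I + triGate t.1 t.2.1 t.2.2 false I := by
    intro t _
    rcases triGate_add t.1 t.2.1 t.2.2 I with h | h
    · rw [h.1]; norm_num
    · rw [h.1]
  constructor
  · intro hpos
    obtain ⟨t, -, ht⟩ := (sum_pos_iff_of_nonneg hnn).1 hpos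
    rcases triGate_add t.1 t.2.1 t.2.2 I with h | h
    · obtain ⟨-, ⟨h1, h2, h3, h4, h5, h6⟩, h7⟩ := h
      exact ⟨t.1, t.2.1, t.2.2, h1, h2, h3, h4, h5, h6, h7⟩
    · rw [h.1] at ht; exact absurd ht (lt_irrefl _)
  · rintro ⟨i, j, k, h1, h2, h3, h4, h5, h6, h7⟩
    refine (sum_pos_iff_of_nonneg hnn).2 ⟨(i, j, k), mem_univ _, ?_⟩
    rcases triGate_add i j k I with h | h
    · change 0 < triGate i j k true I + triGate i j k false I
      rw [h.1]; norm_num
    · exact absurd ⟨⟨h1, h2, h3, h4, h5, h6⟩, h7⟩ h.2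

end Pool.Agent.Helper21.UV
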