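import Mathlib
import Pool.Agent.Helper22.ETModel
import Pool.Agent.Helper8.UV.Defs
import Pool.Agent.Helper21.UV.Model
import Pool.Agent.Helper21.UV.Price2
import Pool.Agent.Helper21.UV.UpperL
import Pool.Agent.Helper5.UV.UpperJ

/-!
# Exact Triangle by threshold circuits with unbounded weights and unbounded fan-in

The circuit accepts if the sum of the votes of its voters is positive; the votes are arbitrary real
numbers, so the weights in the top gate are arbitrary. The circuit may be random and has to be
correct with probability at least `19/20` on every valid complete tripartite instance. It knows the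
flags; the difficulty is in the weights. Then `n ^ 3` is at most `2 ^ 35` times the expected total
price of the voters, where the price of a voter is

* `0` if it ignores the weights;
* `(B + D) ^ (3/2)` for a decision tree with `B` adaptive probes of weights and
  `D ≤ 200 * (log n + 1)` adaptive sign queries `0 ≤ c₀ + ∑ i, ∑ j, c i j * w i j` with arbitrary
  real coefficients in all the weights, and arbitrary real outputs;
* `√d * W` for an arbitrary real function of `d` additive threshold gates
  `θ ≤ ∑ e ∈ K, g e (w e)`, where the `g e` are arbitrary real functions of single weights (for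
  example arbitrary real linear forms in the bits of the weights), with together `W` wires.

So a weighted threshold of linear threshold functions of the weights, with unbounded weights and
unbounded fan-in in both layers, needs `n ^ 3 / 2 ^ 35` gates in expectation, and a weighted
threshold of additive threshold gates needs `n ^ 3 / 2 ^ 35` wires. The other three statements show
that this is sharp: `2 * n ^ 3` linear threshold gates with fan-in three,
`2 ^ 9 * n ^ 3 / B ^ (3/2)` trees with `B` probes (for every `B` from `3` to `n ^ 2`), or
`2 ^ 9 * n ^ 3 / s ^ (3/2)` functions of `d = O(s log n)` gates with together `d` wires are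
correct on all instances.

Idea of the proof: two triangles with one common edge are planted in a random instance; each of the
five weights has two possible values, so that there are sixteen instances; in eight of them exactly
one of the two triangles has the sum zero and in the other eight none. If all mixed third
differences of the sum of the votes along the two triangles vanish, then this sum satisfies a linear
relation between the sixteen instances which contradicts the signs. So some voter has a non-zero
mixed third difference. The expected number of places where a voter can have one is bounded by its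
price: for trees by the Loomis-Whitney inequality along the path, for functions of threshold gates
by the inequality of Kolmogorov and Rogozin for each gate and a weighted Loomis-Whitney inequality.
For the sign queries every weight that does not belong to the planted triangles is big with
probability `1/10`, with a huge random value: then the answer to a sign query is known as soon as
the weights with the largest coefficients have been read up to the first big one.
-/

set_option autoImplicit false

namespace Pool.Agent.Helper21.UVFinal

open Pool.Agent.Helper22.ETModel Pool.Agent.Helper8.VT Pool.Agent.Helper8.UV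
open Pool.Agent.Helper21.UV

/-- Exact Triangle by threshold circuits with unbounded weights and unbounded fan-in: the lower
bound for random circuits, and three matching upper bounds. -/
theorem result :
    -- the lower bound
    (∀ n : ℕ, 3 ≤ n → ∀ (Ω ι : Type) [Fintype Ω] [Nonempty Ω] [Fintype ι]
      (H : Ω → ι → Inst n → ℝ) (κ : Ω → ι → ℝ), (∀ ω s, Price2 (H ω s) (κ ω s)) →
      (∀ I : Inst n, I.Valid → Tripartite I → Decides H I) →
      (n : ℝ) ^ 3 ≤ 2 ^ 35 * ((∑ ω, ∑ s, κ ω s) / Fintype.card Ω)) ∧
    -- linear threshold gates with fan-in three
    (∀ n : ℕ, ∃ H : Fin (2 * n ^ 3) → Inst n → ℝ,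
      (∀ r, IsReader 0 1 (H r) ∧ IsJunta 1 3 (H r)) ∧ ∀ I : Inst n, 0 < ∑ r, H r I ↔ I.Yes) ∧
    -- decision trees with `B` probes
    (∀ n B : ℕ, 3 ≤ B → B ≤ n ^ 2 → ∃ (N : ℕ) (H : Fin N → Inst n → ℝ),
      (N : ℝ) * (B : ℝ) ^ (3 / 2 : ℝ) ≤ 2 ^ 9 * (n : ℝ) ^ 3 ∧ (∀ r, IsReader B 0 (H r)) ∧
      ∀ I : Inst n, 0 < ∑ r, H r I ↔ I.Yes) ∧
    -- functions of many gates with together as many wires
    (∀ n s : ℕ, 3 ≤ s → s ≤ n ^ 2 → ∃ (N : ℕ) (H : Fin N → Inst n → ℝ),
      (N : ℝ) * (s : ℝ) ^ (3 / 2 : ℝ) ≤ 2 ^ 9 * (n : ℝ) ^ 3 ∧
      (∀ r, IsJunta (s * (302 * (Nat.log 2 n + 1))) (s * (302 * (Nat.log 2 n + 1))) (H r)) ∧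
      ∀ I : Inst n, 0 < ∑ r, H r I ↔ I.Yes) := by
  refine ⟨fun n hn Ω ι _ _ _ H κ hκ hdec => lower2 n hn Ω ι H κ hκ hdec, upper_gates2, ?_,
    Helper5.UV.juntaStatement⟩
  intro n B hB hBn
  obtain ⟨N, H, h1, h2, h3⟩ := Helper5.UV.readerStatement n B hB hBn
  exact ⟨N, H, h1, fun r => isReader_of_isProbe (h2 r), h3⟩

end Pool.Agent.Helper21.UVFinal
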