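import Pool.Agent.Helper21.UV.Defs2

/-!
Frame of version 2 (statements only; nobody imports this file).
-/

set_option autoImplicit false

open Finset
open scoped BigOperators

namespace Pool.Agent.Helper21.UV.Frame

open Pool.Agent.Helper22.ETModel Pool.Agent.Helper8.VT Pool.Agent.Helper8.UV Pool.Agent.Helper21.UV

variable {n m q P : ℕ}

/-- (V2-a) Macro.lean -/
def ValidS : Prop := ∀ (n m q P : ℕ) [NeZero q] (_ : 20 * q + P ≤ n ^ 300)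
  (μ : Key m → Fin (10 * P)) (X Y Z : Cfg m q), (mkM n P μ X Y Z).Valid

def ZeroOfYesS : Prop := ∀ (n m q P : ℕ) [NeZero q] (μ : Key m → Fin (10 * P)) (X Y Z : Cfg m q),
  (mkM n P μ X Y Z).Yes → Zero X Y Z

def YesS : Prop := ∀ (n m q P : ℕ) [NeZero q] (_ : 9 * m ≤ n) (μ : Key m → Fin (10 * P))
  (X Y Z : Cfg m q) (i j k : Fin m), P ≤ (μ (0, (i, j)) : ℕ) → P ≤ (μ (1, (j, k)) : ℕ) →
  P ≤ (μ (2, (k, i)) : ℕ) → X (i, j) + Y (j, k) + Z (k, i) = 0 → (mkM n P μ X Y Z).Yes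

open Classical in
/-- (V2-d) Prob.lean -/
def ProbS : Prop := ∀ (n m q P : ℕ) [NeZero q] (_ : 0 < P) (c1 B D : ℕ) (t : LTree n B D)
  (X Y Z : Cfg m q),
  ((univ.filter fun μ : Key m → Fin (10 * P) => t.excN c1 q P μ (WM n P μ X Y Z) ∅).card : ℝ) ≤
    (2 ^ D - 1) * ((9 / 10) ^ c1 + (2 * Fintype.card (Key m) * q + 1) / P) *
      (10 * P) ^ Fintype.card (Key m)

/-- (V2-c) Ideal.lean -/
def IdealS : Prop := ∀ (n m q P : ℕ) [NeZero q] (_ : 9 * m ≤ n) (c1 B D : ℕ) (t : LTree n B D)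
  (μ : Key m → Fin (10 * P)), ∃ T : Tree n (B + c1 * D), ∀ X Y Z : Cfg m q,
    ¬ t.exc c1 q P μ (WM n P μ X Y Z) ∅ → T.eval (WM n P μ X Y Z) = t.eval (WM n P μ X Y Z)

end Pool.Agent.Helper21.UV.Frame
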