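import Pool.Agent.Helper21.UV.Aff

/-!
# The ideal probe tree of a reader with sign queries
-/

set_option autoImplicit false
set_option linter.unusedSectionVars false

open Finset
open scoped BigOperators

namespace Pool.Agent.Helper21.UV

open Pool.Agent.Helper22.ETModel Pool.Agent.Helper8.VT Pool.Agent.Helper8.UV

section
variable {n m q P : ℕ}

/-- Every variable has a cell. -/
theorem exists_cell (h9 : 9 * m ≤ n) (e : Key m) :
    ∃ (u v : Fin n) (c : ℕ), key m u v = some (e, c) := by
  obtain ⟨c, i, j⟩ := e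
  have hi := i.2
  have hj := j.2
  fin_cases c
  · refine ⟨⟨3 * i, by omega⟩, ⟨3 * j + 1, by omega⟩, 0, ?_⟩
    unfold key okey
    simp only
    rw [dif_pos (by omega)]
    simp only [Option.some.injEq, Prod.mk.injEq, and_true]
    refine ⟨rfl, ?_, ?_⟩
    · apply Fin.ext; simp only; omega
    · apply Fin.ext; simp only; omega
  · refine ⟨⟨3 * i + 1, by omega⟩, ⟨9 * j + 2, by omega⟩, 0, ?_⟩
    unfold key okey
    simp only
    rw [dif_neg (by omega), dif_pos (by omega)]
    simp only [Option.some.injEq, Prod.mk.injEq, and_true]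
    refine ⟨rfl, ?_, ?_⟩
    · apply Fin.ext; simp only; omega
    · apply Fin.ext; simp only; omega
  · refine ⟨⟨9 * i + 2, by omega⟩, ⟨3 * j, by omega⟩, (9 * (i : ℕ) + 2) / 3 % 3, ?_⟩
    unfold key okey
    simp only
    rw [dif_neg (by omega), dif_neg (by omega), dif_pos (by omega)]
    simp only [Option.some.injEq, Prod.mk.injEq, and_true]
    refine ⟨rfl, ?_, ?_⟩
    · apply Fin.ext; simp only; omega
    · apply Fin.ext; simp only; omega

/-- A tree of larger depth. -/
theorem tree_up {d : ℕ} (T : Tree n d) : ∃ T' : Tree n (d + 1), ∀ w, T'.eval w = T.eval w := by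
  induction T with
  | leaf v => exact ⟨.leaf v, fun w => rfl⟩
  | node i j next ih =>
    choose T' hT' using ih
    exact ⟨.node i j T', fun w => hT' (w i j) w⟩

theorem tree_up_le {d d' : ℕ} (h : d ≤ d') (T : Tree n d) :
    ∃ T' : Tree n d', ∀ w, T'.eval w = T.eval w := by
  induction h with
  | refl => exact ⟨T, fun _ => rfl⟩
  | step _ ih =>
    obtain ⟨T1, h1⟩ := ih
    obtain ⟨T2, h2⟩ := tree_up T1
    exact ⟨T2, fun w => (h2 w).trans (h1 w)⟩

variable [NeZero q]

theorem recover (μ : Key m → Fin (10 * P)) (X Y Z : Cfg m q) (u v : Fin n) (e : Key m) (c : ℕ)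
    (h : key m u v = some (e, c)) :
    ((WM n P μ X Y Z u v + cpy m q u v - mac q P μ e : ℤ) : ZMod q) = val3 X Y Z e := by
  rw [WM_some μ X Y Z u v e c h]
  have : mac q P μ e + ((val3 X Y Z e).val : ℤ) - cpy m q u v + cpy m q u v - mac q P μ e =
      ((val3 X Y Z e).val : ℤ) := by ring
  rw [this]
  push_cast
  exact ZMod.natCast_zmod_val _

/-- Reading a variable. -/
theorem tree_read (h9 : 9 * m ≤ n) (μ : Key m → Fin (10 * P)) {d : ℕ} (e : Key m)
    (T' : ZMod q → Tree n d) : ∃ T : Tree n (d + 1), ∀ X Y Z : Cfg m q,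
      T.eval (WM n P μ X Y Z) = (T' (val3 X Y Z e)).eval (WM n P μ X Y Z) := by
  obtain ⟨u, v, c, hc⟩ := exists_cell (n := n) h9 e
  refine ⟨.node u v (fun z => T' ((z + cpy m q u v - mac q P μ e : ℤ) : ZMod q)), ?_⟩
  intro X Y Z
  simp only [Tree.eval]
  rw [recover μ X Y Z u v e c hc]

/-- The value of a form with the unread microscopic parts replaced by zero. -/
noncomputable def idl (m q P : ℕ) (c₀ : ℝ) (c : Fin n → Fin n → ℝ) (μ : Key m → Fin (10 * P))
    (A : Finset (Key m)) (v0 : Key m → ZMod q) : ℝ :=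
  cst0 m q c₀ c + ∑ e, coef m c e *
    ((mac q P μ e : ℝ) + (if e ∈ A then ((v0 e).val : ℝ) else 0))

theorem idl_diff (c₀ : ℝ) (c : Fin n → Fin n → ℝ) (μ : Key m → Fin (10 * P))
    (A : Finset (Key m)) (v0 : Key m → ZMod q) (X Y Z : Cfg m q)
    (hA : ∀ e ∈ A, val3 X Y Z e = v0 e) (K : ℝ) (hK0 : 0 ≤ K)
    (hK : ∀ e, e ∉ A → |coef m c e| ≤ K) :
    |aff c₀ c (WM n P μ X Y Z) - idl m q P c₀ c μ A v0| ≤
      Fintype.card (Key m) * K * q := by
  rw [aff_eq]
  unfold idl
  rw [add_sub_add_left_eq_sub, ← Finset.sum_sub_distrib]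
  refine (Finset.abs_sum_le_sum_abs _ _).trans ?_
  have : ∀ e ∈ (univ : Finset (Key m)), |coef m c e * tot q P μ X Y Z e - coef m c e *
      ((mac q P μ e : ℝ) + (if e ∈ A then ((v0 e).val : ℝ) else 0))| ≤ K * q := by
    intro e _
    by_cases he : e ∈ A
    · rw [if_pos he]
      unfold tot
      rw [hA e he, sub_self, abs_zero]
      exact mul_nonneg hK0 (Nat.cast_nonneg _)
    · rw [if_neg he, ← mul_sub, abs_mul]
      have h1 := hK e he
      have h2 : |tot q P μ X Y Z e - ((mac q P μ e : ℝ) + 0)| ≤ q := by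
        unfold tot
        rw [add_zero, add_sub_cancel_left, abs_of_nonneg (Nat.cast_nonneg _)]
        have := (ZMod.val_lt (val3 X Y Z e)).le
        exact_mod_cast this
      exact mul_le_mul h1 h2 (abs_nonneg _) ((abs_nonneg _).trans h1)
  refine (Finset.sum_le_sum this).trans ?_
  rw [Finset.sum_const, Finset.card_univ, nsmul_eq_mul]
  linarith

/-- The statement of the induction. -/
def HasIdeal (n : ℕ) {m q P : ℕ} (c1 : ℕ) (μ : Key m → Fin (10 * P)) {B D : ℕ}
    (t : LTree n B D) : Prop :=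
  ∀ (A : Finset (Key m)) (v0 : Key m → ZMod q), ∃ T : Tree n (B + c1 * D), ∀ X Y Z : Cfg m q,
    (∀ e ∈ A, val3 X Y Z e = v0 e) → ¬ t.exc c1 q P μ (WM n P μ X Y Z) A →
      T.eval (WM n P μ X Y Z) = t.eval (WM n P μ X Y Z)

/-- Updating the known values. -/
theorem known_insert (A : Finset (Key m)) (v0 : Key m → ZMod q) (X Y Z : Cfg m q)
    (hA : ∀ e ∈ A, val3 X Y Z e = v0 e) (e : Key m) :
    ∀ e' ∈ insert e A, val3 X Y Z e' = Function.update v0 e (val3 X Y Z e) e' := by
  intro e' he'
  by_cases h : e' = e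
  · subst h; rw [Function.update_self]
  · rw [Function.update_of_ne h]
    exact hA e' (Finset.mem_of_mem_insert_of_ne he' h)

/-- The reading phase. -/
theorem ideal_phase (h9 : 9 * m ≤ n) (c1 : ℕ) (μ : Key m → Fin (10 * P)) {B D : ℕ} (c₀ : ℝ)
    (c : Fin n → Fin n → ℝ) (next : Bool → LTree n B D)
    (ih : ∀ b, HasIdeal (q := q) n c1 μ (next b)) :
    ∀ (f : ℕ) (A : Finset (Key m)) (v0 : Key m → ZMod q),
      ∃ T : Tree n (B + c1 * D + f), ∀ X Y Z : Cfg m q,
        (∀ e ∈ A, val3 X Y Z e = v0 e) →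
        ¬ phase q P μ (coef m c) (aff c₀ c (WM n P μ X Y Z))
          (fun A' => (next (decide (0 ≤ aff c₀ c (WM n P μ X Y Z)))).exc c1 q P μ
            (WM n P μ X Y Z) A') f A →
        T.eval (WM n P μ X Y Z) =
          (next (decide (0 ≤ aff c₀ c (WM n P μ X Y Z)))).eval (WM n P μ X Y Z) := by
  intro f
  induction f with
  | zero =>
    intro A v0
    exact ⟨.leaf 0, fun X Y Z _ h => absurd trivial h⟩
  | succ f ihf =>
    intro A v0
    rcases htop : top (coef m c) A with _ | e
    · obtain ⟨T0, hT0⟩ := ih (decide (0 ≤ idl m q P c₀ c μ A v0)) A v0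
      obtain ⟨T, hT⟩ := tree_up_le (show B + c1 * D ≤ B + c1 * D + (f + 1) by omega) T0
      refine ⟨T, fun X Y Z hA hph => ?_⟩
      unfold phase at hph
      rw [htop] at hph
      have heq : aff c₀ c (WM n P μ X Y Z) = idl m q P c₀ c μ A v0 := by
        have h := idl_diff c₀ c μ A v0 X Y Z hA 0 le_rfl (fun e he => by
          rw [top_none htop e he, abs_zero])
        rw [mul_zero, zero_mul] at h
        exact sub_eq_zero.1 (abs_nonpos_iff.1 h)
      simp only [heq] at hph ⊢
      rw [hT]
      exact hT0 X Y Z hA hph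
    · obtain ⟨he1, he2, he3⟩ := top_some htop
      by_cases hbig : (μ e : ℕ) < P
      · choose T' hT' using fun z : ZMod q => ih
          (decide (0 ≤ idl m q P c₀ c μ (insert e A) (Function.update v0 e z)))
          (insert e A) (Function.update v0 e z)
        obtain ⟨T0, hT0⟩ := tree_read h9 μ e T'
        obtain ⟨T, hT⟩ := tree_up_le
          (show B + c1 * D + 1 ≤ B + c1 * D + (f + 1) by omega) T0
        refine ⟨T, fun X Y Z hA hph => ?_⟩
        unfold phase at hph
        rw [htop] at hph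
        simp only at hph
        rw [if_pos hbig, not_or] at hph
        obtain ⟨hsm, hex⟩ := hph
        push Not at hsm
        have hA' := known_insert A v0 X Y Z hA e
        have hd := idl_diff c₀ c μ (insert e A) (Function.update v0 e (val3 X Y Z e)) X Y Z hA'
          |coef m c e| (abs_nonneg _) (fun e' he' => he3 e' (fun h =>
            he' (Finset.mem_insert_of_mem h)))
        have hb : decide (0 ≤ idl m q P c₀ c μ (insert e A)
            (Function.update v0 e (val3 X Y Z e))) =
            decide (0 ≤ aff c₀ c (WM n P μ X Y Z)) := by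
          apply decide_eq_decide.2
          rw [abs_le] at hd
          rcases lt_abs.1 hsm with h | h
          · constructor <;> intro _ <;> linarith [hd.1, hd.2, abs_nonneg (coef m c e)]
          · constructor <;> intro h' <;> exfalso <;> linarith [hd.1, hd.2]
        rw [hT, hT0]
        have := hT' (val3 X Y Z e) X Y Z hA'
        rw [hb] at this
        exact this hex
      · choose T' hT' using fun z : ZMod q => ihf (insert e A) (Function.update v0 e z)
        obtain ⟨T, hT⟩ := tree_read h9 μ e T'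
        refine ⟨T, fun X Y Z hA hph => ?_⟩
        unfold phase at hph
        rw [htop] at hph
        simp only at hph
        rw [if_neg hbig] at hph
        rw [hT]
        exact hT' (val3 X Y Z e) X Y Z (known_insert A v0 X Y Z hA e) hph

theorem hasIdeal (h9 : 9 * m ≤ n) (c1 : ℕ) (μ : Key m → Fin (10 * P)) {B D : ℕ}
    (t : LTree n B D) : HasIdeal (q := q) n c1 μ t := by
  induction t with
  | leaf v => intro A v0; exact ⟨.leaf v, fun X Y Z _ _ => rfl⟩
  | @probe B D i j next ih =>
    intro A v0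
    have hd : B + 1 + c1 * D = B + c1 * D + 1 := by omega
    rw [hd]
    rcases hc : key m i j with _ | ⟨e, c⟩
    · obtain ⟨T0, hT0⟩ := ih (10 * q) A v0
      obtain ⟨T, hT⟩ := tree_up T0
      refine ⟨T, fun X Y Z hA hex => ?_⟩
      have hw := WM_none μ X Y Z i j hc
      rw [hT]
      simp only [LTree.exc, LTree.eval, addKey, hc, hw] at hex ⊢
      exact hT0 X Y Z hA hex
    · choose T' hT' using fun z : ℤ => ih z (insert e A)
        (Function.update v0 e ((z + cpy m q i j - mac q P μ e : ℤ) : ZMod q))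
      refine ⟨.node i j T', fun X Y Z hA hex => ?_⟩
      simp only [LTree.exc, LTree.eval, Tree.eval, addKey, hc] at hex ⊢
      refine hT' (WM n P μ X Y Z i j) X Y Z ?_ hex
      rw [recover μ X Y Z i j e c hc]
      exact known_insert A v0 X Y Z hA e
  | @sign B D c₀ c next ih =>
    intro A v0
    have hd : B + c1 * (D + 1) = B + c1 * D + c1 := by ring
    rw [hd]
    obtain ⟨T, hT⟩ := ideal_phase h9 c1 μ c₀ c next ih c1 A v0
    exact ⟨T, fun X Y Z hA hex => hT X Y Z hA hex⟩

/-- The ideal probe tree. -/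
theorem ideal (h9 : 9 * m ≤ n) (c1 : ℕ) (μ : Key m → Fin (10 * P)) {B D : ℕ}
    (t : LTree n B D) : ∃ T : Tree n (B + c1 * D), ∀ X Y Z : Cfg m q,
      ¬ t.exc c1 q P μ (WM n P μ X Y Z) ∅ → T.eval (WM n P μ X Y Z) = t.eval (WM n P μ X Y Z) := by
  obtain ⟨T, hT⟩ := hasIdeal (q := q) h9 c1 μ t ∅ (fun _ => 0)
  exact ⟨T, fun X Y Z h => hT X Y Z (fun e he => absurd he (Finset.notMem_empty e)) h⟩

end

end Pool.Agent.Helper21.UV
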