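import Pool.Agent.Helper50.UV.TreeCap

/-!
# The capacity of a decision tree in terms of the average number of probes
-/

set_option autoImplicit false
set_option linter.unusedSectionVars false

open Finset
open scoped BigOperators

namespace Pool.Agent.Helper21.UV

open Pool.Agent.Helper8.VT Pool.Agent.Helper8.UV Pool.Agent.Helper50.UV
open Pool.Agent.Helper8.VS (tri_sq ind ind_nonneg ind_le_one ind_true ind_false)

/-- The number of probes on the weights `w`. -/
def tlen {n : ℕ} : {d : ℕ} → Tree n d → Wts n → ℕ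
  | _, .leaf _, _ => 0
  | _, .node i j next, w => tlen (next (w i j)) w + 1

theorem tlen_eq {n : ℕ} {K : Type} (κ : Fin n → Fin n → K) {d : ℕ} (t : Tree n d) (w : Wts n) :
    (t.path κ w).length = tlen t w := by
  induction t with
  | leaf v => rfl
  | node i j next ih => simp only [Tree.path, List.length_cons, tlen, ih]

section
variable {n m Q D : ℕ} [NeZero Q]

/-- The number of triangles read. -/
theorem sum_rd_len (P : Place n m Q) (t : Tree n D) :
    ∑ i, ∑ j, ∑ k, rd P t i j k ≤ bas (fun X Y Z => √((tlen t (P.W X Y Z) : ℝ) ^ 3)) := by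
  classical
  have hpt : ∀ X Y Z, ∑ i, ∑ j, ∑ k, ind (AllRead P t i j k X Y Z) ≤
      √((tlen t (P.W X Y Z) : ℝ) ^ 3) := by
    intro X Y Z
    have hl := (tlen_eq P.κ t (P.W X Y Z)).le
    set l := t.path P.κ (P.W X Y Z) with hl'
    set N := tlen t (P.W X Y Z) with hN
    have c1 := card_path l N hl 0
    have c2 := card_path l N hl 1
    have c3 := card_path l N hl 2
    have ht := tri_sq (fun i j : Fin m => if some (0, (i, j)) ∈ l then (1 : ℝ) else 0)
      (fun i j : Fin m => if some (1, (i, j)) ∈ l then (1 : ℝ) else 0)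
      (fun i j : Fin m => if some (2, (i, j)) ∈ l then (1 : ℝ) else 0)
    have e : ∑ i, ∑ j, ∑ k, ind (AllRead P t i j k X Y Z) = ∑ i : Fin m, ∑ j : Fin m, ∑ k : Fin m,
        (if some (0, (i, j)) ∈ l then (1 : ℝ) else 0) *
          (if some (1, (j, k)) ∈ l then (1 : ℝ) else 0) *
          (if some (2, (k, i)) ∈ l then (1 : ℝ) else 0) := by
      refine Finset.sum_congr rfl fun i _ => Finset.sum_congr rfl fun j _ =>
        Finset.sum_congr rfl fun k _ => ?_
      simp only [ind, AllRead, ← hl']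
      by_cases a1 : some (0, (i, j)) ∈ l <;> by_cases a2 : some (1, (j, k)) ∈ l <;>
        by_cases a3 : some (2, (k, i)) ∈ l <;> simp [a1, a2, a3]
    rw [e]
    refine Real.le_sqrt_of_sq_le (ht.trans ?_)
    have n2 : (0 : ℝ) ≤ ∑ i : Fin m, ∑ j : Fin m,
        (if some (1, (i, j)) ∈ l then (1 : ℝ) else 0) ^ 2 :=
      Finset.sum_nonneg fun _ _ => Finset.sum_nonneg fun _ _ => sq_nonneg _
    have n3 : (0 : ℝ) ≤ ∑ i : Fin m, ∑ j : Fin m,
        (if some (2, (i, j)) ∈ l then (1 : ℝ) else 0) ^ 2 :=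
      Finset.sum_nonneg fun _ _ => Finset.sum_nonneg fun _ _ => sq_nonneg _
    have hD : (0 : ℝ) ≤ N := Nat.cast_nonneg N
    calc _ ≤ ((N : ℝ) * N) * N := mul_le_mul (mul_le_mul c1 c2 n2 hD) c3 n3 (by positivity)
      _ = _ := by ring
  calc ∑ i, ∑ j, ∑ k, rd P t i j k
      = bas (fun X Y Z => ∑ i, ∑ j, ∑ k, ind (AllRead P t i j k X Y Z)) := by
        unfold rd
        simp only [bas_sum]
    _ ≤ _ := bas_mono _ _ hpt

/-- The capacity of a decision tree. -/
theorem tree_cap_len (P : Place n m Q) (t : Tree n D) :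
    cap (fun X Y Z => t.eval (P.W X Y Z)) ≤
      192 * m * bas (fun X Y Z => √((tlen t (P.W X Y Z) : ℝ) ^ 3)) := by
  classical
  have nn := rd_nonneg P t
  have h1 : cap (fun X Y Z => t.eval (P.W X Y Z)) ≤
      ∑ i, ∑ j, ∑ k, ∑ k' : Fin m, 96 * (rd P t i j k + rd P t i j k') := by
    unfold cap
    refine Finset.sum_le_sum fun i _ => Finset.sum_le_sum fun j _ => Finset.sum_le_sum fun k _ => ?_
    refine le_trans (Finset.sum_le_sum fun k' hk' =>
      cap_one P t i j (Finset.ne_of_mem_erase hk').symm) ?_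
    refine Finset.sum_le_sum_of_subset_of_nonneg (Finset.subset_univ _) fun k' _ _ => ?_
    have := nn i j k
    have := nn i j k'
    linarith
  have h2 : ∑ i, ∑ j, ∑ k, ∑ k' : Fin m, 96 * (rd P t i j k + rd P t i j k') =
      192 * m * ∑ i, ∑ j, ∑ k, rd P t i j k := by
    have e : ∀ i j, ∑ k, ∑ k' : Fin m, 96 * (rd P t i j k + rd P t i j k') =
        192 * m * ∑ k, rd P t i j k := by
      intro i j
      simp only [← Finset.mul_sum, Finset.sum_add_distrib, Finset.sum_const, Finset.card_univ,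
        Fintype.card_fin, nsmul_eq_mul]
      ring
    rw [Finset.mul_sum]
    refine Finset.sum_congr rfl fun i _ => ?_
    rw [Finset.mul_sum]
    exact Finset.sum_congr rfl fun j _ => e i j
  refine h1.trans (h2.le.trans ?_)
  exact mul_le_mul_of_nonneg_left (sum_rd_len P t) (by positivity)

end

end Pool.Agent.Helper21.UV
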