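import Pool.Agent.Helper21.UV.Prob

/-!
# An exponential moment of the length of the reading phases
-/

set_option autoImplicit false
set_option linter.unusedSectionVars false

open Finset
open scoped BigOperators

namespace Pool.Agent.Helper21.UV

open Pool.Agent.Helper22.ETModel Pool.Agent.Helper8.VT Pool.Agent.Helper8.UV

section
variable {n m q P : ℕ}

/-- The moment of the reading phase of a sign query. -/
noncomputable def phaseM (P : ℕ) (μ : Key m → Fin (10 * P)) (C : Key m → ℝ)
    (nxt : Finset (Key m) → ℝ) : ℕ → Finset (Key m) → ℝ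
  | 0, _ => 1
  | f + 1, A =>
    match top C A with
    | none => nxt A
    | some e => (20 / 19) *
      if (μ e : ℕ) < P then nxt (insert e A) else phaseM P μ C nxt f (insert e A)

/-- The moment of the total length of the reading phases, summed over all answers to the sign
queries. -/
noncomputable def LTree.mom (c1 P : ℕ) (μ : Key m → Fin (10 * P)) (w : Wts n) :
    {B D : ℕ} → LTree n B D → Finset (Key m) → ℝ
  | _, _, .leaf _, _ => 1
  | _, _, .probe i j next, A => (next (w i j)).mom c1 P μ w (addKey m i j A)
  | _, _, .sign _ c next, A =>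
    phaseM P μ (coef m c) (fun A' => ∑ b : Bool, (next b).mom c1 P μ w A') c1 A

theorem one_le_phaseM (μ : Key m → Fin (10 * P)) (C : Key m → ℝ) (nxt : Finset (Key m) → ℝ)
    (h : ∀ A, 1 ≤ nxt A) : ∀ (f : ℕ) (A : Finset (Key m)), 1 ≤ phaseM P μ C nxt f A := by
  intro f
  induction f with
  | zero => intro A; exact le_rfl
  | succ f ih =>
    intro A
    unfold phaseM
    rcases htop : top C A with _ | e
    · exact h A
    · simp only
      split_ifs
      · have := h (insert e A)
        linarith
      · have := ih (insert e A)
        linarith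

theorem one_le_mom (c1 : ℕ) (μ : Key m → Fin (10 * P)) (w : Wts n) {B D : ℕ} (t : LTree n B D) :
    ∀ A, 1 ≤ t.mom c1 P μ w A := by
  induction t with
  | leaf v => intro A; exact le_rfl
  | probe i j next ih => intro A; exact ih _ _
  | sign c₀ c next ih =>
    intro A
    refine one_le_phaseM μ _ _ (fun A' => ?_) _ _
    simp only [Fintype.sum_bool]
    linarith [ih true A', ih false A']

/-- Partition of a sum by the value of one variable. -/
theorem fib_sum {A : Finset (Key m)} {e : Key m} (he : e ∉ A)
    (μ0 : Key m → Fin (10 * P)) (g : (Key m → Fin (10 * P)) → ℝ) :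
    ∑ μ ∈ fib A μ0, g μ = ∑ x, ∑ μ ∈ fib (insert e A) (Function.update μ0 e x), g μ := by
  classical
  rw [← Finset.sum_fiberwise_of_maps_to (g := fun μ => μ e) (t := univ)
    (fun _ _ => Finset.mem_univ _)]
  refine Finset.sum_congr rfl fun x _ => ?_
  refine Finset.sum_congr ?_ fun _ _ => rfl
  ext μ
  simp only [Finset.mem_filter, mem_fib]
  constructor
  · rintro ⟨h1, h3⟩ e' he'
    by_cases h : e' = e
    · subst h; rw [Function.update_self]; exact h3
    · rw [Function.update_of_ne h]; exact h1 e' (Finset.mem_of_mem_insert_of_ne he' h)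
  · intro h1
    refine ⟨fun e' he' => ?_, ?_⟩
    · have h := h1 e' (Finset.mem_insert_of_mem he')
      have hne : e' ≠ e := by rintro rfl; exact he he'
      rwa [Function.update_of_ne hne] at h
    · have h := h1 e (Finset.mem_insert_self _ _)
      rwa [Function.update_self] at h

theorem phase_mom (C : Key m → ℝ) (nxt : (Key m → Fin (10 * P)) → Finset (Key m) → ℝ) (b : ℝ)
    (hb1 : 1 ≤ b) (hb : ∀ (A : Finset (Key m)) (μ0 : Key m → Fin (10 * P)),
      ∑ μ ∈ fib A μ0, nxt μ A ≤ b * (fib A μ0).card) :
    ∀ (f : ℕ) (A : Finset (Key m)) (μ0 : Key m → Fin (10 * P)),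
      ∑ μ ∈ fib A μ0, phaseM P μ C (nxt μ) f A ≤ 2 * b * (fib A μ0).card := by
  intro f
  induction f with
  | zero =>
    intro A μ0
    simp only [phaseM, Finset.sum_const, nsmul_eq_mul, mul_one]
    have h0 : (0 : ℝ) ≤ (fib A μ0).card := Nat.cast_nonneg _
    nlinarith
  | succ f ih =>
    intro A μ0
    have h0 : (0 : ℝ) ≤ (fib A μ0).card := Nat.cast_nonneg _
    rcases htop : top C A with _ | e
    · have h1 : ∀ μ ∈ fib A μ0, phaseM P μ C (nxt μ) (f + 1) A = nxt μ A := by
        intro μ _
        unfold phaseM
        rw [htop]
      rw [Finset.sum_congr rfl h1]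
      refine (hb A μ0).trans ?_
      nlinarith
    · obtain ⟨he1, he2, he3⟩ := top_some htop
      set N' : ℝ := ((fib (insert e A) μ0).card : ℝ) with hN'
      have hcard : ∀ x, ((fib (insert e A) (Function.update μ0 e x)).card : ℝ) = N' := by
        intro x
        rw [hN', card_fib, card_fib]
      have hN : (10 * P : ℝ) * N' = (fib A μ0).card := by
        have := card_fib_insert he1 μ0 μ0
        rw [hN']
        exact_mod_cast this
      rw [fib_sum he1, ← Finset.sum_filter_add_sum_filter_not univ
        (fun x : Fin (10 * P) => (x : ℕ) < P)]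
      have hbig : ∀ x ∈ univ.filter (fun x : Fin (10 * P) => (x : ℕ) < P),
          ∑ μ ∈ fib (insert e A) (Function.update μ0 e x), phaseM P μ C (nxt μ) (f + 1) A ≤
            20 / 19 * (b * N') := by
        intro x hx
        rw [Finset.mem_filter] at hx
        have h1 : ∀ μ ∈ fib (insert e A) (Function.update μ0 e x),
            phaseM P μ C (nxt μ) (f + 1) A = 20 / 19 * nxt μ (insert e A) := by
          intro μ hμ
          have h4 : μ e = x := by
            have := mem_fib.1 hμ e (Finset.mem_insert_self _ _)
            rwa [Function.update_self] at this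
          unfold phaseM
          rw [htop]
          simp only
          rw [if_pos (by rw [h4]; exact hx.2)]
        rw [Finset.sum_congr rfl h1, ← Finset.mul_sum]
        have := hb (insert e A) (Function.update μ0 e x)
        rw [hcard] at this
        linarith
      have hsmall : ∀ x ∈ univ.filter (fun x : Fin (10 * P) => ¬ (x : ℕ) < P),
          ∑ μ ∈ fib (insert e A) (Function.update μ0 e x), phaseM P μ C (nxt μ) (f + 1) A ≤
            20 / 19 * (2 * b * N') := by
        intro x hx
        rw [Finset.mem_filter] at hx
        have h1 : ∀ μ ∈ fib (insert e A) (Function.update μ0 e x),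
            phaseM P μ C (nxt μ) (f + 1) A = 20 / 19 * phaseM P μ C (nxt μ) f (insert e A) := by
          intro μ hμ
          have h4 : μ e = x := by
            have := mem_fib.1 hμ e (Finset.mem_insert_self _ _)
            rwa [Function.update_self] at this
          conv_lhs => unfold phaseM
          rw [htop]
          simp only
          rw [if_neg (by rw [h4]; exact hx.2)]
        rw [Finset.sum_congr rfl h1, ← Finset.mul_sum]
        have := ih (insert e A) (Function.update μ0 e x)
        rw [hcard] at this
        linarith
      have s1 := Finset.sum_le_sum hbig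
      have s2 := Finset.sum_le_sum hsmall
      rw [Finset.sum_const, card_small, nsmul_eq_mul] at s1
      rw [Finset.sum_const, card_large, nsmul_eq_mul] at s2
      push_cast at s2
      rw [← hN]
      nlinarith

variable [NeZero q]

theorem tree_mom (c1 : ℕ) (X Y Z : Cfg m q) {B D : ℕ} (t : LTree n B D) :
    ∀ (A : Finset (Key m)) (μ0 : Key m → Fin (10 * P)),
      ∑ μ ∈ fib A μ0, t.mom c1 P μ (WM n P μ X Y Z) A ≤ 4 ^ D * (fib A μ0).card := by
  induction t with
  | @leaf B D v =>
    intro A μ0
    simp only [LTree.mom, Finset.sum_const, nsmul_eq_mul, mul_one]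
    have h0 : (0 : ℝ) ≤ (fib A μ0).card := Nat.cast_nonneg _
    have h1 : (1 : ℝ) ≤ 4 ^ D := one_le_pow₀ (by norm_num)
    nlinarith
  | @probe B D i j next ih =>
    intro A μ0
    rcases hc : key m i j with _ | ⟨e, c⟩
    · have h : ∀ μ ∈ fib A μ0, (LTree.probe i j next).mom c1 P μ (WM n P μ X Y Z) A =
          (next (10 * q)).mom c1 P μ (WM n P μ X Y Z) A := by
        intro μ _
        simp only [LTree.mom, addKey, hc, WM_none μ X Y Z i j hc]
      rw [Finset.sum_congr rfl h]
      exact ih _ A μ0
    · by_cases he : e ∈ A
      · have h : ∀ μ ∈ fib A μ0, (LTree.probe i j next).mom c1 P μ (WM n P μ X Y Z) A =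
            (next (mac q P μ0 e + (val3 X Y Z e).val - cpy m q i j)).mom c1 P μ
                (WM n P μ X Y Z) A := by
          intro μ hμ
          simp only [LTree.mom, addKey, hc, Finset.insert_eq_of_mem he,
            WM_const he X Y Z i j c hc hμ]
        rw [Finset.sum_congr rfl h]
        exact ih _ A μ0
      · rw [fib_sum he]
        have h1 : ∀ x ∈ (univ : Finset (Fin (10 * P))),
            ∑ μ ∈ fib (insert e A) (Function.update μ0 e x),
              (LTree.probe i j next).mom c1 P μ (WM n P μ X Y Z) A ≤
            4 ^ D * (fib (insert e A) μ0).card := by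
          intro x _
          have h : ∀ μ ∈ fib (insert e A) (Function.update μ0 e x),
              (LTree.probe i j next).mom c1 P μ (WM n P μ X Y Z) A =
                (next (mac q P (Function.update μ0 e x) e + (val3 X Y Z e).val -
                  cpy m q i j)).mom c1 P μ (WM n P μ X Y Z) (insert e A) := by
            intro μ hμ
            simp only [LTree.mom, addKey, hc,
              WM_const (Finset.mem_insert_self e A) X Y Z i j c hc hμ]
          rw [Finset.sum_congr rfl h]
          have h2 := ih (mac q P (Function.update μ0 e x) e + (val3 X Y Z e).val -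
            cpy m q i j) (insert e A) (Function.update μ0 e x)
          have h3 : (fib (insert e A) (Function.update μ0 e x)).card =
              (fib (insert e A) μ0).card := by rw [card_fib, card_fib]
          rwa [h3] at h2
        refine (Finset.sum_le_sum h1).trans (le_of_eq ?_)
        rw [Finset.sum_const, Finset.card_univ, Fintype.card_fin, nsmul_eq_mul]
        have := card_fib_insert he μ0 μ0
        have h4 : ((10 * P : ℕ) : ℝ) * ((fib (insert e A) μ0).card : ℝ) = (fib A μ0).card := by
          exact_mod_cast this
        rw [← h4]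
        ring
  | @sign B D c₀ c next ih =>
    intro A μ0
    have h := phase_mom (P := P) (coef m c)
      (fun μ A' => ∑ b : Bool, (next b).mom c1 P μ (WM n P μ X Y Z) A') (2 * 4 ^ D)
      (by
        have h1 : (1 : ℝ) ≤ 4 ^ D := one_le_pow₀ (by norm_num)
        linarith)
      (by
        intro A μ0
        simp only [Fintype.sum_bool, Finset.sum_add_distrib]
        linarith [ih true A μ0, ih false A μ0]) c1 A μ0
    refine h.trans (le_of_eq ?_)
    ring

/-- The average of the moment. -/
theorem mom_avg (hP : 0 < P) (c1 : ℕ) (X Y Z : Cfg m q) {B D : ℕ} (t : LTree n B D) :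
    ∑ μ : Key m → Fin (10 * P), t.mom c1 P μ (WM n P μ X Y Z) ∅ ≤
      4 ^ D * Fintype.card (Key m → Fin (10 * P)) := by
  have h := tree_mom (P := P) c1 X Y Z t ∅ (fun _ => ⟨0, by omega⟩)
  have h1 : fib (∅ : Finset (Key m)) (fun _ => (⟨0, by omega⟩ : Fin (10 * P))) = univ := by
    ext μ
    simp [mem_fib]
  rw [h1, Finset.card_univ] at h
  exact h

end

end Pool.Agent.Helper21.UV
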