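import Pool.Agent.Helper21.UV.Ideal
import Pool.Agent.Helper21.UV.Mom
import Pool.Agent.Helper21.UV.Len

/-!
# The ideal probe tree, with a bound for the number of probes
-/

set_option autoImplicit false
set_option linter.unusedSectionVars false

open Finset
open scoped BigOperators

namespace Pool.Agent.Helper21.UV

open Pool.Agent.Helper22.ETModel Pool.Agent.Helper8.VT Pool.Agent.Helper8.UV

section
variable {n m q P : ℕ}

theorem tree_upL {d : ℕ} (T : Tree n d) :
    ∃ T' : Tree n (d + 1), ∀ w, T'.eval w = T.eval w ∧ tlen T' w = tlen T w := by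
  induction T with
  | leaf v => exact ⟨.leaf v, fun w => ⟨rfl, rfl⟩⟩
  | node i j next ih =>
    choose T' hT' using ih
    exact ⟨.node i j T', fun w => ⟨(hT' (w i j) w).1, congrArg (· + 1) (hT' (w i j) w).2⟩⟩

theorem tree_up_leL {d d' : ℕ} (h : d ≤ d') (T : Tree n d) :
    ∃ T' : Tree n d', ∀ w, T'.eval w = T.eval w ∧ tlen T' w = tlen T w := by
  induction h with
  | refl => exact ⟨T, fun _ => ⟨rfl, rfl⟩⟩
  | step _ ih =>
    obtain ⟨T1, h1⟩ := ih
    obtain ⟨T2, h2⟩ := tree_upL T1
    exact ⟨T2, fun w => ⟨(h2 w).1.trans (h1 w).1, (h2 w).2.trans (h1 w).2⟩⟩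

variable [NeZero q]

/-- Reading a variable. -/
theorem tree_readL (h9 : 9 * m ≤ n) (μ : Key m → Fin (10 * P)) {d : ℕ} (e : Key m)
    (T' : ZMod q → Tree n d) : ∃ T : Tree n (d + 1), ∀ X Y Z : Cfg m q,
      T.eval (WM n P μ X Y Z) = (T' (val3 X Y Z e)).eval (WM n P μ X Y Z) ∧
      tlen T (WM n P μ X Y Z) = tlen (T' (val3 X Y Z e)) (WM n P μ X Y Z) + 1 := by
  obtain ⟨u, v, c, hc⟩ := exists_cell (n := n) h9 e
  refine ⟨.node u v (fun z => T' ((z + cpy m q u v - mac q P μ e : ℤ) : ZMod q)), ?_⟩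
  intro X Y Z
  simp only [Tree.eval, tlen]
  rw [recover μ X Y Z u v e c hc]
  exact ⟨rfl, rfl⟩

/-- The statement of the induction. -/
def HasIdealL (n : ℕ) {m q P : ℕ} (c1 : ℕ) (μ : Key m → Fin (10 * P)) {B D : ℕ}
    (t : LTree n B D) : Prop :=
  ∀ (A : Finset (Key m)) (v0 : Key m → ZMod q), ∃ T : Tree n (B + c1 * D), ∀ X Y Z : Cfg m q,
    (∀ e ∈ A, val3 X Y Z e = v0 e) →
      (¬ t.exc c1 q P μ (WM n P μ X Y Z) A → T.eval (WM n P μ X Y Z) = t.eval (WM n P μ X Y Z)) ∧
      ∃ S : ℕ, tlen T (WM n P μ X Y Z) ≤ B + S ∧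
        (20 / 19 : ℝ) ^ S ≤ t.mom c1 P μ (WM n P μ X Y Z) A

/-- The reading phase. -/
theorem ideal_phaseL (h9 : 9 * m ≤ n) (c1 : ℕ) (μ : Key m → Fin (10 * P)) {B D : ℕ} (c₀ : ℝ)
    (c : Fin n → Fin n → ℝ) (next : Bool → LTree n B D)
    (ih : ∀ b, HasIdealL (q := q) n c1 μ (next b)) :
    ∀ (f : ℕ) (A : Finset (Key m)) (v0 : Key m → ZMod q),
      ∃ T : Tree n (B + c1 * D + f), ∀ X Y Z : Cfg m q,
        (∀ e ∈ A, val3 X Y Z e = v0 e) →
        (¬ phase q P μ (coef m c) (aff c₀ c (WM n P μ X Y Z))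
          (fun A' => (next (decide (0 ≤ aff c₀ c (WM n P μ X Y Z)))).exc c1 q P μ
            (WM n P μ X Y Z) A') f A →
        T.eval (WM n P μ X Y Z) =
          (next (decide (0 ≤ aff c₀ c (WM n P μ X Y Z)))).eval (WM n P μ X Y Z)) ∧
        ∃ S : ℕ, tlen T (WM n P μ X Y Z) ≤ B + S ∧
          (20 / 19 : ℝ) ^ S ≤ phaseM P μ (coef m c)
            (fun A' => ∑ b : Bool, (next b).mom c1 P μ (WM n P μ X Y Z) A') f A := by
  have hone : ∀ (b : Bool) (w : Wts n) (A : Finset (Key m)),
      (next b).mom c1 P μ w A ≤ ∑ b : Bool, (next b).mom c1 P μ w A := by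
    intro b w A
    have h1 := one_le_mom c1 μ w (next true) A
    have h2 := one_le_mom c1 μ w (next false) A
    simp only [Fintype.sum_bool]
    cases b <;> linarith
  intro f
  induction f with
  | zero =>
    intro A v0
    refine ⟨.leaf 0, fun X Y Z _ => ⟨fun h => absurd trivial h, 0, Nat.zero_le _, ?_⟩⟩
    simp [phaseM]
  | succ f ihf =>
    intro A v0
    rcases htop : top (coef m c) A with _ | e
    · obtain ⟨T0, hT0⟩ := ih (decide (0 ≤ idl m q P c₀ c μ A v0)) A v0
      obtain ⟨T, hT⟩ := tree_up_leL (show B + c1 * D ≤ B + c1 * D + (f + 1) by omega) T0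
      refine ⟨T, fun X Y Z hA => ⟨fun hph => ?_, ?_⟩⟩
      · unfold phase at hph
        rw [htop] at hph
        have heq : aff c₀ c (WM n P μ X Y Z) = idl m q P c₀ c μ A v0 := by
          have h := idl_diff c₀ c μ A v0 X Y Z hA 0 le_rfl (fun e he => by
            rw [top_none htop e he, abs_zero])
          rw [mul_zero, zero_mul] at h
          exact sub_eq_zero.1 (abs_nonpos_iff.1 h)
        simp only [heq] at hph ⊢
        rw [(hT _).1]
        exact (hT0 X Y Z hA).1 hph
      · obtain ⟨S, hS1, hS2⟩ := (hT0 X Y Z hA).2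
        refine ⟨S, by rw [(hT _).2]; exact hS1, hS2.trans ?_⟩
        unfold phaseM
        rw [htop]
        exact hone _ _ _
    · obtain ⟨he1, he2, he3⟩ := top_some htop
      by_cases hbig : (μ e : ℕ) < P
      · choose T' hT' using fun z : ZMod q => ih
          (decide (0 ≤ idl m q P c₀ c μ (insert e A) (Function.update v0 e z)))
          (insert e A) (Function.update v0 e z)
        obtain ⟨T0, hT0⟩ := tree_readL h9 μ e T'
        obtain ⟨T, hT⟩ := tree_up_leL
          (show B + c1 * D + 1 ≤ B + c1 * D + (f + 1) by omega) T0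
        refine ⟨T, fun X Y Z hA => ⟨fun hph => ?_, ?_⟩⟩
        · unfold phase at hph
          rw [htop] at hph
          simp only at hph
          rw [if_pos hbig, not_or] at hph
          obtain ⟨hsm, hex⟩ := hph
          push Not at hsm
          have hA' := known_insert A v0 X Y Z hA e
          have hd := idl_diff c₀ c μ (insert e A) (Function.update v0 e (val3 X Y Z e)) X Y Z hA'
            |coef m c e| (abs_nonneg _) (fun e' he' => he3 e' (fun h =>
              he' (Finset.mem_insert_of_mem h)))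
          have hb : decide (0 ≤ idl m q P c₀ c μ (insert e A)
              (Function.update v0 e (val3 X Y Z e))) =
              decide (0 ≤ aff c₀ c (WM n P μ X Y Z)) := by
            apply decide_eq_decide.2
            rw [abs_le] at hd
            rcases lt_abs.1 hsm with h | h
            · constructor <;> intro _ <;> linarith [hd.1, hd.2, abs_nonneg (coef m c e)]
            · constructor <;> intro h' <;> exfalso <;> linarith [hd.1, hd.2]
          rw [(hT _).1, (hT0 X Y Z).1]
          have := (hT' (val3 X Y Z e) X Y Z hA').1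
          rw [hb] at this
          exact this hex
        · have hA' := known_insert A v0 X Y Z hA e
          obtain ⟨S, hS1, hS2⟩ := (hT' (val3 X Y Z e) X Y Z hA').2
          refine ⟨S + 1, by rw [(hT _).2, (hT0 X Y Z).2]; omega, ?_⟩
          unfold phaseM
          rw [htop]
          simp only
          rw [if_pos hbig, pow_succ, mul_comm]
          exact mul_le_mul_of_nonneg_left (hS2.trans (hone _ _ _)) (by norm_num)
      · choose T' hT' using fun z : ZMod q => ihf (insert e A) (Function.update v0 e z)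
        obtain ⟨T, hT⟩ := tree_readL h9 μ e T'
        refine ⟨T, fun X Y Z hA => ⟨fun hph => ?_, ?_⟩⟩
        · unfold phase at hph
          rw [htop] at hph
          simp only at hph
          rw [if_neg hbig] at hph
          rw [(hT X Y Z).1]
          exact (hT' (val3 X Y Z e) X Y Z (known_insert A v0 X Y Z hA e)).1 hph
        · obtain ⟨S, hS1, hS2⟩ := (hT' (val3 X Y Z e) X Y Z (known_insert A v0 X Y Z hA e)).2
          refine ⟨S + 1, by rw [(hT X Y Z).2]; omega, ?_⟩
          unfold phaseM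
          rw [htop]
          simp only
          rw [if_neg hbig, pow_succ, mul_comm]
          exact mul_le_mul_of_nonneg_left hS2 (by norm_num)

theorem hasIdealL (h9 : 9 * m ≤ n) (c1 : ℕ) (μ : Key m → Fin (10 * P)) {B D : ℕ}
    (t : LTree n B D) : HasIdealL (q := q) n c1 μ t := by
  induction t with
  | leaf v =>
    intro A v0
    exact ⟨.leaf v, fun X Y Z _ => ⟨fun _ => rfl, 0, Nat.zero_le _, by simp [LTree.mom]⟩⟩
  | @probe B D i j next ih =>
    intro A v0
    have hd : B + 1 + c1 * D = B + c1 * D + 1 := by omega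
    rw [hd]
    rcases hc : key m i j with _ | ⟨e, c⟩
    · obtain ⟨T0, hT0⟩ := ih (10 * q) A v0
      obtain ⟨T, hT⟩ := tree_upL T0
      refine ⟨T, fun X Y Z hA => ?_⟩
      have hw := WM_none μ X Y Z i j hc
      refine ⟨fun hex => ?_, ?_⟩
      · rw [(hT _).1]
        simp only [LTree.exc, LTree.eval, addKey, hc, hw] at hex ⊢
        exact (hT0 X Y Z hA).1 hex
      · obtain ⟨S, hS1, hS2⟩ := (hT0 X Y Z hA).2
        refine ⟨S, by rw [(hT _).2]; omega, ?_⟩
        simp only [LTree.mom, addKey, hc, hw]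
        exact hS2
    · choose T' hT' using fun z : ℤ => ih z (insert e A)
        (Function.update v0 e ((z + cpy m q i j - mac q P μ e : ℤ) : ZMod q))
      refine ⟨.node i j T', fun X Y Z hA => ?_⟩
      have hkn : ∀ e' ∈ insert e A, val3 X Y Z e' = Function.update v0 e
          ((WM n P μ X Y Z i j + cpy m q i j - mac q P μ e : ℤ) : ZMod q) e' := by
        rw [recover μ X Y Z i j e c hc]
        exact known_insert A v0 X Y Z hA e
      have h := hT' (WM n P μ X Y Z i j) X Y Z hkn
      refine ⟨fun hex => ?_, ?_⟩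
      · simp only [LTree.exc, LTree.eval, Tree.eval, addKey, hc] at hex ⊢
        exact h.1 hex
      · obtain ⟨S, hS1, hS2⟩ := h.2
        refine ⟨S, by simp only [tlen]; omega, ?_⟩
        simp only [LTree.mom, addKey, hc]
        exact hS2
  | @sign B D c₀ c next ih =>
    intro A v0
    have hd : B + c1 * (D + 1) = B + c1 * D + c1 := by ring
    rw [hd]
    obtain ⟨T, hT⟩ := ideal_phaseL h9 c1 μ c₀ c next ih c1 A v0
    exact ⟨T, fun X Y Z hA => ⟨fun hex => (hT X Y Z hA).1 hex, (hT X Y Z hA).2⟩⟩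

/-- The ideal probe tree. -/
theorem idealL (h9 : 9 * m ≤ n) (c1 : ℕ) (μ : Key m → Fin (10 * P)) {B D : ℕ}
    (t : LTree n B D) : ∃ T : Tree n (B + c1 * D), ∀ X Y Z : Cfg m q,
      (¬ t.exc c1 q P μ (WM n P μ X Y Z) ∅ →
        T.eval (WM n P μ X Y Z) = t.eval (WM n P μ X Y Z)) ∧
      ∃ S : ℕ, tlen T (WM n P μ X Y Z) ≤ B + S ∧
        (20 / 19 : ℝ) ^ S ≤ t.mom c1 P μ (WM n P μ X Y Z) ∅ := by
  obtain ⟨T, hT⟩ := hasIdealL (q := q) h9 c1 μ t ∅ (fun _ => 0)
  exact ⟨T, fun X Y Z => hT X Y Z (fun e he => absurd he (Finset.notMem_empty e))⟩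

end

end Pool.Agent.Helper21.UV
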