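import Pool.Agent.Helper8.UV.Defs
import Pool.Agent.Helper8.UV.Box
import Pool.Agent.Helper8.VT.LowerL

/-!
# Threshold circuits with unbounded weights: the main inequality for a general law of the boxes

The two values of each of the planted weights are a uniform element of a finite set `S` of pairs.
-/

set_option autoImplicit false
set_option linter.unusedSectionVars false

open Finset
open scoped BigOperators

namespace Pool.Agent.Helper21.UV

open Pool.Agent.Helper22.ETModel Pool.Agent.Helper8.VT Pool.Agent.Helper8.UV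
open Pool.Agent.Helper8.VS (ind ind_nonneg ind_le_one ind_true ind_false)

section
variable {m Q : ℕ} [NeZero Q]

/-- Structures: base weights and two values for three of the five planted weights. -/
abbrev Fn (m Q : ℕ) : Type := Cfg m Q → Cfg m Q → Cfg m Q → (Bool → ZMod Q) → (Bool → ZMod Q) →
  (Bool → ZMod Q) → ℝ

/-- Average over the structures. -/
noncomputable def av (S : Finset (Bool → ZMod Q)) (f : Fn m Q) : ℝ :=
  𝔼 X, 𝔼 Y, 𝔼 Z, 𝔼 x ∈ S, 𝔼 a ∈ S, 𝔼 a' ∈ S, f X Y Z x a a'

theorem av_mono (S : Finset (Bool → ZMod Q)) (f g : Fn m Q)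
    (h : ∀ X Y Z, ∀ x ∈ S, ∀ a ∈ S, ∀ a' ∈ S, f X Y Z x a a' ≤ g X Y Z x a a') :
    av S f ≤ av S g :=
  Finset.expect_le_expect fun X _ => Finset.expect_le_expect fun Y _ =>
    Finset.expect_le_expect fun Z _ => Finset.expect_le_expect fun x hx =>
      Finset.expect_le_expect fun a ha => Finset.expect_le_expect fun a' ha' =>
        h X Y Z x hx a ha a' ha'

theorem av_const (S : Finset (Bool → ZMod Q)) (hS : S.Nonempty) (c : ℝ) :
    av S (fun _ _ _ _ _ _ => c : Fn m Q) = c := by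
  unfold av
  simp only [Finset.expect_const hS, Finset.expect_const Finset.univ_nonempty]

theorem av_add (S : Finset (Bool → ZMod Q)) (f g : Fn m Q) :
    av S (fun X Y Z x a a' => f X Y Z x a a' + g X Y Z x a a') = av S f + av S g := by
  unfold av
  simp only [Finset.expect_add_distrib]

theorem av_sub (S : Finset (Bool → ZMod Q)) (f g : Fn m Q) :
    av S (fun X Y Z x a a' => f X Y Z x a a' - g X Y Z x a a') = av S f - av S g := by
  unfold av
  simp only [Finset.expect_sub_distrib]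

theorem av_sum {ι : Type} (S : Finset (Bool → ZMod Q)) (s : Finset ι) (f : ι → Fn m Q) :
    av S (fun X Y Z x a a' => ∑ i ∈ s, f i X Y Z x a a') = ∑ i ∈ s, av S (f i) := by
  unfold av
  simp only [Finset.expect_sum_comm]

theorem av_nonneg (S : Finset (Bool → ZMod Q)) (f : Fn m Q)
    (h : ∀ X Y Z x a a', 0 ≤ f X Y Z x a a') : 0 ≤ av S f :=
  Finset.expect_nonneg fun _ _ => Finset.expect_nonneg fun _ _ => Finset.expect_nonneg fun _ _ =>
    Finset.expect_nonneg fun _ _ => Finset.expect_nonneg fun _ _ => Finset.expect_nonneg fun _ _ =>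
      h _ _ _ _ _ _

/-- Symmetry of the law of the boxes. -/
theorem expect_not (S : Finset (Bool → ZMod Q)) (hnot : ∀ u ∈ S, (fun p => u (!p)) ∈ S)
    (f : (Bool → ZMod Q) → ℝ) : 𝔼 x ∈ S, f (fun p => x (!p)) = 𝔼 x ∈ S, f x := by
  unfold Finset.expect
  congr 1
  refine Finset.sum_nbij' (fun x p => x (!p)) (fun x p => x (!p)) ?_ ?_ ?_ ?_ ?_
  · exact hnot
  · exact hnot
  · intro x _; funext p; simp
  · intro x _; funext p; simp
  · intro x _; rfl

theorem av_swap (S : Finset (Bool → ZMod Q)) (hnot : ∀ u ∈ S, (fun p => u (!p)) ∈ S)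
    (f : Fn m Q) :
    av S (fun X Y Z x a a' => f X Y Z (fun p => x (!p)) (fun p => a' (!p)) (fun p => a (!p))) =
      av S f := by
  unfold av
  refine Finset.expect_congr rfl fun X _ => Finset.expect_congr rfl fun Y _ =>
    Finset.expect_congr rfl fun Z _ => ?_
  rw [expect_not S hnot (fun x => 𝔼 a ∈ S, 𝔼 a' ∈ S, f X Y Z x (fun p => a' (!p))
    (fun p => a (!p)))]
  refine Finset.expect_congr rfl fun x _ => ?_
  rw [expect_not S hnot (fun a => 𝔼 a' ∈ S, f X Y Z x (fun p => a' (!p)) a), Finset.expect_comm]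
  rw [expect_not S hnot (fun a => 𝔼 a' ∈ S, f X Y Z x a a')]

/-- The capacity for a general law of the boxes. -/
noncomputable def capS (S : Finset (Bool → ZMod Q)) (G : Cfg m Q → Cfg m Q → Cfg m Q → ℝ) : ℝ :=
  ∑ i, ∑ j, ∑ k, ∑ k' ∈ univ.erase k,
    av S (fun X Y Z x a a' => ind (ev G i j k k' X Y Z x a a'))

theorem cap_eq (G : Cfg m Q → Cfg m Q → Cfg m Q → ℝ) : cap G = capS univ G := by
  unfold cap capS av ind
  refine Finset.sum_congr rfl fun i _ => Finset.sum_congr rfl fun j _ =>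
    Finset.sum_congr rfl fun k _ => Finset.sum_congr rfl fun k' _ => ?_
  rfl

theorem capS_nonneg (S : Finset (Bool → ZMod Q)) (G : Cfg m Q → Cfg m Q → Cfg m Q → ℝ) :
    0 ≤ capS S G :=
  Finset.sum_nonneg fun _ _ => Finset.sum_nonneg fun _ _ => Finset.sum_nonneg fun _ _ =>
    Finset.sum_nonneg fun _ _ => av_nonneg _ _ fun _ _ _ _ _ _ => ind_nonneg _

/-- The updated weights. -/
def upX (i j : Fin m) (X : Cfg m Q) (u : ZMod Q) : Cfg m Q := Function.update X (i, j) u

def upY (j k k' : Fin m) (Y : Cfg m Q) (v v' : ZMod Q) : Cfg m Q :=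
  Function.update (Function.update Y (j, k) v) (j, k') v'

def upZ (i k k' : Fin m) (Z : Cfg m Q) (w w' : ZMod Q) : Cfg m Q :=
  Function.update (Function.update Z (k, i) w) (k', i) w'

theorem F5_eq (G : Cfg m Q → Cfg m Q → Cfg m Q → ℝ) (i j k k' : Fin m) (X Y Z : Cfg m Q)
    (u v w v' w' : ZMod Q) :
    F5 G i j k k' X Y Z u v w v' w' = G (upX i j X u) (upY j k k' Y v v') (upZ i k k' Z w w') :=
  rfl

/-- Exchange of the two triangles. -/
theorem F5_swap (G : Cfg m Q → Cfg m Q → Cfg m Q → ℝ) (i j k k' : Fin m) (hk : k ≠ k')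
    (X Y Z : Cfg m Q) (u v w v' w' : ZMod Q) :
    F5 G i j k' k X Y Z u v w v' w' = F5 G i j k k' X Y Z u v' w' v w := by
  unfold F5
  have h1 : (j, k') ≠ (j, k) := by simpa using hk.symm
  have h2 : (k', i) ≠ (k, i) := by simpa using hk.symm
  rw [Function.update_comm h1, Function.update_comm h2]

/-- The second alternative in `R3` is `ev` for the exchanged structure. -/
theorem ev_swap (G : Cfg m Q → Cfg m Q → Cfg m Q → ℝ) (i j k k' : Fin m) (hk : k ≠ k')
    (X Y Z : Cfg m Q) (x a a' : Bool → ZMod Q) :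
    ev G i j k' k X Y Z (fun p => x (!p)) (fun p => a' (!p)) (fun p => a (!p)) ↔
      ∃ q r, D3 (fun u v w => F5 G i j k k' X Y Z u (a q) (vb x a r) v w) x a' (vb' x a') ≠ 0 := by
  unfold ev
  have e1 : vb (fun p => x (!p)) (fun p => a' (!p)) = vb' x a' := by
    funext r
    simp [vb, vb']
  have e2 : ∀ t, vb' (fun p => x (!p)) (fun p => a (!p)) t = vb x a t := by
    intro t
    simp [vb, vb']
  have key : ∀ s t, D3 (fun u v w => F5 G i j k' k X Y Z u v w (a (!s))
      (vb' (fun p => x (!p)) (fun p => a (!p)) t)) (fun p => x (!p)) (fun p => a' (!p))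
      (vb (fun p => x (!p)) (fun p => a' (!p))) =
      D3 (fun u v w => F5 G i j k k' X Y Z u (a (!s)) (vb x a t) v w) x a' (vb' x a') := by
    intro s t
    rw [D3_not_x, D3_not_a, neg_neg, e1, e2]
    congr 1
    funext u v w
    exact F5_swap G i j k k' hk X Y Z u v w _ _
  constructor
  · rintro ⟨s, t, h⟩
    rw [key] at h
    exact ⟨!s, t, h⟩
  · rintro ⟨q, r, h⟩
    refine ⟨!q, r, ?_⟩
    rw [key, Bool.not_not]
    exact h

/-! ### No-vertices are no-instances with high probability -/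

theorem av_le_X (S : Finset (Bool → ZMod Q)) (hS : S.Nonempty) (f : Fn m Q) (c : ℝ)
    (h : ∀ Y Z x a a', 𝔼 X, f X Y Z x a a' ≤ c) : av S f ≤ c := by
  have e : av S f = 𝔼 Y, 𝔼 Z, 𝔼 x ∈ S, 𝔼 a ∈ S, 𝔼 a' ∈ S, 𝔼 X, f X Y Z x a a' := by
    unfold av
    rw [Finset.expect_comm]
    refine Finset.expect_congr rfl fun Y _ => ?_
    rw [Finset.expect_comm]
    refine Finset.expect_congr rfl fun Z _ => ?_
    rw [Finset.expect_comm]
    refine Finset.expect_congr rfl fun x _ => ?_
    rw [Finset.expect_comm]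
    refine Finset.expect_congr rfl fun a _ => ?_
    rw [Finset.expect_comm]
  rw [e]
  exact Finset.expect_le Finset.univ_nonempty fun Y _ => Finset.expect_le Finset.univ_nonempty
    fun Z _ => Finset.expect_le hS fun x _ => Finset.expect_le hS fun a _ =>
      Finset.expect_le hS fun a' _ => h Y Z x a a'

theorem av_le_Y (S : Finset (Bool → ZMod Q)) (hS : S.Nonempty) (f : Fn m Q) (c : ℝ)
    (h : ∀ X Z x a a', 𝔼 Y, f X Y Z x a a' ≤ c) : av S f ≤ c := by
  have e : av S f = 𝔼 X, 𝔼 Z, 𝔼 x ∈ S, 𝔼 a ∈ S, 𝔼 a' ∈ S, 𝔼 Y, f X Y Z x a a' := by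
    unfold av
    refine Finset.expect_congr rfl fun X _ => ?_
    rw [Finset.expect_comm]
    refine Finset.expect_congr rfl fun Z _ => ?_
    rw [Finset.expect_comm]
    refine Finset.expect_congr rfl fun x _ => ?_
    rw [Finset.expect_comm]
    refine Finset.expect_congr rfl fun a _ => ?_
    rw [Finset.expect_comm]
  rw [e]
  exact Finset.expect_le Finset.univ_nonempty fun X _ => Finset.expect_le Finset.univ_nonempty
    fun Z _ => Finset.expect_le hS fun x _ => Finset.expect_le hS fun a _ =>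
      Finset.expect_le hS fun a' _ => h X Z x a a'

theorem av_x (S : Finset (Bool → ZMod Q)) (hS : S.Nonempty) (f : (Bool → ZMod Q) → ℝ) :
    av S (fun _ _ _ x _ _ => f x : Fn m Q) = 𝔼 x ∈ S, f x := by
  unfold av
  simp only [Finset.expect_const hS, Finset.expect_const Finset.univ_nonempty]

theorem av_a (S : Finset (Bool → ZMod Q)) (hS : S.Nonempty) (f : (Bool → ZMod Q) → ℝ) :
    av S (fun _ _ _ _ a _ => f a : Fn m Q) = 𝔼 x ∈ S, f x := by
  unfold av
  simp only [Finset.expect_const hS, Finset.expect_const Finset.univ_nonempty]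

theorem av_a' (S : Finset (Bool → ZMod Q)) (hS : S.Nonempty) (f : (Bool → ZMod Q) → ℝ) :
    av S (fun _ _ _ _ _ a' => f a' : Fn m Q) = 𝔼 x ∈ S, f x := by
  unfold av
  simp only [Finset.expect_const hS, Finset.expect_const Finset.univ_nonempty]

theorem expect_eq_le (S : Finset (Bool → ZMod Q)) (hS : S.Nonempty)
    (heq : ((S.filter fun u => u true = u false).card : ℝ) * Q ≤ S.card) :
    𝔼 u ∈ S, ind (u true = u false) ≤ 1 / Q := by
  have hQ' : (0 : ℝ) < Q := by
    have := NeZero.pos Q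
    exact_mod_cast this
  have hc : (0 : ℝ) < S.card := by exact_mod_cast hS.card_pos
  have e : ∑ u ∈ S, ind (u true = u false) = ((S.filter fun u => u true = u false).card : ℝ) := by
    rw [Finset.card_filter]
    push_cast
    refine Finset.sum_congr rfl fun u _ => ?_
    unfold ind
    split <;> rfl
  rw [Finset.expect_eq_sum_div_card, e, div_le_div_iff₀ hc hQ']
  linarith

/-- The probability that a vertex of the box has a zero triangle. -/
theorem zero_vertex (S : Finset (Bool → ZMod Q)) (hS : S.Nonempty) (i j k k' : Fin m)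
    (p q r s t : Bool)
    (h0 : av S (fun _ _ _ x a _ => ind (x p + a q + vb x a r = 0) : Fn m Q) ≤ 1 / Q)
    (h1 : av S (fun _ _ _ x _ a' => ind (x p + a' s + vb' x a' t = 0) : Fn m Q) ≤ 1 / Q)
    (hk : k ≠ k') :
    av S (fun X Y Z x a a' => ind (Zero (upX i j X (x p)) (upY j k k' Y (a q) (a' s))
      (upZ i k k' Z (vb x a r) (vb' x a' t)))) ≤ (m : ℝ) ^ 3 / Q := by
  set I : Fin m → Fin m → Fin m → Fn m Q := fun i1 j1 k1 X Y Z x a a' =>
    ind (upX i j X (x p) (i1, j1) + upY j k k' Y (a q) (a' s) (j1, k1) +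
      upZ i k k' Z (vb x a r) (vb' x a' t) (k1, i1) = 0) with hI
  have hle : ∀ X Y Z x a a', ind (Zero (upX i j X (x p)) (upY j k k' Y (a q) (a' s))
      (upZ i k k' Z (vb x a r) (vb' x a' t))) ≤ ∑ i1, ∑ j1, ∑ k1, I i1 j1 k1 X Y Z x a a' := by
    intro X Y Z x a a'
    have hn : ∀ i1 j1 k1, 0 ≤ I i1 j1 k1 X Y Z x a a' := fun _ _ _ => ind_nonneg _
    by_cases h : Zero (upX i j X (x p)) (upY j k k' Y (a q) (a' s))
      (upZ i k k' Z (vb x a r) (vb' x a' t))
    · obtain ⟨i1, j1, k1, h'⟩ := id h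
      calc ind (Zero (upX i j X (x p)) (upY j k k' Y (a q) (a' s))
            (upZ i k k' Z (vb x a r) (vb' x a' t))) ≤ 1 := ind_le_one _
        _ = I i1 j1 k1 X Y Z x a a' := (ind_true h').symm
        _ ≤ ∑ k2, I i1 j1 k2 X Y Z x a a' :=
            Finset.single_le_sum (f := fun k2 => I i1 j1 k2 X Y Z x a a') (fun _ _ => hn _ _ _)
              (Finset.mem_univ k1)
        _ ≤ ∑ j2, ∑ k2, I i1 j2 k2 X Y Z x a a' :=
            Finset.single_le_sum (f := fun j2 => ∑ k2, I i1 j2 k2 X Y Z x a a')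
              (fun _ _ => Finset.sum_nonneg fun _ _ => hn _ _ _) (Finset.mem_univ j1)
        _ ≤ _ := Finset.single_le_sum (f := fun i2 => ∑ j2, ∑ k2, I i2 j2 k2 X Y Z x a a')
              (fun _ _ => Finset.sum_nonneg fun _ _ => Finset.sum_nonneg fun _ _ => hn _ _ _)
              (Finset.mem_univ i1)
    · rw [ind_false h]
      exact Finset.sum_nonneg fun _ _ => Finset.sum_nonneg fun _ _ =>
        Finset.sum_nonneg fun _ _ => hn _ _ _
  have hone : ∀ i1 j1 k1, av S (I i1 j1 k1) ≤ 1 / Q := by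
    intro i1 j1 k1
    by_cases h2 : (i1, j1) = (i, j)
    · obtain ⟨rfl, rfl⟩ := Prod.mk.injEq _ _ _ _ ▸ h2
      by_cases h3 : k1 = k
      · subst h3
        refine le_trans (le_of_eq ?_) h0
        congr 1
        funext X Y Z x a a'
        have e1 : upY j1 k1 k' Y (a q) (a' s) (j1, k1) = a q := by
          unfold upY
          rw [Function.update_of_ne (by simpa using hk), Function.update_self]
        have e2 : upZ i1 k1 k' Z (vb x a r) (vb' x a' t) (k1, i1) = vb x a r := by
          unfold upZ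
          rw [Function.update_of_ne (by simpa using hk), Function.update_self]
        simp only [hI, e1, e2, upX, Function.update_self]
      · by_cases h4 : k1 = k'
        · subst h4
          refine le_trans (le_of_eq ?_) h1
          simp only [hI, upX, upY, upZ, Function.update_self]
        · refine av_le_Y S hS _ _ fun X Z x a a' => ?_
          refine le_trans (le_of_eq ?_) (point (j1, k1)
            (-(x p + upZ i1 k k' Z (vb x a r) (vb' x a' t) (k1, i1))))
          refine Finset.expect_congr rfl fun Y _ => ?_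
          simp only [hI, upX, upY, Function.update_self]
          rw [Function.update_of_ne (by simpa using h4), Function.update_of_ne (by simpa using h3)]
          congr 1
          apply propext
          constructor
          · intro h; rw [eq_neg_iff_add_eq_zero, ← h]; ring
          · intro h; rw [h]; ring
    · refine av_le_X S hS _ _ fun Y Z x a a' => ?_
      refine le_trans (le_of_eq ?_) (point (i1, j1)
        (-(upY j k k' Y (a q) (a' s) (j1, k1) + upZ i k k' Z (vb x a r) (vb' x a' t) (k1, i1))))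
      refine Finset.expect_congr rfl fun X _ => ?_
      simp only [hI, upX]
      rw [Function.update_of_ne h2]
      congr 1
      apply propext
      constructor
      · intro h; rw [eq_neg_iff_add_eq_zero, ← h]; ring
      · intro h; rw [h]; ring
  calc av S (fun X Y Z x a a' => ind (Zero (upX i j X (x p)) (upY j k k' Y (a q) (a' s))
      (upZ i k k' Z (vb x a r) (vb' x a' t))))
      ≤ av S (fun X Y Z x a a' => ∑ i1, ∑ j1, ∑ k1, I i1 j1 k1 X Y Z x a a') :=
        av_mono _ _ _ fun X Y Z x _ a _ a' _ => hle X Y Z x a a'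
    _ = ∑ i1, ∑ j1, ∑ k1, av S (I i1 j1 k1) := by simp only [av_sum]
    _ ≤ ∑ _i : Fin m, ∑ _j : Fin m, ∑ _k : Fin m, (1 / Q : ℝ) :=
        Finset.sum_le_sum fun _ _ => Finset.sum_le_sum fun _ _ => Finset.sum_le_sum fun _ _ =>
          hone _ _ _
    _ = (m : ℝ) ^ 3 / Q := by
        simp only [Finset.sum_const, Finset.card_univ, Fintype.card_fin, nsmul_eq_mul]
        ring

theorem no0 (S : Finset (Bool → ZMod Q)) (hS : S.Nonempty)
    (heq : ((S.filter fun u => u true = u false).card : ℝ) * Q ≤ S.card) (i j k k' : Fin m)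
    (hk : k ≠ k') (q s : Bool) :
    av S (fun X Y Z x a a' => ind (Zero (upX i j X (x false)) (upY j k k' Y (a q) (a' s))
      (upZ i k k' Z (vb x a (!q)) (vb' x a' (!s))))) ≤ (m : ℝ) ^ 3 / Q := by
  refine zero_vertex S hS i j k k' false q (!q) s (!s) ?_ ?_ hk
  · refine le_trans (le_of_eq ?_) (expect_eq_le S hS heq)
    rw [← av_x (m := m) S hS (fun u => ind (u true = u false))]
    congr 1
    funext X Y Z x a a'
    congr 1
    apply propext
    simp only [vb, Bool.not_not]
    constructor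
    · intro h; linear_combination -h
    · intro h; linear_combination -h
  · refine le_trans (le_of_eq ?_) (expect_eq_le S hS heq)
    rw [← av_a' (m := m) S hS (fun u => ind (u true = u false))]
    congr 1
    funext X Y Z x a a'
    congr 1
    apply propext
    simp only [vb']
    cases s
    · simp only [Bool.not_false]
      constructor
      · intro h; linear_combination -h
      · intro h; linear_combination -h
    · simp only [Bool.not_true]
      constructor
      · intro h; linear_combination h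
      · intro h; linear_combination h

theorem no1 (S : Finset (Bool → ZMod Q)) (hS : S.Nonempty)
    (heq : ((S.filter fun u => u true = u false).card : ℝ) * Q ≤ S.card) (i j k k' : Fin m)
    (hk : k ≠ k') (q s : Bool) :
    av S (fun X Y Z x a a' => ind (Zero (upX i j X (x true)) (upY j k k' Y (a q) (a' s))
      (upZ i k k' Z (vb x a q) (vb' x a' s)))) ≤ (m : ℝ) ^ 3 / Q := by
  refine zero_vertex S hS i j k k' true q q s s ?_ ?_ hk
  · refine le_trans (le_of_eq ?_) (expect_eq_le S hS heq)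
    rw [← av_a (m := m) S hS (fun u => ind (u true = u false))]
    congr 1
    funext X Y Z x a a'
    congr 1
    apply propext
    simp only [vb]
    cases q
    · simp only [Bool.not_false]
      constructor
      · intro h; linear_combination -h
      · intro h; linear_combination -h
    · simp only [Bool.not_true]
      constructor
      · intro h; linear_combination h
      · intro h; linear_combination h
  · refine le_trans (le_of_eq ?_) (expect_eq_le S hS heq)
    rw [← av_x (m := m) S hS (fun u => ind (u true = u false))]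
    congr 1
    funext X Y Z x a a'
    congr 1
    apply propext
    simp only [vb']
    constructor
    · intro h; linear_combination h
    · intro h; linear_combination h

/-! ### The main inequality -/

theorem av_smul (S : Finset (Bool → ZMod Q)) (c : ℝ) (f : Fn m Q) :
    av S (fun X Y Z x a a' => c * f X Y Z x a a') = c * av S f := by
  unfold av
  simp only [← Finset.mul_expect]

end

section
variable {n m Q : ℕ} [NeZero Q]

/-- The instance at a vertex of the box. -/
def vtx (n : ℕ) (i j k k' : Fin m) (X Y Z : Cfg m Q) (x a a' : Bool → ZMod Q)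
    (p q r s t : Bool) : Inst n :=
  mkInst n (upX i j X (x p)) (upY j k k' Y (a q) (a' s)) (upZ i k k' Z (vb x a r) (vb' x a' t))

/-- The circuit is wrong on the instance. -/
def Wrong {ι : Type} [Fintype ι] (H : ι → Inst n → ℝ) (I : Inst n) : Prop :=
  ¬ (0 < ∑ s, H s I ↔ I.Yes)

/-- The voters as functions of the random weights. -/
def GG (n : ℕ) (H : Inst n → ℝ) : Cfg m Q → Cfg m Q → Cfg m Q → ℝ := fun X Y Z =>
  H (mkInst n X Y Z)

/-- The terms for the vertices. -/
noncomputable def term {ι : Type} [Fintype ι] (H : ι → Inst n → ℝ) (i j k k' : Fin m)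
    (X Y Z : Cfg m Q) (x a a' : Bool → ZMod Q) (q s : Bool) : ℝ :=
  ind (Wrong H (vtx n i j k k' X Y Z x a a' false q (!q) s (!s))) +
    ind (Wrong H (vtx n i j k k' X Y Z x a a' true q q s s)) +
    ind (Wrong H (vtx n i j k k' X Y Z x a a' false q q s s)) +
    ind (Wrong H (vtx n i j k k' X Y Z x a a' true q (!q) s (!s)))

noncomputable def termZ (i j k k' : Fin m)
    (X Y Z : Cfg m Q) (x a a' : Bool → ZMod Q) (q s : Bool) : ℝ :=
  ind (Zero (upX i j X (x false)) (upY j k k' Y (a q) (a' s))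
      (upZ i k k' Z (vb x a (!q)) (vb' x a' (!s)))) +
    ind (Zero (upX i j X (x true)) (upY j k k' Y (a q) (a' s))
      (upZ i k k' Z (vb x a q) (vb' x a' s)))

/-- The other alternative. -/
def ev2 (G : Cfg m Q → Cfg m Q → Cfg m Q → ℝ) (i j k k' : Fin m) (X Y Z : Cfg m Q)
    (x a a' : Bool → ZMod Q) : Prop :=
  ev G i j k' k X Y Z (fun p => x (!p)) (fun p => a' (!p)) (fun p => a (!p))

theorem le_sum_bool (f : Bool → Bool → ℝ) (hf : ∀ q s, 0 ≤ f q s) (q s : Bool) :
    f q s ≤ ∑ q, ∑ s, f q s :=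
  (Finset.single_le_sum (f := fun s => f q s) (fun _ _ => hf _ _) (Finset.mem_univ s)).trans
    (Finset.single_le_sum (f := fun q => ∑ s, f q s)
      (fun _ _ => Finset.sum_nonneg fun _ _ => hf _ _) (Finset.mem_univ q))

theorem pointwise (h9 : 9 * m ≤ n) {ι : Type} [Fintype ι]
    (H : ι → Inst n → ℝ) (i j k k' : Fin m) (hk : k ≠ k') (X Y Z : Cfg m Q)
    (x a a' : Bool → ZMod Q) :
    1 ≤ (∑ q, ∑ s, term H i j k k' X Y Z x a a' q s) +
      (∑ q, ∑ s, termZ i j k k' X Y Z x a a' q s) +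
      ∑ σ, (ind (ev (GG n (H σ)) i j k k' X Y Z x a a') +
        ind (ev2 (GG n (H σ)) i j k k' X Y Z x a a')) := by
  have n0 : ∀ p : Prop, 0 ≤ ind p := ind_nonneg
  have hlt : ∀ p : Prop, ind p < 1 → ¬ p := fun p h hp => by
    rw [ind_true hp] at h; exact lt_irrefl _ h
  have hT0 : ∀ q s, 0 ≤ term H i j k k' X Y Z x a a' q s := fun q s => by
    unfold term
    exact add_nonneg (add_nonneg (add_nonneg (n0 _) (n0 _)) (n0 _)) (n0 _)
  have hZ0 : ∀ q s, 0 ≤ termZ i j k k' X Y Z x a a' q s := fun q s => by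
    unfold termZ
    exact add_nonneg (n0 _) (n0 _)
  have hE0 : ∀ σ, 0 ≤ ind (ev (GG n (H σ)) i j k k' X Y Z x a a') +
        ind (ev2 (GG n (H σ)) i j k k' X Y Z x a a') := fun σ => add_nonneg (n0 _) (n0 _)
  by_contra hcon
  push Not at hcon
  have sT := Finset.sum_nonneg fun q (_ : q ∈ (univ : Finset Bool)) =>
    Finset.sum_nonneg fun s (_ : s ∈ (univ : Finset Bool)) => hT0 q s
  have sZ := Finset.sum_nonneg fun q (_ : q ∈ (univ : Finset Bool)) =>
    Finset.sum_nonneg fun s (_ : s ∈ (univ : Finset Bool)) => hZ0 q s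
  have sE := Finset.sum_nonneg fun σ (_ : σ ∈ (univ : Finset ι)) => hE0 σ
  have tl : ∀ q s, term H i j k k' X Y Z x a a' q s < 1 := fun q s =>
    lt_of_le_of_lt (le_sum_bool _ hT0 q s) (by linarith)
  have zl : ∀ q s, termZ i j k k' X Y Z x a a' q s < 1 := fun q s =>
    lt_of_le_of_lt (le_sum_bool _ hZ0 q s) (by linarith)
  have el : ∀ σ, ind (ev (GG n (H σ)) i j k k' X Y Z x a a') +
        ind (ev2 (GG n (H σ)) i j k k' X Y Z x a a') < 1 := fun σ =>
    lt_of_le_of_lt (Finset.single_le_sum (f := fun σ => ind (ev (GG n (H σ)) i j k k' X Y Z x a a') +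
        ind (ev2 (GG n (H σ)) i j k k' X Y Z x a a')) (fun σ _ => hE0 σ) (Finset.mem_univ σ))
      (by linarith)
  have t1 : ∀ q s, ¬ Wrong H (vtx n i j k k' X Y Z x a a' false q (!q) s (!s)) := fun q s => by
    refine hlt _ (lt_of_le_of_lt ?_ (tl q s))
    unfold term
    linarith [n0 (Wrong H (vtx n i j k k' X Y Z x a a' true q q s s)),
      n0 (Wrong H (vtx n i j k k' X Y Z x a a' false q q s s)),
      n0 (Wrong H (vtx n i j k k' X Y Z x a a' true q (!q) s (!s)))]
  have t2 : ∀ q s, ¬ Wrong H (vtx n i j k k' X Y Z x a a' true q q s s) := fun q s => by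
    refine hlt _ (lt_of_le_of_lt ?_ (tl q s))
    unfold term
    linarith [n0 (Wrong H (vtx n i j k k' X Y Z x a a' false q (!q) s (!s))),
      n0 (Wrong H (vtx n i j k k' X Y Z x a a' false q q s s)),
      n0 (Wrong H (vtx n i j k k' X Y Z x a a' true q (!q) s (!s)))]
  have t3 : ∀ q s, ¬ Wrong H (vtx n i j k k' X Y Z x a a' false q q s s) := fun q s => by
    refine hlt _ (lt_of_le_of_lt ?_ (tl q s))
    unfold term
    linarith [n0 (Wrong H (vtx n i j k k' X Y Z x a a' false q (!q) s (!s))),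
      n0 (Wrong H (vtx n i j k k' X Y Z x a a' true q q s s)),
      n0 (Wrong H (vtx n i j k k' X Y Z x a a' true q (!q) s (!s)))]
  have t4 : ∀ q s, ¬ Wrong H (vtx n i j k k' X Y Z x a a' true q (!q) s (!s)) := fun q s => by
    refine hlt _ (lt_of_le_of_lt ?_ (tl q s))
    unfold term
    linarith [n0 (Wrong H (vtx n i j k k' X Y Z x a a' false q (!q) s (!s))),
      n0 (Wrong H (vtx n i j k k' X Y Z x a a' true q q s s)),
      n0 (Wrong H (vtx n i j k k' X Y Z x a a' false q q s s))]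
  have z1 : ∀ q s, ¬ Zero (upX i j X (x false)) (upY j k k' Y (a q) (a' s))
      (upZ i k k' Z (vb x a (!q)) (vb' x a' (!s))) := fun q s => by
    refine hlt _ (lt_of_le_of_lt ?_ (zl q s))
    unfold termZ
    linarith [n0 (Zero (upX i j X (x true)) (upY j k k' Y (a q) (a' s))
      (upZ i k k' Z (vb x a q) (vb' x a' s)))]
  have z2 : ∀ q s, ¬ Zero (upX i j X (x true)) (upY j k k' Y (a q) (a' s))
      (upZ i k k' Z (vb x a q) (vb' x a' s)) := fun q s => by
    refine hlt _ (lt_of_le_of_lt ?_ (zl q s))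
    unfold termZ
    linarith [n0 (Zero (upX i j X (x false)) (upY j k k' Y (a q) (a' s))
      (upZ i k k' Z (vb x a (!q)) (vb' x a' (!s))))]
  have e1 : ∀ σ, ¬ ev (GG n (H σ)) i j k k' X Y Z x a a' := fun σ =>
    hlt _ (lt_of_le_of_lt (by linarith [n0 (ev2 (GG n (H σ)) i j k k' X Y Z x a a')]) (el σ))
  have e2 : ∀ σ, ¬ ev2 (GG n (H σ)) i j k k' X Y Z x a a' := fun σ =>
    hlt _ (lt_of_le_of_lt (by linarith [n0 (ev (GG n (H σ)) i j k k' X Y Z x a a')]) (el σ))
  set Φ : ZMod Q → ZMod Q → ZMod Q → ZMod Q → ZMod Q → ℝ := fun u v w v' w' =>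
    ∑ σ, F5 (GG n (H σ)) i j k k' X Y Z u v w v' w' with hΦ
  have hval : ∀ p q r s t, Φ (x p) (a q) (vb x a r) (a' s) (vb' x a' t) =
      ∑ σ, H σ (vtx n i j k k' X Y Z x a a' p q r s t) := by
    intro p q r s t
    rfl
  have hR := R3 Φ x a (vb x a) a' (vb' x a')
    (fun q s => by
      rw [hval]
      by_contra hc
      push Not at hc
      have := t1 q s
      unfold Wrong at this
      rw [not_not] at this
      exact z1 q s (zero_of_yes _ _ _ (this.1 hc)))
    (fun q s => by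
      rw [hval]
      by_contra hc
      push Not at hc
      have := t2 q s
      unfold Wrong at this
      rw [not_not] at this
      exact z2 q s (zero_of_yes _ _ _ (this.1 hc)))
    (fun q s => by
      rw [hval]
      have := t3 q s
      unfold Wrong at this
      rw [not_not] at this
      refine this.2 (yes_of_zero h9 _ _ _ ⟨i, j, k', ?_⟩)
      simp only [upX, upY, upZ, Function.update_self, vb']
      ring)
    (fun q s => by
      rw [hval]
      have := t4 q s
      unfold Wrong at this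
      rw [not_not] at this
      refine this.2 (yes_of_zero h9 _ _ _ ⟨i, j, k, ?_⟩)
      have c1 : (j, k) ≠ (j, k') := by simpa using hk
      have c2 : (k, i) ≠ (k', i) := by simpa using hk
      simp only [upX, upY, upZ]
      rw [Function.update_of_ne c1, Function.update_of_ne c2]
      simp only [Function.update_self, vb, Bool.not_not]
      ring)
  rcases hR with ⟨s, t, h⟩ | ⟨q, r, h⟩
  · simp only [hΦ] at h
    rw [D3_sum] at h
    obtain ⟨σ, _, hσ⟩ := Finset.exists_ne_zero_of_sum_ne_zero h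
    exact e1 σ ⟨s, t, hσ⟩
  · simp only [hΦ] at h
    rw [D3_sum] at h
    obtain ⟨σ, _, hσ⟩ := Finset.exists_ne_zero_of_sum_ne_zero h
    exact e2 σ ((ev_swap _ _ _ _ _ hk _ _ _ _ _ _).2 ⟨q, r, hσ⟩)

theorem av_ev2 (S : Finset (Bool → ZMod Q)) (hnot : ∀ u ∈ S, (fun p => u (!p)) ∈ S)
    (G : Cfg m Q → Cfg m Q → Cfg m Q → ℝ) (i j k k' : Fin m) :
    av S (fun X Y Z x a a' => ind (ev2 G i j k k' X Y Z x a a')) =
      av S (fun X Y Z x a a' => ind (ev G i j k' k X Y Z x a a')) :=
  av_swap S hnot (fun X Y Z x a a' => ind (ev G i j k' k X Y Z x a a'))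

/-- A random circuit is wrong with probability at most `1/20`. -/
theorem wrong_le {Ω : Type} [Fintype Ω] [Nonempty Ω] {ι : Type} [Fintype ι]
    (H : Ω → ι → Inst n → ℝ) (I : Inst n) (h : Decides H I) :
    (∑ ω, ind (Wrong (H ω) I)) / Fintype.card Ω ≤ 1 / 20 := by
  classical
  have hc : (0 : ℝ) < Fintype.card Ω := by exact_mod_cast Fintype.card_pos
  unfold Decides at h
  have h1 : ∑ ω, ind (Wrong (H ω) I) =
      (Fintype.card Ω : ℝ) - ((univ.filter fun ω : Ω => (0 < ∑ s, H ω s I ↔ I.Yes)).card : ℝ) := by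
    have e : ∀ ω, ind (Wrong (H ω) I) = 1 - (if (0 < ∑ s, H ω s I ↔ I.Yes) then (1 : ℝ) else 0) := by
      intro ω
      unfold ind Wrong
      by_cases hh : (0 < ∑ s, H ω s I ↔ I.Yes)
      · rw [if_neg (not_not.2 hh), if_pos hh]; ring
      · rw [if_pos hh, if_neg hh]; ring
    simp only [e, Finset.sum_sub_distrib, Finset.sum_const, Finset.card_univ, nsmul_eq_mul, mul_one]
    rw [Finset.card_filter]
    push_cast
    rfl
  rw [h1, div_le_div_iff₀ hc (by norm_num)]
  have h2 : (19 * Fintype.card Ω : ℝ) ≤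
      20 * ((univ.filter fun ω : Ω => (0 < ∑ s, H ω s I ↔ I.Yes)).card : ℝ) := by
    exact_mod_cast h
  linarith

theorem vtx_valid (hQn : 3 * Q ≤ n ^ 300) (i j k k' : Fin m) (X Y Z : Cfg m Q)
    (x a a' : Bool → ZMod Q) (p q r s t : Bool) :
    (vtx n i j k k' X Y Z x a a' p q r s t).Valid := mkInst_valid hQn _ _ _

/-- The inequality for one pair of triangles. -/
theorem one_pair (S : Finset (Bool → ZMod Q)) (hS : S.Nonempty)
    (hnot : ∀ u ∈ S, (fun p => u (!p)) ∈ S)
    (heq : ((S.filter fun u => u true = u false).card : ℝ) * Q ≤ S.card)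
    (h9 : 9 * m ≤ n) (hQn : 3 * Q ≤ n ^ 300) {Ω : Type} [Fintype Ω] [Nonempty Ω] {ι : Type}
    [Fintype ι] (H : Ω → ι → Inst n → ℝ)
    (hdec : ∀ I : Inst n, I.Valid → Tripartite I → Decides H I) (i j k k' : Fin m)
    (hk : k ≠ k') :
    1 / 5 - 8 * ((m : ℝ) ^ 3 / Q) ≤ (∑ ω, ∑ σ,
      (av S (fun X Y Z x a a' => ind (ev (GG n (H ω σ)) i j k k' X Y Z x a a')) +
        av S (fun X Y Z x a a' => ind (ev (GG n (H ω σ)) i j k' k X Y Z x a a')))) /
          Fintype.card Ω := by
  have hc : (0 : ℝ) < Fintype.card Ω := by exact_mod_cast Fintype.card_pos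
  set N : ℝ := (Fintype.card Ω : ℝ) with hN
  -- pointwise, averaged over the circuits
  have hp : ∀ (X Y Z : Cfg m Q) (x a a' : Bool → ZMod Q),
      1 / 5 ≤ (∑ q, ∑ s, termZ i j k k' X Y Z x a a' q s) +
      N⁻¹ * ∑ ω, ∑ σ, (ind (ev (GG n (H ω σ)) i j k k' X Y Z x a a') +
        ind (ev2 (GG n (H ω σ)) i j k k' X Y Z x a a')) := by
    intro X Y Z x a a'
    have h1 := Finset.sum_le_sum fun ω (_ : ω ∈ (univ : Finset Ω)) =>
      pointwise h9 (H ω) i j k k' hk X Y Z x a a'
    simp only [Finset.sum_add_distrib, Finset.sum_const, Finset.card_univ, nsmul_eq_mul,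
      mul_one, ← hN] at h1
    have h2 : ∑ ω, ∑ q, ∑ s, term (H ω) i j k k' X Y Z x a a' q s ≤ N * (4 / 5) := by
      have e : ∑ ω, ∑ q, ∑ s, term (H ω) i j k k' X Y Z x a a' q s =
          ∑ q, ∑ s, ∑ ω, term (H ω) i j k k' X Y Z x a a' q s := by
        rw [Finset.sum_comm]
        exact Finset.sum_congr rfl fun q _ => Finset.sum_comm
      rw [e]
      have hw : ∀ p q r s t, ∑ ω, ind (Wrong (H ω) (vtx n i j k k' X Y Z x a a' p q r s t)) ≤
          N * (1 / 20) := by
        intro p q r s t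
        have := wrong_le H _ (hdec _ (vtx_valid hQn i j k k' X Y Z x a a' p q r s t)
          (mkInst_tripartite _ _ _))
        rw [div_le_iff₀ hc] at this
        linarith
      have hq : ∀ q s, ∑ ω, term (H ω) i j k k' X Y Z x a a' q s ≤ N * (1 / 5) := by
        intro q s
        unfold term
        simp only [Finset.sum_add_distrib]
        linarith [hw false q (!q) s (!s), hw true q q s s, hw false q q s s,
          hw true q (!q) s (!s)]
      simp only [Fintype.sum_bool]
      linarith [hq true true, hq true false, hq false true, hq false false]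
    have h3 : N * (1 / 5) ≤ N * (∑ q, ∑ s, termZ i j k k' X Y Z x a a' q s) +
        ∑ ω, ∑ σ, (ind (ev (GG n (H ω σ)) i j k k' X Y Z x a a') +
          ind (ev2 (GG n (H ω σ)) i j k k' X Y Z x a a')) := by
      simp only [Finset.sum_add_distrib]
      linarith
    have h4 : N⁻¹ * (N * (1 / 5)) ≤ N⁻¹ * (N * (∑ q, ∑ s, termZ i j k k' X Y Z x a a' q s) +
        ∑ ω, ∑ σ, (ind (ev (GG n (H ω σ)) i j k k' X Y Z x a a') +
          ind (ev2 (GG n (H ω σ)) i j k k' X Y Z x a a'))) :=
      mul_le_mul_of_nonneg_left h3 (inv_nonneg.2 hc.le)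
    rw [mul_add, inv_mul_cancel_left₀ hc.ne', inv_mul_cancel_left₀ hc.ne'] at h4
    exact h4
  have h5 := av_mono S (fun _ _ _ _ _ _ => 1 / 5) _ (fun X Y Z x _ a _ a' _ => hp X Y Z x a a')
  rw [av_const S hS, av_add, av_smul] at h5
  have h6 : av S (fun (X Y Z : Cfg m Q) x a a' => ∑ q, ∑ s, termZ i j k k' X Y Z x a a' q s) ≤
      8 * ((m : ℝ) ^ 3 / Q) := by
    simp only [av_sum]
    have hq : ∀ q s, av S (fun (X Y Z : Cfg m Q) x a a' => termZ i j k k' X Y Z x a a' q s) ≤
        2 * ((m : ℝ) ^ 3 / Q) := by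
      intro q s
      unfold termZ
      rw [av_add]
      linarith [no0 S hS heq i j k k' hk q s, no1 S hS heq i j k k' hk q s]
    simp only [Fintype.sum_bool]
    linarith [hq true true, hq true false, hq false true, hq false false]
  have h7 : av S (fun (X Y Z : Cfg m Q) x a a' => ∑ ω, ∑ σ, (ind (ev (GG n (H ω σ)) i j k k' X Y Z x a a') +
        ind (ev2 (GG n (H ω σ)) i j k k' X Y Z x a a'))) =
      ∑ ω, ∑ σ, (av S (fun X Y Z x a a' => ind (ev (GG n (H ω σ)) i j k k' X Y Z x a a')) +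
        av S (fun X Y Z x a a' => ind (ev (GG n (H ω σ)) i j k' k X Y Z x a a'))) := by
    simp only [av_sum, av_add]
    refine Finset.sum_congr rfl fun ω _ => Finset.sum_congr rfl fun σ _ => ?_
    rw [av_ev2 S hnot]
  rw [h7, ← div_eq_inv_mul] at h5
  linarith

/-- Interchange of sums. -/
theorem sum_sums {Ω ι : Type} [Fintype Ω] [Fintype ι]
    (f : Ω → ι → Fin m → Fin m → Fin m → Fin m → ℝ) :
    ∑ i, ∑ j, ∑ k, ∑ k' ∈ univ.erase k, ∑ ω, ∑ σ, f ω σ i j k k' =
      ∑ ω, ∑ σ, ∑ i, ∑ j, ∑ k, ∑ k' ∈ univ.erase k, f ω σ i j k k' := by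
  have s1 : ∀ i j k, ∑ k' ∈ univ.erase k, ∑ ω, ∑ σ, f ω σ i j k k' =
      ∑ ω, ∑ σ, ∑ k' ∈ univ.erase k, f ω σ i j k k' := fun i j k => by
    rw [Finset.sum_comm]
    exact Finset.sum_congr rfl fun ω _ => Finset.sum_comm
  have s2 : ∀ i j, ∑ k, ∑ ω, ∑ σ, ∑ k' ∈ univ.erase k, f ω σ i j k k' =
      ∑ ω, ∑ σ, ∑ k, ∑ k' ∈ univ.erase k, f ω σ i j k k' := fun i j => by
    rw [Finset.sum_comm]
    exact Finset.sum_congr rfl fun ω _ => Finset.sum_comm
  have s3 : ∀ i, ∑ j, ∑ ω, ∑ σ, ∑ k, ∑ k' ∈ univ.erase k, f ω σ i j k k' =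
      ∑ ω, ∑ σ, ∑ j, ∑ k, ∑ k' ∈ univ.erase k, f ω σ i j k k' := fun i => by
    rw [Finset.sum_comm]
    exact Finset.sum_congr rfl fun ω _ => Finset.sum_comm
  simp only [s1, s2, s3]
  rw [Finset.sum_comm]
  exact Finset.sum_congr rfl fun ω _ => Finset.sum_comm

/-- Exchange of `k` and `k'`. -/
theorem sum_swap (A : Fin m → Fin m → Fin m → Fin m → ℝ) :
    ∑ i, ∑ j, ∑ k, ∑ k' ∈ univ.erase k, (A i j k k' + A i j k' k) =
      2 * ∑ i, ∑ j, ∑ k, ∑ k' ∈ univ.erase k, A i j k k' := by
  have hsw : ∀ (i j : Fin m), ∑ k, ∑ k' ∈ univ.erase k, A i j k' k =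
      ∑ k, ∑ k' ∈ univ.erase k, A i j k k' := by
    intro i j
    refine Finset.sum_comm' ?_
    intro k k'
    simp only [Finset.mem_univ, Finset.mem_erase, true_and, and_true, ne_eq]
    exact ⟨fun h => fun h' => h h'.symm, fun h => fun h' => h h'.symm⟩
  simp only [Finset.sum_add_distrib, hsw]
  ring

theorem sum_const_erase (c : ℝ) :
    ∑ _i : Fin m, ∑ _j : Fin m, ∑ k : Fin m, ∑ _k' ∈ univ.erase k, c =
      (m : ℝ) ^ 3 * (m - 1) * c := by
  rcases Nat.eq_zero_or_pos m with h0 | h0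
  · subst h0; simp
  · simp only [Finset.sum_const, Finset.card_erase_of_mem (Finset.mem_univ _), Finset.card_univ,
      Fintype.card_fin, nsmul_eq_mul]
    rw [Nat.cast_sub h0]
    push_cast
    ring

/-- Summation over all pairs of triangles. -/
theorem sum_pairs {Ω ι : Type} [Fintype Ω] [Fintype ι] (N c : ℝ)
    (A : Ω → ι → Fin m → Fin m → Fin m → Fin m → ℝ)
    (h : ∀ i j k k', k ≠ k' → c ≤ (∑ ω, ∑ σ, (A ω σ i j k k' + A ω σ i j k' k)) / N) :
    (m : ℝ) ^ 3 * (m - 1) * c ≤
      2 * ((∑ ω, ∑ σ, ∑ i, ∑ j, ∑ k, ∑ k' ∈ univ.erase k, A ω σ i j k k') / N) := by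
  rw [← sum_const_erase]
  have h2 := Finset.sum_le_sum fun i (_ : i ∈ (univ : Finset (Fin m))) =>
    Finset.sum_le_sum fun j (_ : j ∈ (univ : Finset (Fin m))) =>
      Finset.sum_le_sum fun k (_ : k ∈ (univ : Finset (Fin m))) =>
        Finset.sum_le_sum fun k' (hk' : k' ∈ (univ.erase k : Finset (Fin m))) =>
          h i j k k' (Finset.ne_of_mem_erase hk').symm
  refine h2.trans (le_of_eq ?_)
  simp only [← Finset.sum_div]
  rw [sum_sums (fun ω σ i j k k' => A ω σ i j k k' + A ω σ i j k' k)]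
  simp only [sum_swap, ← Finset.mul_sum]
  ring

/-- The main inequality. -/
theorem main_ineq (S : Finset (Bool → ZMod Q)) (hS : S.Nonempty)
    (hnot : ∀ u ∈ S, (fun p => u (!p)) ∈ S)
    (heq : ((S.filter fun u => u true = u false).card : ℝ) * Q ≤ S.card)
    (h9 : 9 * m ≤ n) (hQn : 3 * Q ≤ n ^ 300) {Ω : Type} [Fintype Ω] [Nonempty Ω] {ι : Type}
    [Fintype ι] (H : Ω → ι → Inst n → ℝ)
    (hdec : ∀ I : Inst n, I.Valid → Tripartite I → Decides H I) :
    (m : ℝ) ^ 3 * (m - 1) * (1 / 5 - 8 * ((m : ℝ) ^ 3 / Q)) ≤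
      2 * ((∑ ω, ∑ σ, capS S (GG (m := m) (Q := Q) n (H ω σ))) / Fintype.card Ω) :=
  sum_pairs (Fintype.card Ω : ℝ) (1 / 5 - 8 * ((m : ℝ) ^ 3 / Q))
    (fun ω σ i j k k' => av S (fun X Y Z x a a' => ind (ev (GG n (H ω σ)) i j k k' X Y Z x a a')))
    (fun i j k k' hk => one_pair S hS hnot heq h9 hQn H hdec i j k k' hk)

/-- The final form: if the capacity of every voter is at most `C m` times its price, then the
average cost is at least a constant times `n ^ 3`. -/
theorem final {n : ℕ} (hn : 18 ≤ n) (C : ℝ) (Q : ℕ) [NeZero Q]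
    (S : Finset (Bool → ZMod Q)) (hS : S.Nonempty)
    (hnot : ∀ u ∈ S, (fun p => u (!p)) ∈ S)
    (heq : ((S.filter fun u => u true = u false).card : ℝ) * Q ≤ S.card)
    (hQn : 3 * Q ≤ n ^ 300) (hQ3 : n ^ 3 ≤ Q) {Ω : Type} [Fintype Ω] [Nonempty Ω] {ι : Type}
    [Fintype ι] (H : Ω → ι → Inst n → ℝ) (κ : Ω → ι → ℝ)
    (hdec : ∀ I : Inst n, I.Valid → Tripartite I → Decides H I)
    (hcap : ∀ ω σ, capS S (GG (m := n / 9) (Q := Q) n (H ω σ)) ≤ C * (n / 9 : ℕ) * κ ω σ) :
    (n : ℝ) ^ 3 ≤ (2 ^ 18 * C) * ((∑ ω, ∑ s, κ ω s) / Fintype.card Ω) := by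
  have hc : (0 : ℝ) < Fintype.card Ω := by exact_mod_cast Fintype.card_pos
  set m := n / 9 with hmdef
  have hm2 : 2 ≤ m := by omega
  have h9 : 9 * m ≤ n := by omega
  have hnm : 2 * n ≤ 27 * m := by omega
  have h1 := main_ineq (m := m) S hS hnot heq h9 hQn H hdec
  have hm2' : (2 : ℝ) ≤ m := by exact_mod_cast hm2
  have hQ' : (0 : ℝ) < Q := by exact_mod_cast NeZero.pos Q
  have hz : (m : ℝ) ^ 3 / Q ≤ 1 / 729 := by
    rw [div_le_div_iff₀ hQ' (by norm_num)]
    have e1 : (9 * m : ℝ) ≤ n := by exact_mod_cast h9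
    have e2 : (9 * m : ℝ) ^ 3 ≤ (n : ℝ) ^ 3 := pow_le_pow_left₀ (by positivity) e1 3
    have e3 : ((n : ℝ)) ^ 3 ≤ Q := by exact_mod_cast hQ3
    nlinarith
  have h2 : 2 * ((∑ ω, ∑ σ, capS S (GG (m := m) (Q := Q) n (H ω σ))) / Fintype.card Ω) ≤
      2 * (C * m * ((∑ ω, ∑ s, κ ω s) / Fintype.card Ω)) := by
    refine mul_le_mul_of_nonneg_left ?_ (by norm_num)
    rw [← mul_div_assoc]
    refine div_le_div_of_nonneg_right ?_ hc.le
    rw [Finset.mul_sum]
    refine Finset.sum_le_sum fun ω _ => ?_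
    rw [Finset.mul_sum]
    exact Finset.sum_le_sum fun σ _ => hcap ω σ
  set K := (∑ ω, ∑ s, κ ω s) / Fintype.card Ω with hK
  have h3 : (m : ℝ) ^ 3 * (m - 1) * (1 / 10) ≤ 2 * (C * m * K) := by
    refine le_trans ?_ (h1.trans h2)
    refine mul_le_mul_of_nonneg_left (by linarith) ?_
    exact mul_nonneg (by positivity) (by linarith)
  have h4 : (m : ℝ) * ((m : ℝ) ^ 3 * (1 / 20)) ≤ m * (2 * (C * K)) := by
    have : (m : ℝ) * ((m : ℝ) ^ 3 * (1 / 20)) ≤ (m : ℝ) ^ 3 * (m - 1) * (1 / 10) := by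
      have h5 : (m : ℝ) / 2 ≤ m - 1 := by linarith
      have h6 : (0 : ℝ) ≤ (m : ℝ) ^ 3 := by positivity
      nlinarith
    refine this.trans (h3.trans (le_of_eq ?_))
    ring
  have h7 : (m : ℝ) ^ 3 * (1 / 20) ≤ 2 * (C * K) := le_of_mul_le_mul_left h4 (by linarith)
  have h8 : (n : ℝ) ^ 3 ≤ (27 / 2) ^ 3 * (m : ℝ) ^ 3 := by
    have : (n : ℝ) ≤ 27 / 2 * m := by
      have : (2 * n : ℝ) ≤ 27 * m := by exact_mod_cast hnm
      linarith
    calc (n : ℝ) ^ 3 ≤ (27 / 2 * m) ^ 3 := pow_le_pow_left₀ (by positivity) this 3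
      _ = _ := by ring
  have h9' : 0 ≤ C * K := by
    have : (0 : ℝ) ≤ (m : ℝ) ^ 3 * (1 / 20) := by positivity
    linarith
  calc (n : ℝ) ^ 3 ≤ (27 / 2) ^ 3 * (m : ℝ) ^ 3 := h8
    _ ≤ (27 / 2) ^ 3 * (40 * (C * K)) := mul_le_mul_of_nonneg_left (by linarith) (by norm_num)
    _ ≤ 2 ^ 18 * C * K := by nlinarith

/-- A random circuit that decides Exact Triangle has voters. -/
theorem nonempty_voters {n : ℕ} (hn : 3 ≤ n) {Ω : Type} [Fintype Ω] [Nonempty Ω] {ι : Type}
    [Fintype ι] (H : Ω → ι → Inst n → ℝ)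
    (hdec : ∀ I : Inst n, I.Valid → Tripartite I → Decides H I) : Nonempty ι := by
  classical
  by_contra hι
  have hι' : IsEmpty ι := not_nonempty_iff.1 hι
  set I : Inst n := ⟨fl n, fun _ _ => 0⟩ with hI
  have hv : I.Valid := by
    refine ⟨?_, ?_, fun _ _ => rfl, fun _ _ => ?_⟩
    · intro u v
      simp only [hI, fl, ne_eq, eq_comm]
    · intro u
      simp [hI, fl]
    · simp [hI]
  have ht : Tripartite I := by
    intro u v
    simp [hI, fl]
  have hY : I.Yes := by
    refine ⟨⟨0, by omega⟩, ⟨1, by omega⟩, ⟨2, by omega⟩, ?_, ?_, ?_, ?_, ?_, ?_, ?_⟩ <;>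
      simp [hI, fl]
  have h := hdec I hv ht
  unfold Decides at h
  have e : (univ.filter fun ω : Ω => (0 < ∑ s, H ω s I ↔ I.Yes)) = ∅ := by
    rw [Finset.filter_eq_empty_iff]
    intro ω _ hh
    have := hh.2 hY
    simp at this
  rw [e] at h
  have : 0 < Fintype.card Ω := Fintype.card_pos
  simp at h

end

end Pool.Agent.Helper21.UV
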