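import Pool.Agent.Helper21.UV.Main1
import Pool.Agent.Helper21.UV.Defs2

/-!
# The main inequality for general instances
-/

set_option autoImplicit false
set_option linter.unusedSectionVars false

open Finset
open scoped BigOperators

namespace Pool.Agent.Helper21.UV

open Pool.Agent.Helper22.ETModel Pool.Agent.Helper8.VT Pool.Agent.Helper8.UV
open Pool.Agent.Helper8.VS (ind ind_nonneg ind_le_one ind_true ind_false)

section
variable {n m Q : ℕ} [NeZero Q]

/-- The instance at a vertex of the box. -/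
def vtxM (M : Cfg m Q → Cfg m Q → Cfg m Q → Inst n) (i j k k' : Fin m) (X Y Z : Cfg m Q) (x a a' : Bool → ZMod Q)
    (p q r s t : Bool) : Inst n :=
  M (upX i j X (x p)) (upY j k k' Y (a q) (a' s)) (upZ i k k' Z (vb x a r) (vb' x a' t))

/-- The voters as functions of the random weights. -/
def GM (M : Cfg m Q → Cfg m Q → Cfg m Q → Inst n) (H : Inst n → ℝ) :
    Cfg m Q → Cfg m Q → Cfg m Q → ℝ := fun X Y Z => H (M X Y Z)

/-- The terms for the vertices. -/
noncomputable def termM (M : Cfg m Q → Cfg m Q → Cfg m Q → Inst n) {ι : Type} [Fintype ι]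
    (H : ι → Inst n → ℝ) (i j k k' : Fin m)
    (X Y Z : Cfg m Q) (x a a' : Bool → ZMod Q) (q s : Bool) : ℝ :=
  ind (Wrong H (vtxM M i j k k' X Y Z x a a' false q (!q) s (!s))) +
    ind (Wrong H (vtxM M i j k k' X Y Z x a a' true q q s s)) +
    ind (Wrong H (vtxM M i j k k' X Y Z x a a' false q q s s)) +
    ind (Wrong H (vtxM M i j k k' X Y Z x a a' true q (!q) s (!s)))

theorem pointwiseM (M : Cfg m Q → Cfg m Q → Cfg m Q → Inst n) {ι : Type} [Fintype ι]
    (H : ι → Inst n → ℝ) (i j k k' : Fin m) (hk : k ≠ k')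
    (hno : ∀ X Y Z, (M X Y Z).Yes → Zero X Y Z)
    (hy0 : ∀ X Y Z, X (i, j) + Y (j, k) + Z (k, i) = 0 → (M X Y Z).Yes)
    (hy1 : ∀ X Y Z, X (i, j) + Y (j, k') + Z (k', i) = 0 → (M X Y Z).Yes) (X Y Z : Cfg m Q)
    (x a a' : Bool → ZMod Q) :
    1 ≤ (∑ q, ∑ s, termM M H i j k k' X Y Z x a a' q s) +
      (∑ q, ∑ s, termZ i j k k' X Y Z x a a' q s) +
      ∑ σ, (ind (ev (GM M (H σ)) i j k k' X Y Z x a a') +
        ind (ev2 (GM M (H σ)) i j k k' X Y Z x a a')) := by
  have n0 : ∀ p : Prop, 0 ≤ ind p := ind_nonneg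
  have hlt : ∀ p : Prop, ind p < 1 → ¬ p := fun p h hp => by
    rw [ind_true hp] at h; exact lt_irrefl _ h
  have hT0 : ∀ q s, 0 ≤ termM M H i j k k' X Y Z x a a' q s := fun q s => by
    unfold termM
    exact add_nonneg (add_nonneg (add_nonneg (n0 _) (n0 _)) (n0 _)) (n0 _)
  have hZ0 : ∀ q s, 0 ≤ termZ i j k k' X Y Z x a a' q s := fun q s => by
    unfold termZ
    exact add_nonneg (n0 _) (n0 _)
  have hE0 : ∀ σ, 0 ≤ ind (ev (GM M (H σ)) i j k k' X Y Z x a a') +
        ind (ev2 (GM M (H σ)) i j k k' X Y Z x a a') := fun σ => add_nonneg (n0 _) (n0 _)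
  by_contra hcon
  push Not at hcon
  have sT := Finset.sum_nonneg fun q (_ : q ∈ (univ : Finset Bool)) =>
    Finset.sum_nonneg fun s (_ : s ∈ (univ : Finset Bool)) => hT0 q s
  have sZ := Finset.sum_nonneg fun q (_ : q ∈ (univ : Finset Bool)) =>
    Finset.sum_nonneg fun s (_ : s ∈ (univ : Finset Bool)) => hZ0 q s
  have sE := Finset.sum_nonneg fun σ (_ : σ ∈ (univ : Finset ι)) => hE0 σ
  have tl : ∀ q s, termM M H i j k k' X Y Z x a a' q s < 1 := fun q s =>
    lt_of_le_of_lt (le_sum_bool _ hT0 q s) (by linarith)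
  have zl : ∀ q s, termZ i j k k' X Y Z x a a' q s < 1 := fun q s =>
    lt_of_le_of_lt (le_sum_bool _ hZ0 q s) (by linarith)
  have el : ∀ σ, ind (ev (GM M (H σ)) i j k k' X Y Z x a a') +
        ind (ev2 (GM M (H σ)) i j k k' X Y Z x a a') < 1 := fun σ =>
    lt_of_le_of_lt (Finset.single_le_sum (f := fun σ => ind (ev (GM M (H σ)) i j k k' X Y Z x a a') +
        ind (ev2 (GM M (H σ)) i j k k' X Y Z x a a')) (fun σ _ => hE0 σ) (Finset.mem_univ σ))
      (by linarith)
  have t1 : ∀ q s, ¬ Wrong H (vtxM M i j k k' X Y Z x a a' false q (!q) s (!s)) := fun q s => by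
    refine hlt _ (lt_of_le_of_lt ?_ (tl q s))
    unfold termM
    linarith [n0 (Wrong H (vtxM M i j k k' X Y Z x a a' true q q s s)),
      n0 (Wrong H (vtxM M i j k k' X Y Z x a a' false q q s s)),
      n0 (Wrong H (vtxM M i j k k' X Y Z x a a' true q (!q) s (!s)))]
  have t2 : ∀ q s, ¬ Wrong H (vtxM M i j k k' X Y Z x a a' true q q s s) := fun q s => by
    refine hlt _ (lt_of_le_of_lt ?_ (tl q s))
    unfold termM
    linarith [n0 (Wrong H (vtxM M i j k k' X Y Z x a a' false q (!q) s (!s))),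
      n0 (Wrong H (vtxM M i j k k' X Y Z x a a' false q q s s)),
      n0 (Wrong H (vtxM M i j k k' X Y Z x a a' true q (!q) s (!s)))]
  have t3 : ∀ q s, ¬ Wrong H (vtxM M i j k k' X Y Z x a a' false q q s s) := fun q s => by
    refine hlt _ (lt_of_le_of_lt ?_ (tl q s))
    unfold termM
    linarith [n0 (Wrong H (vtxM M i j k k' X Y Z x a a' false q (!q) s (!s))),
      n0 (Wrong H (vtxM M i j k k' X Y Z x a a' true q q s s)),
      n0 (Wrong H (vtxM M i j k k' X Y Z x a a' true q (!q) s (!s)))]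
  have t4 : ∀ q s, ¬ Wrong H (vtxM M i j k k' X Y Z x a a' true q (!q) s (!s)) := fun q s => by
    refine hlt _ (lt_of_le_of_lt ?_ (tl q s))
    unfold termM
    linarith [n0 (Wrong H (vtxM M i j k k' X Y Z x a a' false q (!q) s (!s))),
      n0 (Wrong H (vtxM M i j k k' X Y Z x a a' true q q s s)),
      n0 (Wrong H (vtxM M i j k k' X Y Z x a a' false q q s s))]
  have z1 : ∀ q s, ¬ Zero (upX i j X (x false)) (upY j k k' Y (a q) (a' s))
      (upZ i k k' Z (vb x a (!q)) (vb' x a' (!s))) := fun q s => by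
    refine hlt _ (lt_of_le_of_lt ?_ (zl q s))
    unfold termZ
    linarith [n0 (Zero (upX i j X (x true)) (upY j k k' Y (a q) (a' s))
      (upZ i k k' Z (vb x a q) (vb' x a' s)))]
  have z2 : ∀ q s, ¬ Zero (upX i j X (x true)) (upY j k k' Y (a q) (a' s))
      (upZ i k k' Z (vb x a q) (vb' x a' s)) := fun q s => by
    refine hlt _ (lt_of_le_of_lt ?_ (zl q s))
    unfold termZ
    linarith [n0 (Zero (upX i j X (x false)) (upY j k k' Y (a q) (a' s))
      (upZ i k k' Z (vb x a (!q)) (vb' x a' (!s))))]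
  have e1 : ∀ σ, ¬ ev (GM M (H σ)) i j k k' X Y Z x a a' := fun σ =>
    hlt _ (lt_of_le_of_lt (by linarith [n0 (ev2 (GM M (H σ)) i j k k' X Y Z x a a')]) (el σ))
  have e2 : ∀ σ, ¬ ev2 (GM M (H σ)) i j k k' X Y Z x a a' := fun σ =>
    hlt _ (lt_of_le_of_lt (by linarith [n0 (ev (GM M (H σ)) i j k k' X Y Z x a a')]) (el σ))
  set Φ : ZMod Q → ZMod Q → ZMod Q → ZMod Q → ZMod Q → ℝ := fun u v w v' w' =>
    ∑ σ, F5 (GM M (H σ)) i j k k' X Y Z u v w v' w' with hΦ
  have hval : ∀ p q r s t, Φ (x p) (a q) (vb x a r) (a' s) (vb' x a' t) =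
      ∑ σ, H σ (vtxM M i j k k' X Y Z x a a' p q r s t) := by
    intro p q r s t
    rfl
  have hR := R3 Φ x a (vb x a) a' (vb' x a')
    (fun q s => by
      rw [hval]
      by_contra hc
      push Not at hc
      have := t1 q s
      unfold Wrong at this
      rw [not_not] at this
      exact z1 q s (hno _ _ _ (this.1 hc)))
    (fun q s => by
      rw [hval]
      by_contra hc
      push Not at hc
      have := t2 q s
      unfold Wrong at this
      rw [not_not] at this
      exact z2 q s (hno _ _ _ (this.1 hc)))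
    (fun q s => by
      rw [hval]
      have := t3 q s
      unfold Wrong at this
      rw [not_not] at this
      refine this.2 (hy1 _ _ _ ?_)
      simp only [upX, upY, upZ, Function.update_self, vb']
      ring)
    (fun q s => by
      rw [hval]
      have := t4 q s
      unfold Wrong at this
      rw [not_not] at this
      refine this.2 (hy0 _ _ _ ?_)
      have c1 : (j, k) ≠ (j, k') := by simpa using hk
      have c2 : (k, i) ≠ (k', i) := by simpa using hk
      simp only [upX, upY, upZ]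
      rw [Function.update_of_ne c1, Function.update_of_ne c2]
      simp only [Function.update_self, vb, Bool.not_not]
      ring)
  rcases hR with ⟨s, t, h⟩ | ⟨q, r, h⟩
  · simp only [hΦ] at h
    rw [D3_sum] at h
    obtain ⟨σ, _, hσ⟩ := Finset.exists_ne_zero_of_sum_ne_zero h
    exact e1 σ ⟨s, t, hσ⟩
  · simp only [hΦ] at h
    rw [D3_sum] at h
    obtain ⟨σ, _, hσ⟩ := Finset.exists_ne_zero_of_sum_ne_zero h
    exact e2 σ ((ev_swap _ _ _ _ _ hk _ _ _ _ _ _).2 ⟨q, r, hσ⟩)

/-- The inequality for one pair of triangles. -/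
theorem one_pairM (S : Finset (Bool → ZMod Q)) (hS : S.Nonempty)
    (hnot : ∀ u ∈ S, (fun p => u (!p)) ∈ S)
    (heq : ((S.filter fun u => u true = u false).card : ℝ) * Q ≤ S.card)
    (M : Cfg m Q → Cfg m Q → Cfg m Q → Inst n) (hval : ∀ X Y Z, (M X Y Z).Valid)
    (htri : ∀ X Y Z, Tripartite (M X Y Z)) {Ω : Type} [Fintype Ω] [Nonempty Ω] {ι : Type}
    [Fintype ι] (H : Ω → ι → Inst n → ℝ)
    (hdec : ∀ I : Inst n, I.Valid → Tripartite I → Decides H I) (i j k k' : Fin m)
    (hk : k ≠ k') (hno : ∀ X Y Z, (M X Y Z).Yes → Zero X Y Z)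
    (hy0 : ∀ X Y Z, X (i, j) + Y (j, k) + Z (k, i) = 0 → (M X Y Z).Yes)
    (hy1 : ∀ X Y Z, X (i, j) + Y (j, k') + Z (k', i) = 0 → (M X Y Z).Yes) :
    1 / 5 - 8 * ((m : ℝ) ^ 3 / Q) ≤ (∑ ω, ∑ σ,
      (av S (fun X Y Z x a a' => ind (ev (GM M (H ω σ)) i j k k' X Y Z x a a')) +
        av S (fun X Y Z x a a' => ind (ev (GM M (H ω σ)) i j k' k X Y Z x a a')))) /
          Fintype.card Ω := by
  have hc : (0 : ℝ) < Fintype.card Ω := by exact_mod_cast Fintype.card_pos
  set N : ℝ := (Fintype.card Ω : ℝ) with hN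
  -- pointwise, averaged over the circuits
  have hp : ∀ (X Y Z : Cfg m Q) (x a a' : Bool → ZMod Q),
      1 / 5 ≤ (∑ q, ∑ s, termZ i j k k' X Y Z x a a' q s) +
      N⁻¹ * ∑ ω, ∑ σ, (ind (ev (GM M (H ω σ)) i j k k' X Y Z x a a') +
        ind (ev2 (GM M (H ω σ)) i j k k' X Y Z x a a')) := by
    intro X Y Z x a a'
    have h1 := Finset.sum_le_sum fun ω (_ : ω ∈ (univ : Finset Ω)) =>
      pointwiseM M (H ω) i j k k' hk hno hy0 hy1 X Y Z x a a'
    simp only [Finset.sum_add_distrib, Finset.sum_const, Finset.card_univ, nsmul_eq_mul,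
      mul_one, ← hN] at h1
    have h2 : ∑ ω, ∑ q, ∑ s, termM M (H ω) i j k k' X Y Z x a a' q s ≤ N * (4 / 5) := by
      have e : ∑ ω, ∑ q, ∑ s, termM M (H ω) i j k k' X Y Z x a a' q s =
          ∑ q, ∑ s, ∑ ω, termM M (H ω) i j k k' X Y Z x a a' q s := by
        rw [Finset.sum_comm]
        exact Finset.sum_congr rfl fun q _ => Finset.sum_comm
      rw [e]
      have hw : ∀ p q r s t, ∑ ω, ind (Wrong (H ω) (vtxM M i j k k' X Y Z x a a' p q r s t)) ≤
          N * (1 / 20) := by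
        intro p q r s t
        have := wrong_le H _ (hdec _ (hval (upX i j X (x p)) (upY j k k' Y (a q) (a' s))
          (upZ i k k' Z (vb x a r) (vb' x a' t))) (htri _ _ _))
        rw [div_le_iff₀ hc] at this
        unfold vtxM
        linarith
      have hq : ∀ q s, ∑ ω, termM M (H ω) i j k k' X Y Z x a a' q s ≤ N * (1 / 5) := by
        intro q s
        unfold termM
        simp only [Finset.sum_add_distrib]
        linarith [hw false q (!q) s (!s), hw true q q s s, hw false q q s s,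
          hw true q (!q) s (!s)]
      simp only [Fintype.sum_bool]
      linarith [hq true true, hq true false, hq false true, hq false false]
    have h3 : N * (1 / 5) ≤ N * (∑ q, ∑ s, termZ i j k k' X Y Z x a a' q s) +
        ∑ ω, ∑ σ, (ind (ev (GM M (H ω σ)) i j k k' X Y Z x a a') +
          ind (ev2 (GM M (H ω σ)) i j k k' X Y Z x a a')) := by
      simp only [Finset.sum_add_distrib]
      linarith
    have h4 : N⁻¹ * (N * (1 / 5)) ≤ N⁻¹ * (N * (∑ q, ∑ s, termZ i j k k' X Y Z x a a' q s) +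
        ∑ ω, ∑ σ, (ind (ev (GM M (H ω σ)) i j k k' X Y Z x a a') +
          ind (ev2 (GM M (H ω σ)) i j k k' X Y Z x a a'))) :=
      mul_le_mul_of_nonneg_left h3 (inv_nonneg.2 hc.le)
    rw [mul_add, inv_mul_cancel_left₀ hc.ne', inv_mul_cancel_left₀ hc.ne'] at h4
    exact h4
  have h5 := av_mono S (fun _ _ _ _ _ _ => 1 / 5) _ (fun X Y Z x _ a _ a' _ => hp X Y Z x a a')
  rw [av_const S hS, av_add, av_smul] at h5
  have h6 : av S (fun (X Y Z : Cfg m Q) x a a' => ∑ q, ∑ s, termZ i j k k' X Y Z x a a' q s) ≤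
      8 * ((m : ℝ) ^ 3 / Q) := by
    simp only [av_sum]
    have hq : ∀ q s, av S (fun (X Y Z : Cfg m Q) x a a' => termZ i j k k' X Y Z x a a' q s) ≤
        2 * ((m : ℝ) ^ 3 / Q) := by
      intro q s
      unfold termZ
      rw [av_add]
      linarith [no0 S hS heq i j k k' hk q s, no1 S hS heq i j k k' hk q s]
    simp only [Fintype.sum_bool]
    linarith [hq true true, hq true false, hq false true, hq false false]
  have h7 : av S (fun (X Y Z : Cfg m Q) x a a' => ∑ ω, ∑ σ, (ind (ev (GM M (H ω σ)) i j k k' X Y Z x a a') +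
        ind (ev2 (GM M (H ω σ)) i j k k' X Y Z x a a'))) =
      ∑ ω, ∑ σ, (av S (fun X Y Z x a a' => ind (ev (GM M (H ω σ)) i j k k' X Y Z x a a')) +
        av S (fun X Y Z x a a' => ind (ev (GM M (H ω σ)) i j k' k X Y Z x a a'))) := by
    simp only [av_sum, av_add]
    refine Finset.sum_congr rfl fun ω _ => Finset.sum_congr rfl fun σ _ => ?_
    rw [av_ev2 S hnot]
  rw [h7, ← div_eq_inv_mul] at h5
  linarith

/-- The full set of pairs. -/
theorem heq_univ :
    (((univ : Finset (Bool → ZMod Q)).filter fun u => u true = u false).card : ℝ) * Q ≤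
      (univ : Finset (Bool → ZMod Q)).card := by
  have h1 : ((univ : Finset (Bool → ZMod Q)).filter fun u => u true = u false).card ≤ Q := by
    have h2 : ((univ : Finset (Bool → ZMod Q)).filter fun u => u true = u false).card ≤
        (univ : Finset (ZMod Q)).card := by
      refine Finset.card_le_card_of_injOn (fun u => u true) (fun _ _ => Finset.mem_coe.2
        (Finset.mem_univ _)) ?_
      intro u hu v hv huv
      simp only [Finset.coe_filter, Finset.mem_univ, true_and, Set.mem_ofPred_eq] at hu hv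
      funext b
      cases b
      · rw [← hu, ← hv]; exact huv
      · exact huv
    rwa [Finset.card_univ, ZMod.card] at h2
  have h3 : (univ : Finset (Bool → ZMod Q)).card = Q ^ 2 := by
    rw [Finset.card_univ, Fintype.card_fun, ZMod.card, Fintype.card_bool]
  rw [h3]
  push_cast
  have h4 : (((univ : Finset (Bool → ZMod Q)).filter fun u => u true = u false).card : ℝ) ≤ Q := by
    exact_mod_cast h1
  have h5 : (0 : ℝ) ≤ Q := Nat.cast_nonneg _
  nlinarith

/-- All five variables of a pair of triangles are small. -/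
def Good {P : ℕ} (μ : Key m → Fin (10 * P)) (i j k k' : Fin m) : Prop :=
  P ≤ (μ (0, (i, j)) : ℕ) ∧ P ≤ (μ (1, (j, k)) : ℕ) ∧ P ≤ (μ (2, (k, i)) : ℕ) ∧
    P ≤ (μ (1, (j, k')) : ℕ) ∧ P ≤ (μ (2, (k', i)) : ℕ)

/-- The number of macroscopic parts in which a given variable is big. -/
theorem card_big {P : ℕ} (e : Key m) :
    (((univ : Finset (Key m → Fin (10 * P))).filter fun μ => (μ e : ℕ) < P).card : ℝ) * 10 =
      (10 * P : ℝ) ^ Fintype.card (Key m) := by
  classical
  have h1 : ((univ : Finset (Key m → Fin (10 * P))).filter fun μ => (μ e : ℕ) < P) =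
      Fintype.piFinset (fun e' => if e' = e then
        (univ.filter fun x : Fin (10 * P) => (x : ℕ) < P) else univ) := by
    ext μ
    simp only [Finset.mem_filter, Finset.mem_univ, true_and, Fintype.mem_piFinset]
    constructor
    · intro h e'
      split_ifs with h'
      · subst h'; simpa using h
      · exact Finset.mem_univ _
    · intro h
      have := h e
      simpa using this
  have h2 : (univ.filter fun x : Fin (10 * P) => (x : ℕ) < P).card = P := by
    have h3 : (univ.filter fun x : Fin (10 * P) => (x : ℕ) < P) =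
        (univ : Finset (Fin P)).map (Fin.castLEEmb (by omega)) := by
      ext x
      simp only [Finset.mem_filter, Finset.mem_univ, true_and, Finset.mem_map]
      constructor
      · intro h
        exact ⟨⟨x, h⟩, by ext; simp⟩
      · rintro ⟨y, rfl⟩
        simp
    rw [h3, Finset.card_map, Finset.card_univ, Fintype.card_fin]
  rw [h1, Fintype.card_piFinset]
  have h4 : ∏ e', (if e' = e then (univ.filter fun x : Fin (10 * P) => (x : ℕ) < P)
      else univ).card = P * (10 * P) ^ (Fintype.card (Key m) - 1) := by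
    rw [← Finset.mul_prod_erase univ _ (Finset.mem_univ e), if_pos rfl, h2]
    congr 1
    rw [Finset.prod_congr rfl (g := fun _ => 10 * P), Finset.prod_const,
      Finset.card_erase_of_mem (Finset.mem_univ e), Finset.card_univ]
    intro e' he'
    rw [if_neg (Finset.ne_of_mem_erase he'), Finset.card_univ, Fintype.card_fin]
  rw [h4]
  have hc : 0 < Fintype.card (Key m) := Fintype.card_pos_iff.2 ⟨e⟩
  obtain ⟨r, hr⟩ := Nat.exists_eq_succ_of_ne_zero hc.ne'
  rw [hr]
  push_cast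
  simp only [Nat.succ_eq_add_one, pow_succ]
  ring

open Classical in
/-- At least half of the macroscopic parts are good for a given pair. -/
theorem card_good {P : ℕ} (i j k k' : Fin m) :
    (10 * P : ℝ) ^ Fintype.card (Key m) / 2 ≤
      (((univ : Finset (Key m → Fin (10 * P))).filter fun μ => Good μ i j k k').card : ℝ) := by
  set B : Key m → Finset (Key m → Fin (10 * P)) := fun e =>
    univ.filter fun μ => (μ e : ℕ) < P with hB
  have hsub : (univ : Finset (Key m → Fin (10 * P))) ⊆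
      (univ.filter fun μ => Good μ i j k k') ∪
        (B (0, (i, j)) ∪ (B (1, (j, k)) ∪ (B (2, (k, i)) ∪ (B (1, (j, k')) ∪ B (2, (k', i)))))) := by
    intro μ _
    by_cases hg : Good μ i j k k'
    · exact Finset.mem_union_left _ (by rw [Finset.mem_filter]; exact ⟨Finset.mem_univ _, hg⟩)
    · refine Finset.mem_union_right _ ?_
      simp only [hB, Finset.mem_union, Finset.mem_filter, Finset.mem_univ, true_and]
      unfold Good at hg
      by_contra h
      push Not at h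
      exact hg ⟨h.1, h.2.1, h.2.2.1, h.2.2.2.1, h.2.2.2.2⟩
  have h1 := Finset.card_le_card hsub
  have h2 := h1.trans (Finset.card_union_le _ _)
  have h3 := Finset.card_union_le (B (0, (i, j)))
    (B (1, (j, k)) ∪ (B (2, (k, i)) ∪ (B (1, (j, k')) ∪ B (2, (k', i)))))
  have h4 := Finset.card_union_le (B (1, (j, k)))
    (B (2, (k, i)) ∪ (B (1, (j, k')) ∪ B (2, (k', i))))
  have h5 := Finset.card_union_le (B (2, (k, i))) (B (1, (j, k')) ∪ B (2, (k', i)))
  have h6 := Finset.card_union_le (B (1, (j, k'))) (B (2, (k', i)))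
  have h7 : (univ : Finset (Key m → Fin (10 * P))).card ≤
      (univ.filter fun μ : Key m → Fin (10 * P) => Good μ i j k k').card +
        ((B (0, (i, j))).card + ((B (1, (j, k))).card + ((B (2, (k, i))).card +
          ((B (1, (j, k'))).card + (B (2, (k', i))).card)))) := by omega
  have h8 : (Fintype.card (Key m → Fin (10 * P)) : ℝ) = (10 * P : ℝ) ^ Fintype.card (Key m) := by
    rw [Fintype.card_fun, Fintype.card_fin]
    push_cast
    rfl
  have h9 : ((univ : Finset (Key m → Fin (10 * P))).card : ℝ) ≤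
      ((univ.filter fun μ : Key m → Fin (10 * P) => Good μ i j k k').card : ℝ) +
        (((B (0, (i, j))).card : ℝ) + ((B (1, (j, k))).card + ((B (2, (k, i))).card +
          ((B (1, (j, k'))).card + (B (2, (k', i))).card)))) := by
    exact_mod_cast h7
  rw [Finset.card_univ, h8] at h9
  have b : ∀ e, ((B e).card : ℝ) = (10 * P : ℝ) ^ Fintype.card (Key m) / 10 := fun e => by
    have := card_big (m := m) (P := P) e
    simp only [hB]
    linarith
  rw [b, b, b, b, b] at h9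
  linarith

/-- Summation over all pairs of triangles. -/
theorem sum_pairs' {Ω ι : Type} [Fintype Ω] [Fintype ι] (N : ℝ)
    (c : Fin m → Fin m → Fin m → Fin m → ℝ)
    (A : Ω → ι → Fin m → Fin m → Fin m → Fin m → ℝ)
    (h : ∀ i j k k', k ≠ k' → c i j k k' ≤ (∑ ω, ∑ σ, (A ω σ i j k k' + A ω σ i j k' k)) / N) :
    ∑ i, ∑ j, ∑ k, ∑ k' ∈ univ.erase k, c i j k k' ≤
      2 * ((∑ ω, ∑ σ, ∑ i, ∑ j, ∑ k, ∑ k' ∈ univ.erase k, A ω σ i j k k') / N) := by
  have h2 := Finset.sum_le_sum fun i (_ : i ∈ (univ : Finset (Fin m))) =>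
    Finset.sum_le_sum fun j (_ : j ∈ (univ : Finset (Fin m))) =>
      Finset.sum_le_sum fun k (_ : k ∈ (univ : Finset (Fin m))) =>
        Finset.sum_le_sum fun k' (hk' : k' ∈ (univ.erase k : Finset (Fin m))) =>
          h i j k k' (Finset.ne_of_mem_erase hk').symm
  refine h2.trans (le_of_eq ?_)
  simp only [← Finset.sum_div]
  rw [sum_sums (fun ω σ i j k k' => A ω σ i j k k' + A ω σ i j k' k)]
  simp only [sum_swap, ← Finset.mul_sum]
  ring

end

section
variable {n m q P : ℕ} [NeZero q]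

open Classical in
/-- The inequality for one macroscopic part. -/
theorem one_mu (hval : ∀ (μ : Key m → Fin (10 * P)) (X Y Z : Cfg m q), (mkM n P μ X Y Z).Valid)
    (hno : ∀ (μ : Key m → Fin (10 * P)) (X Y Z : Cfg m q), (mkM n P μ X Y Z).Yes → Zero X Y Z)
    (hyes : ∀ (μ : Key m → Fin (10 * P)) (X Y Z : Cfg m q) (i j k : Fin m),
      P ≤ (μ (0, (i, j)) : ℕ) → P ≤ (μ (1, (j, k)) : ℕ) → P ≤ (μ (2, (k, i)) : ℕ) →
      X (i, j) + Y (j, k) + Z (k, i) = 0 → (mkM n P μ X Y Z).Yes)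
    {Ω : Type} [Fintype Ω] [Nonempty Ω] {ι : Type} [Fintype ι] (H : Ω → ι → Inst n → ℝ)
    (hdec : ∀ I : Inst n, I.Valid → Tripartite I → Decides H I)
    (μ : Key m → Fin (10 * P)) :
    ∑ i : Fin m, ∑ j : Fin m, ∑ k : Fin m, ∑ k' ∈ univ.erase k,
      (if Good μ i j k k' then 1 / 5 - 8 * ((m : ℝ) ^ 3 / q) else 0) ≤
      2 * ((∑ ω, ∑ σ, cap (GM (mkM (m := m) (q := q) n P μ) (H ω σ))) / Fintype.card Ω) := by
  have hcq : ∀ ω σ, cap (GM (mkM (m := m) (q := q) n P μ) (H ω σ)) =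
      ∑ i, ∑ j, ∑ k, ∑ k' ∈ univ.erase k, av univ (fun X Y Z x a a' =>
        ind (ev (GM (mkM n P μ) (H ω σ)) i j k k' X Y Z x a a')) := fun ω σ => by
    rw [cap_eq]
    rfl
  simp only [hcq]
  refine sum_pairs' (Fintype.card Ω : ℝ)
    (fun i j k k' => if Good μ i j k k' then 1 / 5 - 8 * ((m : ℝ) ^ 3 / q) else 0)
    (fun ω σ i j k k' => av univ (fun X Y Z x a a' =>
      ind (ev (GM (mkM n P μ) (H ω σ)) i j k k' X Y Z x a a'))) ?_
  intro i j k k' hk
  split_ifs with hg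
  · obtain ⟨g0, g1, g2, g3, g4⟩ := id hg
    exact one_pairM univ Finset.univ_nonempty (fun u _ => Finset.mem_univ _) heq_univ
      (mkM n P μ) (hval μ) (fun X Y Z => mkH_tripartite _ _ X Y Z) H hdec i j k k' hk (hno μ)
      (fun X Y Z h => hyes μ X Y Z i j k g0 g1 g2 h)
      (fun X Y Z h => hyes μ X Y Z i j k' g0 g3 g4 h)
  · refine div_nonneg (Finset.sum_nonneg fun ω _ => Finset.sum_nonneg fun σ _ =>
      add_nonneg ?_ ?_) (Nat.cast_nonneg _)
    · exact av_nonneg _ _ fun _ _ _ _ _ _ => ind_nonneg _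
    · exact av_nonneg _ _ fun _ _ _ _ _ _ => ind_nonneg _

open Classical in
theorem sum_good (c : ℝ) (hc : 0 ≤ c) :
    (10 * P : ℝ) ^ Fintype.card (Key m) / 2 * ((m : ℝ) ^ 3 * (m - 1) * c) ≤
      ∑ μ : Key m → Fin (10 * P), ∑ i : Fin m, ∑ j : Fin m, ∑ k : Fin m, ∑ k' ∈ univ.erase k,
      (if Good μ i j k k' then c else 0) := by
  have e : ∑ μ : Key m → Fin (10 * P), ∑ i : Fin m, ∑ j : Fin m, ∑ k : Fin m,
      ∑ k' ∈ univ.erase k, (if Good μ i j k k' then c else 0) =
      ∑ i : Fin m, ∑ j : Fin m, ∑ k : Fin m, ∑ k' ∈ univ.erase k,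
        ∑ μ : Key m → Fin (10 * P), (if Good μ i j k k' then c else 0) := by
    rw [Finset.sum_comm]
    refine Finset.sum_congr rfl fun i _ => ?_
    rw [Finset.sum_comm]
    refine Finset.sum_congr rfl fun j _ => ?_
    rw [Finset.sum_comm]
    refine Finset.sum_congr rfl fun k _ => ?_
    rw [Finset.sum_comm]
  have e2 : (10 * P : ℝ) ^ Fintype.card (Key m) / 2 * ((m : ℝ) ^ 3 * (m - 1) * c) =
      ∑ _i : Fin m, ∑ _j : Fin m, ∑ k : Fin m, ∑ _k' ∈ univ.erase k,
        (10 * P : ℝ) ^ Fintype.card (Key m) / 2 * c := by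
    rw [sum_const_erase]
    ring
  rw [e, e2]
  refine Finset.sum_le_sum fun i _ => Finset.sum_le_sum fun j _ => Finset.sum_le_sum fun k _ =>
    Finset.sum_le_sum fun k' _ => ?_
  rw [← Finset.sum_filter, Finset.sum_const, nsmul_eq_mul]
  exact mul_le_mul_of_nonneg_right (card_good i j k k') hc

/-- The final form. -/
theorem final2 {n : ℕ} (hn : 18 ≤ n) (C : ℝ) (q P : ℕ) [NeZero q] (hP : 0 < P)
    (hval : ∀ (μ : Key (n / 9) → Fin (10 * P)) (X Y Z : Cfg (n / 9) q), (mkM n P μ X Y Z).Valid)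
    (hno : ∀ (μ : Key (n / 9) → Fin (10 * P)) (X Y Z : Cfg (n / 9) q),
      (mkM n P μ X Y Z).Yes → Zero X Y Z)
    (hyes : ∀ (μ : Key (n / 9) → Fin (10 * P)) (X Y Z : Cfg (n / 9) q) (i j k : Fin (n / 9)),
      P ≤ (μ (0, (i, j)) : ℕ) → P ≤ (μ (1, (j, k)) : ℕ) → P ≤ (μ (2, (k, i)) : ℕ) →
      X (i, j) + Y (j, k) + Z (k, i) = 0 → (mkM n P μ X Y Z).Yes)
    (hq3 : n ^ 3 ≤ q) {Ω : Type} [Fintype Ω] [Nonempty Ω] {ι : Type} [Fintype ι]
    (H : Ω → ι → Inst n → ℝ) (κ : Ω → ι → ℝ)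
    (hdec : ∀ I : Inst n, I.Valid → Tripartite I → Decides H I)
    (hcap : ∀ ω σ, ∑ μ : Key (n / 9) → Fin (10 * P), cap (GM (mkM (q := q) n P μ) (H ω σ)) ≤
      (10 * P : ℝ) ^ Fintype.card (Key (n / 9)) * (C * (n / 9 : ℕ) * κ ω σ)) :
    (n : ℝ) ^ 3 ≤ (2 ^ 19 * C) * ((∑ ω, ∑ s, κ ω s) / Fintype.card Ω) := by
  classical
  have hc : (0 : ℝ) < Fintype.card Ω := by exact_mod_cast Fintype.card_pos
  set m := n / 9 with hmdef
  have hm2 : 2 ≤ m := by omega
  have h9 : 9 * m ≤ n := by omega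
  have hnm : 2 * n ≤ 27 * m := by omega
  have hm2' : (2 : ℝ) ≤ m := by exact_mod_cast hm2
  have hQ' : (0 : ℝ) < q := by exact_mod_cast NeZero.pos q
  have hz : (m : ℝ) ^ 3 / q ≤ 1 / 729 := by
    rw [div_le_div_iff₀ hQ' (by norm_num)]
    have e1 : (9 * m : ℝ) ≤ n := by exact_mod_cast h9
    have e2 : (9 * m : ℝ) ^ 3 ≤ (n : ℝ) ^ 3 := pow_le_pow_left₀ (by positivity) e1 3
    have e3 : ((n : ℝ)) ^ 3 ≤ q := by exact_mod_cast hq3
    nlinarith
  set T : ℝ := (10 * P : ℝ) ^ Fintype.card (Key m) with hT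
  have hTpos : 0 < T := by
    have : (0 : ℝ) < P := by exact_mod_cast hP
    positivity
  set K := (∑ ω, ∑ s, κ ω s) / Fintype.card Ω with hK
  have h1 := Finset.sum_le_sum fun μ (_ : μ ∈ (univ : Finset (Key m → Fin (10 * P)))) =>
    one_mu (n := n) (m := m) (q := q) (P := P) hval hno hyes H hdec μ
  have h2 := sum_good (m := m) (P := P) (1 / 5 - 8 * ((m : ℝ) ^ 3 / q)) (by linarith)
  have h3 : ∑ μ : Key m → Fin (10 * P), 2 * ((∑ ω, ∑ σ,
      cap (GM (mkM (m := m) (q := q) n P μ) (H ω σ))) / Fintype.card Ω) ≤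
      T * (2 * (C * m * K)) := by
    rw [← Finset.mul_sum, ← Finset.sum_div]
    have e : ∑ μ : Key m → Fin (10 * P), ∑ ω, ∑ σ,
        cap (GM (mkM (m := m) (q := q) n P μ) (H ω σ)) =
        ∑ ω, ∑ σ, ∑ μ : Key m → Fin (10 * P), cap (GM (mkM (m := m) (q := q) n P μ) (H ω σ)) := by
      rw [Finset.sum_comm]
      exact Finset.sum_congr rfl fun ω _ => Finset.sum_comm
    rw [e]
    have h4 : ∑ ω, ∑ σ, ∑ μ : Key m → Fin (10 * P),
        cap (GM (mkM (m := m) (q := q) n P μ) (H ω σ)) ≤ ∑ ω, ∑ σ, T * (C * m * κ ω σ) :=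
      Finset.sum_le_sum fun ω _ => Finset.sum_le_sum fun σ _ => hcap ω σ
    have h5 : ∑ ω, ∑ σ, T * (C * m * κ ω σ) = T * (C * m * ∑ ω, ∑ σ, κ ω σ) := by
      simp only [Finset.mul_sum]
    rw [h5] at h4
    calc 2 * ((∑ ω, ∑ σ, ∑ μ : Key m → Fin (10 * P),
          cap (GM (mkM (m := m) (q := q) n P μ) (H ω σ))) / Fintype.card Ω)
        ≤ 2 * ((T * (C * m * ∑ ω, ∑ σ, κ ω σ)) / Fintype.card Ω) :=
          mul_le_mul_of_nonneg_left (div_le_div_of_nonneg_right h4 hc.le) (by norm_num)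
      _ = T * (2 * (C * m * K)) := by rw [hK]; ring
  have h6 : T / 2 * ((m : ℝ) ^ 3 * (m - 1) * (1 / 5 - 8 * ((m : ℝ) ^ 3 / q))) ≤
      T * (2 * (C * m * K)) := h2.trans (h1.trans h3)
  have h7 : (m : ℝ) ^ 3 * (m - 1) * (1 / 10) ≤ 4 * (C * m * K) := by
    have h8 : T * ((m : ℝ) ^ 3 * (m - 1) * (1 / 10)) ≤ T * (4 * (C * m * K)) := by
      have h9' : (m : ℝ) ^ 3 * (m - 1) * (1 / 10) ≤
          (m : ℝ) ^ 3 * (m - 1) * (1 / 5 - 8 * ((m : ℝ) ^ 3 / q)) := by
        refine mul_le_mul_of_nonneg_left (by linarith) ?_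
        exact mul_nonneg (by positivity) (by linarith)
      nlinarith
    exact le_of_mul_le_mul_left h8 hTpos
  have h4 : (m : ℝ) * ((m : ℝ) ^ 3 * (1 / 20)) ≤ m * (4 * (C * K)) := by
    have : (m : ℝ) * ((m : ℝ) ^ 3 * (1 / 20)) ≤ (m : ℝ) ^ 3 * (m - 1) * (1 / 10) := by
      have h5 : (m : ℝ) / 2 ≤ m - 1 := by linarith
      have h6 : (0 : ℝ) ≤ (m : ℝ) ^ 3 := by positivity
      nlinarith
    refine this.trans (h7.trans (le_of_eq ?_))
    ring
  have h7' : (m : ℝ) ^ 3 * (1 / 20) ≤ 4 * (C * K) := le_of_mul_le_mul_left h4 (by linarith)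
  have h8 : (n : ℝ) ^ 3 ≤ (27 / 2) ^ 3 * (m : ℝ) ^ 3 := by
    have : (n : ℝ) ≤ 27 / 2 * m := by
      have : (2 * n : ℝ) ≤ 27 * m := by exact_mod_cast hnm
      linarith
    calc (n : ℝ) ^ 3 ≤ (27 / 2 * m) ^ 3 := pow_le_pow_left₀ (by positivity) this 3
      _ = _ := by ring
  have h9' : 0 ≤ C * K := by
    have : (0 : ℝ) ≤ (m : ℝ) ^ 3 * (1 / 20) := by positivity
    linarith
  calc (n : ℝ) ^ 3 ≤ (27 / 2) ^ 3 * (m : ℝ) ^ 3 := h8
    _ ≤ (27 / 2) ^ 3 * (80 * (C * K)) := mul_le_mul_of_nonneg_left (by linarith) (by norm_num)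
    _ ≤ 2 ^ 19 * C * K := by nlinarith

end

end Pool.Agent.Helper21.UV
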