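import Pool.Agent.Helper8.UV.Defs
import Pool.Agent.Helper8.UV.Box
import Pool.Agent.Helper8.VT.LowerL

/-!
# General placements of the random weights

The weight in the cell `(u, v)` is an arbitrary function of the value of its variable.
-/

set_option autoImplicit false
set_option linter.unusedSectionVars false

open Finset
open scoped BigOperators

namespace Pool.Agent.Helper21.UV

open Pool.Agent.Helper22.ETModel Pool.Agent.Helper8.VT Pool.Agent.Helper8.UV

section
variable {n m Q : ℕ}

/-- The value of a variable. -/
def val3 (X Y Z : Cfg m Q) : Key m → ZMod Q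
  | (0, p) => X p
  | (1, p) => Y p
  | (2, p) => Z p

/-- The weights: `h0` in the unused cells, `h u v` of the value of the variable in the others. -/
def WtH (m Q : ℕ) (h0 : Fin n → Fin n → ℤ) (h : Fin n → Fin n → ZMod Q → ℤ)
    (X Y Z : Cfg m Q) (u v : Fin n) : ℤ :=
  match key m u v with
  | none => h0 u v
  | some (e, _) => h u v (val3 X Y Z e)

/-- The instance. -/
def mkH (h0 : Fin n → Fin n → ℤ) (h : Fin n → Fin n → ZMod Q → ℤ) (X Y Z : Cfg m Q) : Inst n :=
  ⟨fl n, WtH m Q h0 h X Y Z⟩

theorem mkH_tripartite (h0 : Fin n → Fin n → ℤ) (h : Fin n → Fin n → ZMod Q → ℤ)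
    (X Y Z : Cfg m Q) : Tripartite (mkH h0 h X Y Z) := by
  intro u v
  simp [mkH, fl]

/-- The shift of the copy. -/
def cpy (m Q : ℕ) (u v : Fin n) : ℤ :=
  match key m u v with
  | none => 0
  | some ((2, _), c) => c * Q
  | some (_, _) => 0

/-- `mkInst` is the special case. -/
theorem mkInst_eq (X Y Z : Cfg m Q) :
    mkInst n X Y Z = mkH (fun _ _ => 3 * Q) (fun u v z => (z.val : ℤ) - cpy m Q u v) X Y Z := by
  unfold mkInst mkH
  congr 1
  funext u v
  unfold Wt WtH
  have hcp : cpy m Q u v = match key m u v with
    | none => 0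
    | some ((2, _), c) => (c : ℤ) * Q
    | some (_, _) => 0 := rfl
  rcases hc : key m u v with _ | ⟨⟨c, p⟩, s⟩
  · rfl
  · rw [hc] at hcp
    fin_cases c
    · simp only at hcp ⊢
      rw [hcp]
      simp [val3]
    · simp only at hcp ⊢
      rw [hcp]
      simp [val3]
    · simp only at hcp ⊢
      rw [hcp]
      simp [val3]

/-- The placement. -/
def placeH (h0 : Fin n → Fin n → ℤ) (h : Fin n → Fin n → ZMod Q → ℤ) : Place n m Q where
  W := WtH m Q h0 h
  κ u v := (key m u v).map Prod.fst
  h1 := by
    intro X Y Z e a u v huv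
    unfold WtH
    rcases hc : key m u v with _ | ⟨⟨c, p⟩, s⟩
    · rfl
    · rw [hc] at huv
      fin_cases c
      · simp only [val3]
        rw [Function.update_of_ne]
        rintro rfl
        exact huv rfl
      · rfl
      · rfl
  h2 := by
    intro X Y Z e a u v huv
    unfold WtH
    rcases hc : key m u v with _ | ⟨⟨c, p⟩, s⟩
    · rfl
    · rw [hc] at huv
      fin_cases c
      · rfl
      · simp only [val3]
        rw [Function.update_of_ne]
        rintro rfl
        exact huv rfl
      · rfl
  h3 := by
    intro X Y Z e a u v huv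
    unfold WtH
    rcases hc : key m u v with _ | ⟨⟨c, p⟩, s⟩
    · rfl
    · rw [hc] at huv
      fin_cases c
      · rfl
      · rfl
      · simp only [val3]
        rw [Function.update_of_ne]
        rintro rfl
        exact huv rfl

end

end Pool.Agent.Helper21.UV
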