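import Pool.Agent.Helper21.UV.Aff

/-!
# The probability of an exceptional run
-/

set_option autoImplicit false
set_option linter.unusedSectionVars false

open Finset
open scoped BigOperators

namespace Pool.Agent.Helper21.UV

open Pool.Agent.Helper22.ETModel Pool.Agent.Helper8.VT Pool.Agent.Helper8.UV

section
variable {n m q P : ℕ}

/-- The macroscopic parts that agree with `μ0` on `A`. -/
def fib (A : Finset (Key m)) (μ0 : Key m → Fin (10 * P)) : Finset (Key m → Fin (10 * P)) :=
  Fintype.piFinset fun e => if e ∈ A then {μ0 e} else univ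

theorem mem_fib {A : Finset (Key m)} {μ0 μ : Key m → Fin (10 * P)} :
    μ ∈ fib A μ0 ↔ ∀ e ∈ A, μ e = μ0 e := by
  unfold fib
  rw [Fintype.mem_piFinset]
  constructor
  · intro h e he
    have := h e
    rw [if_pos he, Finset.mem_singleton] at this
    exact this
  · intro h e
    split_ifs with he
    · rw [Finset.mem_singleton]; exact h e he
    · exact Finset.mem_univ _

theorem card_fib (A : Finset (Key m)) (μ0 : Key m → Fin (10 * P)) :
    (fib A μ0).card = (10 * P) ^ (univ \ A).card := by
  unfold fib
  rw [Fintype.card_piFinset]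
  have h : ∀ e : Key m, (if e ∈ A then ({μ0 e} : Finset (Fin (10 * P))) else univ).card =
      if e ∈ univ \ A then 10 * P else 1 := by
    intro e
    by_cases he : e ∈ A
    · rw [if_pos he, if_neg (by simp [he]), Finset.card_singleton]
    · rw [if_neg he, if_pos (by simp [he]), Finset.card_univ, Fintype.card_fin]
  rw [Finset.prod_congr rfl (fun e _ => h e), Finset.prod_ite_mem, Finset.univ_inter,
    Finset.prod_const]

theorem card_fib_insert {A : Finset (Key m)} {e : Key m} (he : e ∉ A)
    (μ0 μ1 : Key m → Fin (10 * P)) :
    10 * P * (fib (insert e A) μ1).card = (fib A μ0).card := by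
  rw [card_fib, card_fib]
  have h : (univ \ A).card = (univ \ insert e A).card + 1 := by
    rw [← Finset.card_insert_of_notMem (s := univ \ insert e A) (a := e) (by simp)]
    congr 1
    ext x
    simp only [Finset.mem_sdiff, Finset.mem_univ, true_and, Finset.mem_insert, not_or]
    constructor
    · intro hx
      by_cases hxe : x = e
      · exact Or.inl hxe
      · exact Or.inr ⟨hxe, hx⟩
    · rintro (rfl | ⟨_, hx⟩)
      · exact he
      · exact hx
  rw [h, pow_succ]
  ring

open Classical in
/-- Partition by the value of one variable. -/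
theorem fib_partition {A : Finset (Key m)} {e : Key m} (he : e ∉ A)
    (μ0 : Key m → Fin (10 * P)) (p : (Key m → Fin (10 * P)) → Prop) :
    ((fib A μ0).filter p).card =
      ∑ x, ((fib (insert e A) (Function.update μ0 e x)).filter p).card := by
  rw [Finset.card_eq_sum_card_fiberwise (f := fun μ => μ e) (t := univ)
    (fun _ _ => Finset.mem_coe.2 (Finset.mem_univ _))]
  refine Finset.sum_congr rfl fun x _ => ?_
  congr 1
  ext μ
  simp only [Finset.mem_filter, mem_fib]
  constructor
  · rintro ⟨⟨h1, h2⟩, h3⟩
    refine ⟨fun e' he' => ?_, h2⟩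
    by_cases h : e' = e
    · subst h; rw [Function.update_self]; exact h3
    · rw [Function.update_of_ne h]; exact h1 e' (Finset.mem_of_mem_insert_of_ne he' h)
  · rintro ⟨h1, h2⟩
    refine ⟨⟨fun e' he' => ?_, h2⟩, ?_⟩
    · have h := h1 e' (Finset.mem_insert_of_mem he')
      have hne : e' ≠ e := by rintro rfl; exact he he'
      rwa [Function.update_of_ne hne] at h
    · have h := h1 e (Finset.mem_insert_self _ _)
      rwa [Function.update_self] at h

/-- Few integers lie in a short interval. -/
theorem few (R : ℕ) (d c : ℝ) (hc : c ≠ 0) (S : Finset ℕ)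
    (hS : ∀ x ∈ S, |d + c * x| ≤ |c| * R) : S.card ≤ 2 * R + 1 := by
  rcases S.eq_empty_or_nonempty with rfl | hne
  · simp
  · have hsub : S ⊆ Finset.Icc (S.min' hne) (S.min' hne + 2 * R) := by
      intro y hy
      rw [Finset.mem_Icc]
      refine ⟨Finset.min'_le _ _ hy, ?_⟩
      have h0 := hS _ (Finset.min'_mem S hne)
      have h1 := hS y hy
      have h2 : |c * ((y : ℝ) - (S.min' hne : ℕ))| ≤ |c| * (2 * R) := by
        have : c * ((y : ℝ) - (S.min' hne : ℕ)) =
            (d + c * y) - (d + c * (S.min' hne : ℕ)) := by ring
        rw [this]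
        refine (abs_sub _ _).trans ?_
        linarith
      rw [abs_mul] at h2
      have h3 := le_of_mul_le_mul_left h2 (abs_pos.2 hc)
      have h4 := (le_abs_self _).trans h3
      have h5 : (y : ℝ) ≤ (S.min' hne : ℕ) + 2 * R := by linarith
      exact_mod_cast h5
    have := Finset.card_le_card hsub
    rw [Nat.card_Icc] at this
    omega

open Classical in
/-- Change of the value of one variable. -/
theorem fib_update (A : Finset (Key m)) (e : Key m) (μ0 : Key m → Fin (10 * P))
    (p : (Key m → Fin (10 * P)) → Prop) (x : Fin (10 * P)) :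
    ((fib (insert e A) (Function.update μ0 e x)).filter p).card =
      ((fib (insert e A) μ0).filter fun μ => p (Function.update μ e x)).card := by
  symm
  refine Finset.card_bij' (fun μ _ => Function.update μ e x)
    (fun μ _ => Function.update μ e (μ0 e)) ?_ ?_ ?_ ?_
  · intro μ hμ
    rw [Finset.mem_filter, mem_fib] at hμ ⊢
    refine ⟨fun e' he' => ?_, hμ.2⟩
    by_cases h : e' = e
    · subst h; rw [Function.update_self, Function.update_self]
    · rw [Function.update_of_ne h, Function.update_of_ne h]; exact hμ.1 e' he'
  · intro μ hμ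
    rw [Finset.mem_filter, mem_fib] at hμ ⊢
    refine ⟨fun e' he' => ?_, ?_⟩
    · by_cases h : e' = e
      · subst h; rw [Function.update_self]
      · rw [Function.update_of_ne h]
        have := hμ.1 e' he'
        rwa [Function.update_of_ne h] at this
    · have hx : μ e = x := by
        have := hμ.1 e (Finset.mem_insert_self _ _)
        rwa [Function.update_self] at this
      have : Function.update (Function.update μ e (μ0 e)) e x = μ := by
        rw [Function.update_idem, ← hx, Function.update_eq_self]
      rw [this]; exact hμ.2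
  · intro μ hμ
    rw [Finset.mem_filter, mem_fib] at hμ
    have hx : μ e = μ0 e := hμ.1 e (Finset.mem_insert_self _ _)
    simp only [Function.update_idem]
    rw [← hx, Function.update_eq_self]
  · intro μ hμ
    rw [Finset.mem_filter, mem_fib] at hμ
    have hx : μ e = x := by
      have := hμ.1 e (Finset.mem_insert_self _ _)
      rwa [Function.update_self] at this
    simp only [Function.update_idem]
    rw [← hx, Function.update_eq_self]

open Classical in
/-- Double counting for the small values. -/
theorem small_count (A : Finset (Key m)) (e : Key m) (μ0 : Key m → Fin (10 * P))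
    (p : (Key m → Fin (10 * P)) → Prop) (R : ℕ)
    (hp : ∀ μ, (univ.filter fun x : Fin (10 * P) =>
      (x : ℕ) < P ∧ p (Function.update μ e x)).card ≤ 2 * R + 1) :
    ∑ x ∈ univ.filter (fun x : Fin (10 * P) => (x : ℕ) < P),
      ((fib (insert e A) (Function.update μ0 e x)).filter p).card ≤
      (2 * R + 1) * (fib (insert e A) μ0).card := by
  simp only [fib_update]
  have h1 : ∀ x : Fin (10 * P), ((fib (insert e A) μ0).filter fun μ =>
      p (Function.update μ e x)).card =
      ∑ μ ∈ fib (insert e A) μ0, if p (Function.update μ e x) then 1 else 0 := fun x => by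
    rw [Finset.card_filter]
  simp only [h1]
  rw [Finset.sum_comm]
  have h2 : ∀ μ ∈ fib (insert e A) μ0, (∑ x ∈ univ.filter (fun x : Fin (10 * P) => (x : ℕ) < P),
      if p (Function.update μ e x) then 1 else 0) ≤ 2 * R + 1 := by
    intro μ _
    rw [← Finset.card_filter, Finset.filter_filter]
    exact hp μ
  refine (Finset.sum_le_sum h2).trans (le_of_eq ?_)
  rw [Finset.sum_const, smul_eq_mul, mul_comm]

theorem card_small (P : ℕ) :
    ((univ : Finset (Fin (10 * P))).filter fun x : Fin (10 * P) => (x : ℕ) < P).card = P := by
  have h3 : (univ.filter fun x : Fin (10 * P) => (x : ℕ) < P) =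
      (univ : Finset (Fin P)).map (Fin.castLEEmb (by omega)) := by
    ext x
    simp only [Finset.mem_filter, Finset.mem_univ, true_and, Finset.mem_map]
    constructor
    · intro h
      exact ⟨⟨x, h⟩, by ext; simp⟩
    · rintro ⟨y, rfl⟩
      simp
  rw [h3, Finset.card_map, Finset.card_univ, Fintype.card_fin]

theorem card_large (P : ℕ) :
    ((univ : Finset (Fin (10 * P))).filter fun x : Fin (10 * P) => ¬ (x : ℕ) < P).card =
      9 * P := by
  have h := Finset.card_filter_add_card_filter_not (s := (univ : Finset (Fin (10 * P))))
    (fun x : Fin (10 * P) => (x : ℕ) < P)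
  rw [card_small, Finset.card_univ, Fintype.card_fin] at h
  omega

variable [NeZero q]

open Classical in
/-- The number of values of one big variable for which a form is small. -/
theorem few_values (c₀ : ℝ) (c : Fin n → Fin n → ℝ) (X Y Z : Cfg m q) (e : Key m)
    (he : coef m c e ≠ 0) (μ : Key m → Fin (10 * P)) :
    (univ.filter fun x : Fin (10 * P) => (x : ℕ) < P ∧
      |aff c₀ c (WM n P (Function.update μ e x) X Y Z)| ≤
        Fintype.card (Key m) * |coef m c e| * q).card ≤
      2 * (Fintype.card (Key m) * q) + 1 := by
  set d : ℝ := cst0 m q c₀ c + ∑ e' ∈ univ.erase e, coef m c e' * tot q P μ X Y Z e' +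
    coef m c e * (10 * q + (val3 X Y Z e).val) with hd
  rw [← Finset.card_map Fin.valEmbedding]
  refine few _ d (coef m c e) he _ ?_
  intro y hy
  rw [Finset.mem_map] at hy
  obtain ⟨x, hx, rfl⟩ := hy
  rw [Finset.mem_filter] at hx
  obtain ⟨_, hxP, hx⟩ := hx
  have h1 : aff c₀ c (WM n P (Function.update μ e x) X Y Z) = d + coef m c e * (x : ℕ) := by
    rw [aff_eq, ← Finset.add_sum_erase univ _ (Finset.mem_univ e), hd]
    have h2 : ∑ e' ∈ univ.erase e, coef m c e' * tot q P (Function.update μ e x) X Y Z e' =
        ∑ e' ∈ univ.erase e, coef m c e' * tot q P μ X Y Z e' := by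
      refine Finset.sum_congr rfl fun e' he' => ?_
      unfold tot mac
      rw [Function.update_of_ne (Finset.ne_of_mem_erase he')]
    have h3 : tot q P (Function.update μ e x) X Y Z e =
        10 * q + (x : ℕ) + (val3 X Y Z e).val := by
      unfold tot mac
      rw [Function.update_self, if_pos hxP]
      push_cast
      ring
    rw [h2, h3]
    ring
  rw [h1] at hx
  simp only [Fin.valEmbedding_apply]
  refine hx.trans (le_of_eq ?_)
  push_cast
  ring

open Classical in
/-- The reading phase. -/
theorem phase_prob (hP : 0 < P) (c₀ : ℝ) (c : Fin n → Fin n → ℝ) (X Y Z : Cfg m q)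
    (nxt : (Key m → Fin (10 * P)) → Finset (Key m) → Prop) (b : ℝ)
    (hb : ∀ (A : Finset (Key m)) (μ0 : Key m → Fin (10 * P)),
      (((fib A μ0).filter fun μ => nxt μ A).card : ℝ) ≤ b * (fib A μ0).card) :
    ∀ (f : ℕ) (A : Finset (Key m)) (μ0 : Key m → Fin (10 * P)),
      (((fib A μ0).filter fun μ => phase q P μ (coef m c)
        (aff c₀ c (WM n P μ X Y Z)) (nxt μ) f A).card : ℝ) ≤
        ((9 / 10) ^ f + (2 * Fintype.card (Key m) * q + 1) / P + b) * (fib A μ0).card := by
  have hP' : (0 : ℝ) < P := by exact_mod_cast hP
  set ε : ℝ := (2 * Fintype.card (Key m) * q + 1) / P with hε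
  have hε0 : 0 ≤ ε := by positivity
  have hb0 : ∀ (A : Finset (Key m)) (μ0 : Key m → Fin (10 * P)),
      0 ≤ b * (fib A μ0).card := fun A μ0 => le_trans (Nat.cast_nonneg _) (hb A μ0)
  intro f
  induction f with
  | zero =>
    intro A μ0
    have h1 : (((fib A μ0).filter fun μ => phase q P μ (coef m c)
        (aff c₀ c (WM n P μ X Y Z)) (nxt μ) 0 A).card : ℝ) ≤ (fib A μ0).card := by
      exact_mod_cast Finset.card_filter_le _ _
    have h2 := hb0 A μ0
    have h3 : 0 ≤ ε * (fib A μ0).card := by positivity
    rw [pow_zero]
    nlinarith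
  | succ f ih =>
    intro A μ0
    have hN0 : (0 : ℝ) ≤ (fib A μ0).card := Nat.cast_nonneg _
    rcases htop : top (coef m c) A with _ | e
    · have h1 : ((fib A μ0).filter fun μ => phase q P μ (coef m c)
          (aff c₀ c (WM n P μ X Y Z)) (nxt μ) (f + 1) A) =
          (fib A μ0).filter fun μ => nxt μ A := by
        refine Finset.filter_congr fun μ _ => ?_
        unfold phase
        rw [htop]
      rw [h1]
      have h2 := hb A μ0
      have h3 : 0 ≤ ((9 / 10) ^ (f + 1) + ε) * ((fib A μ0).card : ℝ) := by positivity
      nlinarith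
    · obtain ⟨he1, he2, he3⟩ := top_some htop
      set N' : ℝ := ((fib (insert e A) μ0).card : ℝ) with hN'
      have hcard : ∀ x, ((fib (insert e A) (Function.update μ0 e x)).card : ℝ) = N' := by
        intro x
        rw [hN', card_fib, card_fib]
      have hN : (10 * P : ℝ) * N' = (fib A μ0).card := by
        have := card_fib_insert he1 μ0 μ0
        rw [hN']
        exact_mod_cast this
      rw [fib_partition he1]
      push_cast
      rw [← Finset.sum_filter_add_sum_filter_not univ (fun x : Fin (10 * P) => (x : ℕ) < P)]
      -- the big values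
      have hbig : ∀ x ∈ univ.filter (fun x : Fin (10 * P) => (x : ℕ) < P),
          (((fib (insert e A) (Function.update μ0 e x)).filter fun μ => phase q P μ (coef m c)
            (aff c₀ c (WM n P μ X Y Z)) (nxt μ) (f + 1) A).card : ℝ) ≤
          (((fib (insert e A) (Function.update μ0 e x)).filter fun μ =>
            |aff c₀ c (WM n P μ X Y Z)| ≤ Fintype.card (Key m) * |coef m c e| * q).card : ℝ) +
            b * N' := by
        intro x hx
        rw [Finset.mem_filter] at hx
        have h1 : ((fib (insert e A) (Function.update μ0 e x)).filter fun μ =>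
            phase q P μ (coef m c) (aff c₀ c (WM n P μ X Y Z)) (nxt μ) (f + 1) A) ⊆
            ((fib (insert e A) (Function.update μ0 e x)).filter fun μ =>
              |aff c₀ c (WM n P μ X Y Z)| ≤ Fintype.card (Key m) * |coef m c e| * q) ∪
            ((fib (insert e A) (Function.update μ0 e x)).filter fun μ => nxt μ (insert e A)) := by
          intro μ hμ
          rw [Finset.mem_filter] at hμ
          obtain ⟨h2, h3⟩ := hμ
          unfold phase at h3
          rw [htop] at h3
          simp only at h3
          have h4 : μ e = x := by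
            have := mem_fib.1 h2 e (Finset.mem_insert_self _ _)
            rwa [Function.update_self] at this
          rw [if_pos (by rw [h4]; exact hx.2)] at h3
          rw [Finset.mem_union, Finset.mem_filter, Finset.mem_filter]
          rcases h3 with h3 | h3
          · exact Or.inl ⟨h2, h3⟩
          · exact Or.inr ⟨h2, h3⟩
        have h5 := (Finset.card_le_card h1).trans (Finset.card_union_le _ _)
        have h6 := hb (insert e A) (Function.update μ0 e x)
        rw [hcard] at h6
        have h7 : (((fib (insert e A) (Function.update μ0 e x)).filter fun μ =>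
            phase q P μ (coef m c) (aff c₀ c (WM n P μ X Y Z)) (nxt μ) (f + 1) A).card : ℝ) ≤
            (((fib (insert e A) (Function.update μ0 e x)).filter fun μ =>
              |aff c₀ c (WM n P μ X Y Z)| ≤
                Fintype.card (Key m) * |coef m c e| * q).card : ℝ) +
            (((fib (insert e A) (Function.update μ0 e x)).filter fun μ =>
              nxt μ (insert e A)).card : ℝ) := by
          exact_mod_cast h5
        linarith
      -- the small values
      have hsmall : ∀ x ∈ univ.filter (fun x : Fin (10 * P) => ¬ (x : ℕ) < P),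
          (((fib (insert e A) (Function.update μ0 e x)).filter fun μ => phase q P μ (coef m c)
            (aff c₀ c (WM n P μ X Y Z)) (nxt μ) (f + 1) A).card : ℝ) ≤
          ((9 / 10) ^ f + ε + b) * N' := by
        intro x hx
        rw [Finset.mem_filter] at hx
        have h1 : ((fib (insert e A) (Function.update μ0 e x)).filter fun μ =>
            phase q P μ (coef m c) (aff c₀ c (WM n P μ X Y Z)) (nxt μ) (f + 1) A) =
            ((fib (insert e A) (Function.update μ0 e x)).filter fun μ =>
            phase q P μ (coef m c) (aff c₀ c (WM n P μ X Y Z)) (nxt μ) f (insert e A)) := by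
          refine Finset.filter_congr fun μ hμ => ?_
          have h4 : μ e = x := by
            have := mem_fib.1 hμ e (Finset.mem_insert_self _ _)
            rwa [Function.update_self] at this
          conv_lhs => unfold phase
          rw [htop]
          simp only
          rw [if_neg (by rw [h4]; exact hx.2)]
        rw [h1]
        have := ih (insert e A) (Function.update μ0 e x)
        rwa [hcard] at this
      have s1 := Finset.sum_le_sum hbig
      have s2 := Finset.sum_le_sum hsmall
      rw [Finset.sum_add_distrib, Finset.sum_const, card_small, nsmul_eq_mul] at s1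
      rw [Finset.sum_const, card_large, nsmul_eq_mul] at s2
      have s3 := small_count A e μ0 (fun μ => |aff c₀ c (WM n P μ X Y Z)| ≤
        Fintype.card (Key m) * |coef m c e| * q) (Fintype.card (Key m) * q)
        (fun μ => few_values c₀ c X Y Z e he2 μ)
      have s4 : (∑ x ∈ univ.filter (fun x : Fin (10 * P) => (x : ℕ) < P),
          (((fib (insert e A) (Function.update μ0 e x)).filter fun μ =>
            |aff c₀ c (WM n P μ X Y Z)| ≤
              Fintype.card (Key m) * |coef m c e| * q).card : ℝ)) ≤
          (2 * (Fintype.card (Key m) * q) + 1) * N' := by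
        rw [hN']
        exact_mod_cast s3
      have s5 : (2 * (Fintype.card (Key m) * q) + 1 : ℝ) = ε * P := by
        rw [hε]
        field_simp
      rw [s5] at s4
      push_cast at s2
      rw [← hN, pow_succ]
      nlinarith

theorem WM_const {A : Finset (Key m)} {e : Key m} {μ0 : Key m → Fin (10 * P)} (he : e ∈ A)
    (X Y Z : Cfg m q) (i j : Fin n) (c : ℕ) (hc : key m i j = some (e, c))
    {μ : Key m → Fin (10 * P)} (hμ : μ ∈ fib A μ0) :
    WM n P μ X Y Z i j = mac q P μ0 e + (val3 X Y Z e).val - cpy m q i j := by
  rw [WM_some μ X Y Z i j e c hc]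
  unfold mac
  rw [mem_fib.1 hμ e he]

open Classical in
/-- The probability of an exceptional run. -/
theorem tree_prob (hP : 0 < P) (c1 : ℕ) (X Y Z : Cfg m q) {B D : ℕ} (t : LTree n B D) :
    ∀ (A : Finset (Key m)) (μ0 : Key m → Fin (10 * P)),
      (((fib A μ0).filter fun μ => t.excN c1 q P μ (WM n P μ X Y Z) A).card : ℝ) ≤
        ((2 ^ D - 1) * ((9 / 10) ^ c1 + (2 * Fintype.card (Key m) * q + 1) / P)) *
          (fib A μ0).card := by
  have hP' : (0 : ℝ) < P := by exact_mod_cast hP
  set ε : ℝ := (9 / 10) ^ c1 + (2 * Fintype.card (Key m) * q + 1) / P with hε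
  have hε0 : 0 ≤ ε := by positivity
  have hD : ∀ D : ℕ, (0 : ℝ) ≤ 2 ^ D - 1 := fun D => by
    have : (1 : ℝ) ≤ 2 ^ D := one_le_pow₀ (by norm_num)
    linarith
  induction t with
  | @leaf B D v =>
    intro A μ0
    have h : ((fib A μ0).filter fun μ =>
        (LTree.leaf v : LTree n B D).excN c1 q P μ (WM n P μ X Y Z) A) = ∅ := by
      refine Finset.filter_false_of_mem fun μ _ => ?_
      simp [LTree.excN]
    rw [h]
    simp only [Finset.card_empty, Nat.cast_zero]
    exact mul_nonneg (mul_nonneg (hD D) hε0) (Nat.cast_nonneg _)
  | @probe B D i j next ih =>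
    intro A μ0
    rcases hc : key m i j with _ | ⟨e, c⟩
    · have h : ((fib A μ0).filter fun μ =>
          (LTree.probe i j next).excN c1 q P μ (WM n P μ X Y Z) A) =
          ((fib A μ0).filter fun μ => (next (10 * q)).excN c1 q P μ (WM n P μ X Y Z) A) := by
        refine Finset.filter_congr fun μ _ => ?_
        simp only [LTree.excN, addKey, hc, WM_none μ X Y Z i j hc]
      rw [h]
      exact ih _ A μ0
    · by_cases he : e ∈ A
      · have h : ((fib A μ0).filter fun μ =>
            (LTree.probe i j next).excN c1 q P μ (WM n P μ X Y Z) A) =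
            ((fib A μ0).filter fun μ =>
              (next (mac q P μ0 e + (val3 X Y Z e).val - cpy m q i j)).excN c1 q P μ
                (WM n P μ X Y Z) A) := by
          refine Finset.filter_congr fun μ hμ => ?_
          simp only [LTree.excN, addKey, hc, Finset.insert_eq_of_mem he,
            WM_const he X Y Z i j c hc hμ]
        rw [h]
        exact ih _ A μ0
      · rw [fib_partition he]
        push_cast
        have h1 : ∀ x ∈ (univ : Finset (Fin (10 * P))),
            (((fib (insert e A) (Function.update μ0 e x)).filter fun μ =>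
              (LTree.probe i j next).excN c1 q P μ (WM n P μ X Y Z) A).card : ℝ) ≤
            ((2 ^ D - 1) * ε) * (fib (insert e A) μ0).card := by
          intro x _
          have h : ((fib (insert e A) (Function.update μ0 e x)).filter fun μ =>
              (LTree.probe i j next).excN c1 q P μ (WM n P μ X Y Z) A) =
              ((fib (insert e A) (Function.update μ0 e x)).filter fun μ =>
                (next (mac q P (Function.update μ0 e x) e + (val3 X Y Z e).val -
                  cpy m q i j)).excN c1 q P μ (WM n P μ X Y Z) (insert e A)) := by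
            refine Finset.filter_congr fun μ hμ => ?_
            simp only [LTree.excN, addKey, hc,
              WM_const (Finset.mem_insert_self e A) X Y Z i j c hc hμ]
          rw [h]
          have h2 := ih (mac q P (Function.update μ0 e x) e + (val3 X Y Z e).val -
            cpy m q i j) (insert e A) (Function.update μ0 e x)
          have h3 : (fib (insert e A) (Function.update μ0 e x)).card =
              (fib (insert e A) μ0).card := by rw [card_fib, card_fib]
          rwa [h3] at h2
        refine (Finset.sum_le_sum h1).trans (le_of_eq ?_)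
        rw [Finset.sum_const, Finset.card_univ, Fintype.card_fin, nsmul_eq_mul]
        have := card_fib_insert he μ0 μ0
        have h4 : ((10 * P : ℕ) : ℝ) * ((fib (insert e A) μ0).card : ℝ) = (fib A μ0).card := by
          exact_mod_cast this
        rw [← h4]
        ring
  | @sign B D c₀ c next ih =>
    intro A μ0
    obtain ⟨nxt, hnxt⟩ : ∃ nxt : (Key m → Fin (10 * P)) → Finset (Key m) → Prop,
        ∀ μ A, nxt μ A ↔ ∃ b : Bool, (next b).excN c1 q P μ (WM n P μ X Y Z) A :=
      ⟨fun μ A => ∃ b : Bool, (next b).excN c1 q P μ (WM n P μ X Y Z) A, fun _ _ => Iff.rfl⟩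
    have hb : ∀ (A : Finset (Key m)) (μ0 : Key m → Fin (10 * P)),
        (((fib A μ0).filter fun μ => nxt μ A).card : ℝ) ≤
          (2 * ((2 ^ D - 1) * ε)) * (fib A μ0).card := by
      intro A μ0
      have h1 : ((fib A μ0).filter fun μ => nxt μ A) ⊆
          ((fib A μ0).filter fun μ => (next true).excN c1 q P μ (WM n P μ X Y Z) A) ∪
          ((fib A μ0).filter fun μ => (next false).excN c1 q P μ (WM n P μ X Y Z) A) := by
        intro μ hμ
        rw [Finset.mem_filter, hnxt] at hμ
        obtain ⟨h2, b, h3⟩ := hμ
        rw [Finset.mem_union, Finset.mem_filter, Finset.mem_filter]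
        cases b
        · exact Or.inr ⟨h2, h3⟩
        · exact Or.inl ⟨h2, h3⟩
      have h2 := (Finset.card_le_card h1).trans (Finset.card_union_le _ _)
      have h3 : (((fib A μ0).filter fun μ => nxt μ A).card : ℝ) ≤
          (((fib A μ0).filter fun μ =>
            (next true).excN c1 q P μ (WM n P μ X Y Z) A).card : ℝ) +
          (((fib A μ0).filter fun μ =>
            (next false).excN c1 q P μ (WM n P μ X Y Z) A).card : ℝ) := by
        exact_mod_cast h2
      linarith [ih true A μ0, ih false A μ0]
    have h := phase_prob hP c₀ c X Y Z nxt (2 * ((2 ^ D - 1) * ε)) hb c1 A μ0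
    have h4 : ((fib A μ0).filter fun μ =>
        (LTree.sign c₀ c next).excN c1 q P μ (WM n P μ X Y Z) A) =
        ((fib A μ0).filter fun μ => phase q P μ (coef m c)
          (aff c₀ c (WM n P μ X Y Z)) (nxt μ) c1 A) := by
      refine Finset.filter_congr fun μ _ => ?_
      simp only [LTree.excN]
      constructor
      · exact phase_mono (fun A hA => (hnxt μ A).2 hA) _ _
      · exact phase_mono (fun A hA => (hnxt μ A).1 hA) _ _
    rw [h4]
    refine h.trans (le_of_eq ?_)
    rw [← hε, pow_succ]
    ring

open Classical in
theorem excN_card (hP : 0 < P) (c1 : ℕ) {B D : ℕ} (t : LTree n B D) (X Y Z : Cfg m q) :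
    ((univ.filter fun μ : Key m → Fin (10 * P) =>
      t.excN c1 q P μ (WM n P μ X Y Z) ∅).card : ℝ) ≤
    (2 ^ D - 1) * ((9 / 10) ^ c1 + (2 * Fintype.card (Key m) * q + 1) / P) *
      (10 * P) ^ Fintype.card (Key m) := by
  have h := tree_prob hP c1 X Y Z t ∅ (fun _ => ⟨0, by omega⟩)
  have h1 : fib (∅ : Finset (Key m)) (fun _ => (⟨0, by omega⟩ : Fin (10 * P))) = univ := by
    ext μ
    simp [mem_fib]
  have h2 : ((fib (∅ : Finset (Key m)) (fun _ => (⟨0, by omega⟩ : Fin (10 * P)))).card : ℝ) =
      (10 * P) ^ Fintype.card (Key m) := by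
    rw [card_fib, Finset.sdiff_empty, Finset.card_univ]
    push_cast
    rfl
  rw [h2, h1] at h
  exact h

end

end Pool.Agent.Helper21.UV
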